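import Pool.Agent.Lib.BP.Defs

/-!
MODULE BP.AbMod (1.2 h). The action of the free group on `(ℤ/m)^n` by translations.

* `pi_pm`: induction (or `lab_unique`-like uniqueness of homomorphisms to permutations).
* `pm_trans`: the product of the `(of i)^(k i)` moves `v` to `v + k`; `ZMod m` is generated by `1` (`ZMod.intCast_surjective`). (`ab` is onto since its range contains the `Pi.single i a`, which generate.)
* `ab_aut`: `ab n m w = 1` iff every homomorphism of the free group to `Multiplicative (ZMod m)` kills `w` (each factors through `ab`, coordinates are such homomorphisms); compose with `σ`.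
* `ab_order`: `α` induces a permutation of the finite quotient `(ℤ/m)^n` (`ab` onto, `ab_aut`), some power is the identity.
  Alternatively pigeonhole: the maps `i ↦ ab ((α^k) (of i))` for `k = 0, 1, 2, ...` lie in a finite set, so they coincide for two exponents `k < l`; as `α^k` is an automorphism preserving the kernel of `ab`, `α^(l-k) x` and `x` have the same image for all `x`.
* `orbit_low`: the stabiliser-free part: `z ↦ v + ab z`; for `u : Fin r → Fin m` the elements `σ (∏ (of i)^(u i))`, `i < r`, have pairwise different images under `ab` (`ab_aut` for `σ⁻¹`), so the orbit has at least `m^r` elements.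
-/

set_option autoImplicit false

namespace Pool.Agent.BP

/-- the subgroup generated by the first `r` generators -/
def low (n r : ℕ) : Subgroup (FreeGroup (Fin n)) :=
  Subgroup.closure {x | ∃ j : Fin n, j.val < r ∧ x = FreeGroup.of j}

/-- abelianisation modulo `m` -/
def ab (n m : ℕ) : FreeGroup (Fin n) →* Multiplicative (Fin n → ZMod m) :=
  FreeGroup.lift (fun i => Multiplicative.ofAdd (Pi.single i 1))

/-- translation by the `i`-th unit vector -/
def pm (n m : ℕ) (i : Fin n) : Equiv.Perm (Fin n → ZMod m) := Equiv.addRight (Pi.single i 1)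

theorem pi_pm (n m : ℕ) (w : FreeGroup (Fin n)) (v : Fin n → ZMod m) :
    pi (pm n m) w v = v + Multiplicative.toAdd (ab n m w) := by
  revert v
  induction w using FreeGroup.induction_on with
  | C1 => intro v; simp
  | of i =>
    intro v
    rw [pi_of, ab, FreeGroup.lift_apply_of]
    rfl
  | inv_of i ih =>
    intro v
    have h := ih (pi (pm n m) (FreeGroup.of i)⁻¹ v)
    rw [pi_pi_inv] at h
    rw [map_inv (ab n m), toAdd_inv, ← sub_eq_add_neg]
    exact (eq_sub_iff_add_eq.2 h.symm)
  | mul u w hu hw =>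
    intro v
    rw [pi_mul, hw, hu, map_mul, toAdd_mul, add_assoc, add_comm (Multiplicative.toAdd (ab n m w))]

namespace AbModAux

theorem ab_of (n m : ℕ) (i : Fin n) :
    ab n m (FreeGroup.of i) = Multiplicative.ofAdd (Pi.single i 1) := by
  rw [ab, FreeGroup.lift_apply_of]

theorem ab_prod (n m r : ℕ) (c : Fin r → Fin n) (z : Fin r → ℕ) :
    Multiplicative.toAdd (ab n m (List.ofFn (fun i => FreeGroup.of (c i) ^ z i)).prod) =
      ∑ i, z i • (Pi.single (c i) 1 : Fin n → ZMod m) := by
  rw [map_list_prod, List.map_ofFn, List.prod_ofFn, toAdd_prod]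
  refine Finset.sum_congr rfl fun i _ => ?_
  rw [Function.comp_apply, map_pow, ab_of, toAdd_pow, toAdd_ofAdd]

theorem ab_surj (n m : ℕ) (k : Fin n → ZMod m) :
    ∃ w, Multiplicative.toAdd (ab n m w) = k := by
  have h : ∀ i, ∃ z : ℤ, (z : ZMod m) = k i := fun i => ZMod.intCast_surjective (k i)
  choose z hz using h
  refine ⟨(List.ofFn (fun i => FreeGroup.of i ^ z i)).prod, ?_⟩
  rw [map_list_prod, List.map_ofFn, List.prod_ofFn, toAdd_prod]
  funext j
  rw [Finset.sum_apply, Finset.sum_eq_single j]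
  · rw [Function.comp_apply, map_zpow, ab_of, toAdd_zpow, toAdd_ofAdd, Pi.smul_apply,
      Pi.single_eq_same, ← hz j]
    simp
  · intro i _ hij
    rw [Function.comp_apply, map_zpow, ab_of, toAdd_zpow, toAdd_ofAdd, Pi.smul_apply,
      Pi.single_eq_of_ne (Ne.symm hij), smul_zero]
  · intro h
    exact absurd (Finset.mem_univ j) h

theorem ab_fac (n m : ℕ) (σ : FreeGroup (Fin n) →* FreeGroup (Fin n)) :
    ∃ g : (Fin n → ZMod m) →+ (Fin n → ZMod m), ∀ w,
      Multiplicative.toAdd (ab n m (σ w)) = g (Multiplicative.toAdd (ab n m w)) := by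
  refine ⟨(Fintype.linearCombination (ZMod m)
    (fun i => Multiplicative.toAdd (ab n m (σ (FreeGroup.of i))))).toAddMonoidHom, fun w => ?_⟩
  have h : (ab n m).comp σ = (AddMonoidHom.toMultiplicative
      ((Fintype.linearCombination (ZMod m) (fun i => Multiplicative.toAdd
        (ab n m (σ (FreeGroup.of i))))).toAddMonoidHom)).comp (ab n m) := by
    refine FreeGroup.ext_hom _ _ fun i => ?_
    rw [MonoidHom.comp_apply, MonoidHom.comp_apply, ab_of]
    change _ = Multiplicative.ofAdd (Fintype.linearCombination (ZMod m) (fun i =>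
      Multiplicative.toAdd (ab n m (σ (FreeGroup.of i)))) (Pi.single i 1))
    rw [Fintype.linearCombination_apply_single, one_smul, ofAdd_toAdd]
  have h1 := DFunLike.congr_fun h w
  rw [MonoidHom.comp_apply, MonoidHom.comp_apply] at h1
  rw [h1]
  rfl

end AbModAux

open AbModAux

theorem pm_trans (n m : ℕ) (v v' : Fin n → ZMod m) : ∃ w, pi (pm n m) w v = v' := by
  obtain ⟨w, hw⟩ := ab_surj n m (v' - v)
  exact ⟨w, by rw [pi_pm, hw, add_sub_cancel]⟩

theorem ab_aut (n m : ℕ) (σ : MulAut (FreeGroup (Fin n))) (w : FreeGroup (Fin n))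
    (h : ab n m w = 1) : ab n m (σ w) = 1 := by
  obtain ⟨g, hg⟩ := ab_fac n m σ.toMonoidHom
  have h1 := hg w
  rw [h, toAdd_one, map_zero] at h1
  exact h1

theorem ab_order (n m : ℕ) (hm : 0 < m) (α : MulAut (FreeGroup (Fin n))) :
    ∃ k, 1 ≤ k ∧ ∀ x, ab n m ((α ^ k) x * x⁻¹) = 1 := by
  have hne : NeZero m := ⟨hm.ne'⟩
  have hfin : Finite (Fin n → Multiplicative (Fin n → ZMod m)) :=
    inferInstanceAs (Finite (Fin n → (Fin n → ZMod m)))
  obtain ⟨a, b, hab, heq⟩ := Finite.exists_ne_map_eq_of_infinite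
    (fun k : ℕ => fun i : Fin n => ab n m ((α ^ k) (FreeGroup.of i)))
  have key : ∀ a b : ℕ, a < b → (fun i : Fin n => ab n m ((α ^ a) (FreeGroup.of i))) =
      (fun i : Fin n => ab n m ((α ^ b) (FreeGroup.of i))) →
      ∃ k, 1 ≤ k ∧ ∀ x, ab n m ((α ^ k) x * x⁻¹) = 1 := by
    intro a b hlt he
    refine ⟨b - a, by omega, fun x => ?_⟩
    have h1 : (ab n m).comp (α ^ a).toMonoidHom = (ab n m).comp (α ^ b).toMonoidHom :=
      FreeGroup.ext_hom _ _ fun i => congrFun he i
    have h2 : ∀ x, ab n m ((α ^ a) x) = ab n m ((α ^ b) x) := fun x => DFunLike.congr_fun h1 x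
    have h3 : ∀ x, (α ^ b) x = (α ^ a) ((α ^ (b - a)) x) := by
      intro x
      rw [← MulAut.mul_apply, ← pow_add]
      congr 2
      omega
    have h4 : ab n m ((α ^ a) ((α ^ (b - a)) x * x⁻¹)) = 1 := by
      rw [map_mul, map_inv, map_mul, map_inv, ← h3, h2, mul_inv_cancel]
    have h5 := ab_aut n m (α ^ a)⁻¹ _ h4
    rwa [MulAut.inv_apply_self] at h5
  rcases lt_or_gt_of_ne hab with h | h
  · exact key a b h heq
  · exact key b a h heq.symm

theorem orbit_low (n m r : ℕ) (hm : 0 < m) (hr : r ≤ n) (σ : MulAut (FreeGroup (Fin n)))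
    (v : Fin n → ZMod m) :
    m ^ r ≤ Nat.card {y : Fin n → ZMod m // ∃ z ∈ (low n r).map σ.toMonoidHom,
      pi (pm n m) z v = y} := by
  have hne : NeZero m := ⟨hm.ne'⟩
  have hmem : ∀ u : Fin r → ZMod m,
      (List.ofFn (fun i => FreeGroup.of (Fin.castLE hr i) ^ (u i).val)).prod ∈ low n r := by
    intro u
    refine Subgroup.list_prod_mem _ fun x hx => ?_
    rw [List.mem_ofFn'] at hx
    obtain ⟨i, rfl⟩ := hx
    have h1 : FreeGroup.of (Fin.castLE hr i) ∈ low n r :=
      Subgroup.subset_closure ⟨Fin.castLE hr i, i.isLt, rfl⟩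
    exact Subgroup.pow_mem _ h1 _
  have hab : ∀ (u : Fin r → ZMod m) (i : Fin r), Multiplicative.toAdd (ab n m
      (List.ofFn (fun i => FreeGroup.of (Fin.castLE hr i) ^ (u i).val)).prod)
        (Fin.castLE hr i) = u i := by
    intro u i
    rw [ab_prod, Finset.sum_apply, Finset.sum_eq_single i]
    · rw [Pi.smul_apply, Pi.single_eq_same, nsmul_eq_mul, mul_one, ZMod.natCast_zmod_val]
    · intro j _ hj
      rw [Pi.smul_apply, Pi.single_eq_of_ne, smul_zero]
      intro h
      exact hj (Fin.castLE_injective hr h).symm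
    · intro h
      exact absurd (Finset.mem_univ i) h
  have hcard : m ^ r = Nat.card (Fin r → ZMod m) := by
    rw [Nat.card_eq_fintype_card, Fintype.card_fun, ZMod.card, Fintype.card_fin]
  rw [hcard]
  have hfin : Finite {y : Fin n → ZMod m // ∃ z ∈ (low n r).map σ.toMonoidHom,
      pi (pm n m) z v = y} := Subtype.finite
  refine Nat.card_le_card_of_injective (fun u : Fin r → ZMod m =>
    (⟨pi (pm n m) (σ (List.ofFn (fun i =>
      FreeGroup.of (Fin.castLE hr i) ^ (u i).val)).prod) v, _,
      Subgroup.mem_map_of_mem σ.toMonoidHom (hmem u), rfl⟩ :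
      {y : Fin n → ZMod m // ∃ z ∈ (low n r).map σ.toMonoidHom, pi (pm n m) z v = y})) ?_
  intro u u' huu
  have h1 := congrArg Subtype.val huu
  simp only [pi_pm, add_right_inj] at h1
  have h2 : ab n m (σ ((List.ofFn (fun i => FreeGroup.of (Fin.castLE hr i) ^ (u i).val)).prod *
      ((List.ofFn (fun i => FreeGroup.of (Fin.castLE hr i) ^ (u' i).val)).prod)⁻¹)) = 1 := by
    have h3 := Multiplicative.toAdd.injective h1
    rw [map_mul, map_inv, map_mul, map_inv, h3, mul_inv_cancel]
  have h4 := ab_aut n m σ⁻¹ _ h2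
  rw [MulAut.inv_apply_self, map_mul, map_inv, mul_inv_eq_one] at h4
  funext i
  rw [← hab u i, ← hab u' i, h4]

theorem low_map_eq (n r : ℕ) (hr : r ≤ n) (σ : MulAut (FreeGroup (Fin n))) :
    (low n r).map σ.toMonoidHom =
      Subgroup.closure (Set.range (fun i : Fin r => σ (FreeGroup.of (Fin.castLE hr i)))) := by
  rw [low, MonoidHom.map_closure]
  congr 1
  ext x
  constructor
  · rintro ⟨y, ⟨j, hj, rfl⟩, rfl⟩
    exact ⟨⟨j.val, hj⟩, rfl⟩
  · rintro ⟨i, rfl⟩
    exact ⟨FreeGroup.of (Fin.castLE hr i), ⟨Fin.castLE hr i, i.isLt, rfl⟩, rfl⟩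

end Pool.Agent.BP
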