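import Pool.Agent.Lib.Occ.General
import Pool.Agent.Lib.Pfc0641.Hopf

/-!
MODULE BP.Acting (0.7 h). Two facts on free groups.

* `exists_not_comm`: `τ ≠ 1` does not commute with some generator: if it commuted with `of 0` and `of 1` (`n ≥ 2`)... for instance: with `free_pair`-like facts of `Pool.Agent.Lib.Occ.General`, or directly: an element commuting with `of i` is a power of `of i`
  (reduced words), a common power of `of 0` and `of 1` is trivial. (Or: the centre of a free group of rank at least two is trivial, is it in Mathlib?)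
* `conj_pow_not_comm`: if `τ`, `t` do not commute then `τ^k` and `t τ^k t⁻¹` do not commute, `k ≥ 1`. By `Pool.Agent.Occ.free_pair` (two noncommuting elements freely generate a free group of rank two: see the exact statement there; if it gives less, use Nielsen-Schreier and
  the Hopf property, `Pool.Agent.Pfc0641.hopfian`, or `lift_pow_injective`) it is enough to compute in `FreeGroup (Fin 2)` with `τ = of 0`, `t = of 1`: map it to matrices, `of 0 ↦ !![1, 1; 0, 1]`, `of 1 ↦ !![0, 1; -1, 0]` in `SL(2, ℤ)`:
  `[[1, k], [0, 1]]` and `[[1, 0], [-k, 1]]` do not commute. Alternative without free pairs: if `x = τ^k` commutes with `y = t τ^k t⁻¹`, then (roots in free groups) `τ` commutes with `t τ t⁻¹`, ...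
-/

set_option autoImplicit false

namespace Pool.Agent.BP

namespace ActingAux

/-- two noncommuting elements freely generate -/
theorem pair_free {n : ℕ} (τ t : FreeGroup (Fin n)) (h : τ * t ≠ t * τ) :
    Function.Injective (FreeGroup.lift ![τ, t] : FreeGroup (Fin 2) →* FreeGroup (Fin n)) := by
  set f : FreeGroup (Fin 2) →* FreeGroup (Fin n) := FreeGroup.lift ![τ, t] with hf
  obtain ⟨r, ⟨e⟩⟩ := Pool.Agent.Pfc0641.range_free f
  set g : FreeGroup (Fin 2) →* FreeGroup (Fin r) := e.symm.toMonoidHom.comp f.rangeRestrict with hg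
  have hgs : Function.Surjective g := by
    rw [hg, MonoidHom.coe_comp]
    exact e.symm.surjective.comp f.rangeRestrict_surjective
  have hr2 : r ≤ 2 := Pool.Agent.Pfc0641.rank_le_of_surj g hgs
  have hr : r = 2 := by
    by_contra hne
    have hr1 : r ≤ 1 := by omega
    have hsub : Subsingleton (Fin r) := by
      rw [Fin.subsingleton_iff_le_one]
      exact hr1
    have h1 : g (FreeGroup.of 0) * g (FreeGroup.of 1) = g (FreeGroup.of 1) * g (FreeGroup.of 0) :=
      (Pool.Agent.Occ.GeneralAux.comm_of_subsingleton _ _).eq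
    rw [← map_mul, ← map_mul] at h1
    have h2 : f.rangeRestrict (FreeGroup.of 0 * FreeGroup.of 1) =
        f.rangeRestrict (FreeGroup.of 1 * FreeGroup.of 0) := e.symm.injective h1
    have h3 : f (FreeGroup.of 0 * FreeGroup.of 1) = f (FreeGroup.of 1 * FreeGroup.of 0) :=
      congrArg Subtype.val h2
    have e0 : f (FreeGroup.of 0) = τ := by rw [hf]; simp
    have e1 : f (FreeGroup.of 1) = t := by rw [hf]; simp
    rw [map_mul, map_mul, e0, e1] at h3
    exact h h3
  subst hr
  have hgi := Pool.Agent.Pfc0641.hopfian g hgs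
  intro x y hxy
  apply hgi
  rw [hg, MonoidHom.comp_apply, MonoidHom.comp_apply]
  congr 1
  exact Subtype.ext hxy

end ActingAux

open ActingAux

theorem exists_not_comm (n : ℕ) (hn : 2 ≤ n) (τ : FreeGroup (Fin n)) (hτ : τ ≠ 1) :
    ∃ t : FreeGroup (Fin n), τ * t ≠ t * τ := by
  have hw : τ.toWord ≠ [] := by
    rw [Ne, FreeGroup.toWord_eq_nil_iff]
    exact hτ
  obtain ⟨s1, hs1⟩ : ∃ s1, τ.toWord.head? = some s1 := by
    cases hL : τ.toWord with
    | nil => exact absurd hL hw
    | cons a L => exact ⟨a, rfl⟩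
  obtain ⟨sm, hsm⟩ : ∃ sm, τ.toWord.getLast? = some sm :=
    ⟨_, List.getLast?_eq_some_getLast hw⟩
  obtain ⟨i, hi⟩ : ∃ i : Fin n, i ≠ s1.1 := by
    have : Nontrivial (Fin n) := Fin.nontrivial_iff_two_le.2 hn
    exact exists_ne _
  obtain ⟨b, hb⟩ : ∃ b : Bool, (i, b) ≠ sm := by
    by_cases h : (i, true) = sm
    · exact ⟨false, by rw [← h]; simp⟩
    · exact ⟨true, h⟩
  refine ⟨FreeGroup.mk [(i, b)], fun hcomm => ?_⟩
  have hred : FreeGroup.IsReduced ([(i, b)] ++ (τ.toWord ++ [(i, !b)])) := by
    unfold FreeGroup.IsReduced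
    rw [List.isChain_append]
    refine ⟨List.isChain_singleton _, ?_, ?_⟩
    · rw [List.isChain_append]
      refine ⟨FreeGroup.isReduced_toWord, List.isChain_singleton _, ?_⟩
      intro x hx y hy
      rw [hsm] at hx
      simp only [List.head?_cons, Option.mem_def, Option.some.injEq] at hx hy
      subst hx hy
      intro h1
      by_contra h2
      apply hb
      have h3 : sm.2 = b := by
        cases hs : sm.2 <;> cases hbb : b <;> simp_all
      exact Prod.ext h1.symm h3.symm
    · intro x hx y hy
      simp only [List.getLast?_singleton, Option.mem_def, Option.some.injEq] at hx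
      have hy' : y = s1 := by
        cases hL : τ.toWord with
        | nil => exact absurd hL hw
        | cons a L =>
          rw [hL] at hs1 hy
          simp only [List.cons_append, List.head?_cons, Option.mem_def, Option.some.injEq] at hs1 hy
          rw [← hy, hs1]
      subst hx hy'
      intro h1
      exact absurd h1 hi
  have h1 : FreeGroup.mk [(i, b)] * τ * (FreeGroup.mk [(i, b)])⁻¹ = τ := by
    rw [← hcomm]
    group
  have h2 : FreeGroup.mk [(i, b)] * τ * (FreeGroup.mk [(i, b)])⁻¹ =
      FreeGroup.mk ([(i, b)] ++ (τ.toWord ++ [(i, !b)])) := by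
    conv_lhs => rw [← FreeGroup.mk_toWord (x := τ)]
    rw [FreeGroup.inv_mk, FreeGroup.mul_mk, FreeGroup.mul_mk]
    rfl
  have h3 : τ.toWord = [(i, b)] ++ (τ.toWord ++ [(i, !b)]) := by
    have h4 := congrArg FreeGroup.toWord (h1.symm.trans h2)
    rw [FreeGroup.toWord_mk, hred.reduce_eq] at h4
    exact h4
  have h5 := congrArg List.length h3
  simp only [List.length_append, List.length_cons, List.length_nil] at h5
  omega

theorem conj_pow_not_comm (n : ℕ) (τ t : FreeGroup (Fin n)) (h : τ * t ≠ t * τ) (k : ℕ)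
    (hk : 1 ≤ k) : τ ^ k * (t * τ ^ k * t⁻¹) ≠ t * τ ^ k * t⁻¹ * τ ^ k := by
  intro heq
  have hinj := pair_free τ t h
  have h1 : (FreeGroup.of 0 : FreeGroup (Fin 2)) ^ k *
      (FreeGroup.of 1 * FreeGroup.of 0 ^ k * (FreeGroup.of 1)⁻¹) =
      FreeGroup.of 1 * FreeGroup.of 0 ^ k * (FreeGroup.of 1)⁻¹ * FreeGroup.of 0 ^ k := by
    apply hinj
    simp only [map_mul, map_pow, map_inv, FreeGroup.lift_apply_of]
    exact heq
  have h2 := congrArg (fun w => FreeGroup.lift ![ModularGroup.T, ModularGroup.S] w) h1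
  simp only [map_mul, map_pow, map_inv, FreeGroup.lift_apply_of] at h2
  have h3 : ModularGroup.T ^ k * (ModularGroup.S * ModularGroup.T ^ k * ModularGroup.S⁻¹) =
      ModularGroup.S * ModularGroup.T ^ k * ModularGroup.S⁻¹ * ModularGroup.T ^ k := h2
  have hT : (ModularGroup.T ^ k).1 = !![1, (k : ℤ); 0, 1] := by
    have := ModularGroup.coe_T_zpow (k : ℤ)
    rwa [zpow_natCast] at this
  have h4 := congrArg (fun g : Matrix.SpecialLinearGroup (Fin 2) ℤ => g.1 0 0) h3
  simp only [Matrix.SpecialLinearGroup.coe_mul, hT, ModularGroup.S_inv,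
    Matrix.SpecialLinearGroup.coe_neg, ModularGroup.coe_S] at h4
  simp [Matrix.mul_apply, Fin.sum_univ_succ] at h4
  omega

end Pool.Agent.BP
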