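import Pool.Agent.Lib.BP.Full
import Pool.Agent.Lib.BP.AbMod

/-!
MODULE BP.BaseFull (0.5 h). `bp` with `q = 2`, `V = Fin n → ZMod 3`, `p = pm n 3`, `r j = r`, `b j i = σ j (of i)` for `i < r` (`low_map_eq`); the orbits have at least `3 ^ r ≥ 3` elements (`orbit_low`),
cost `2 r + 2 ≤ n + 2`. For `z ∈ low n r` with `ab n 3 z = 1` the element `σ j z` acts trivially (`ab_aut`, `pi_pm`).
-/

set_option autoImplicit false

namespace Pool.Agent.BP

theorem baseFull (n r : ℕ) (hr : 1 ≤ r) (hn : 2 * r ≤ n)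
    (σ : Fin 2 → MulAut (FreeGroup (Fin n))) :
    ∃ R : Subgroup (FreeGroup (Fin n)), R.Normal ∧ Large R ∧
      ∀ j, ∀ z ∈ low n r, ab n 3 z = 1 → σ j z ∈ R := by
  have hrn : r ≤ n := by omega
  have hfin : Finite (Fin n → ZMod 3) := by
    have : Finite (ZMod 3) := inferInstanceAs (Finite (Fin 3))
    infer_instance
  obtain ⟨R, hRn, hRL, hR⟩ := bp (n := n) (q := 2) (V := Fin n → ZMod 3) (pm n 3) (pm_trans n 3)
    (fun _ => r) (fun j i => σ j (FreeGroup.of (Fin.castLE hrn i))) (fun j x => by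
      have h := orbit_low n 3 r (by norm_num) hrn (σ j) x
      rw [low_map_eq n r hrn (σ j)] at h
      refine le_trans ?_ h
      calc 2 + 1 = 3 ^ 1 := by norm_num
        _ ≤ 3 ^ r := Nat.pow_le_pow_right (by norm_num) hr) (by
      simp only [Finset.sum_const, Finset.card_univ, Fintype.card_fin, smul_eq_mul]
      omega)
  refine ⟨R, hRn, hRL, fun j z hz h1 => hR j (σ j z) ?_ fun v => ?_⟩
  · rw [← low_map_eq n r hrn (σ j)]
    exact ⟨z, hz, rfl⟩
  · rw [pi_pm, ab_aut n 3 (σ j) z h1, toAdd_one, add_zero]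

end Pool.Agent.BP
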