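import Pool.Agent.Lib.BP.Resid

/-!
MODULE BP.BaseGen. Finitely many blocks: arbitrary nontrivial finitely generated subgroups `B i` with `∑ (r i - 1) ≤ (n - 2) / 2`. A normal subgroup with a large quotient modulo which every automorphism preserving a block is virtually trivial on it, for two positions of the family at the same time.
-/

set_option autoImplicit false

namespace Pool.Agent.BP

theorem residN {n q : ℕ} (w : Fin q → FreeGroup (Fin n)) (hw : ∀ j, w j ≠ 1) (L : ℕ) :
    ∃ (V : Type) (_ : Finite V) (_ : Nonempty V) (p : Fin n → Equiv.Perm V),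
      (∀ x y, ∃ u, pi p u x = y) ∧
      ∀ j x, L ≤ Nat.card {y : V // ∃ z ∈ Subgroup.zpowers (w j), pi p z x = y} := by
  classical
  have h0 : ∀ a : Fin q × Fin L, ∃ (k : ℕ) (ψ : FreeGroup (Fin n) →* Equiv.Perm (Fin (k + 1))),
      ψ (w a.1 ^ (a.2.val + 1)) ≠ 1 := by
    intro a
    refine Pool.Agent.Pfc0641.hopf_rf _ fun h => hw a.1 ?_
    exact (pow_eq_one_iff_left (Nat.succ_ne_zero _)).1 h
  choose k ψ hψ using h0
  let f : FreeGroup (Fin n) →* ((a : Fin q × Fin L) → Equiv.Perm (Fin (k a + 1))) :=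
    MonoidHom.pi ψ
  have hf : ∀ j t, 1 ≤ t → t < L → f (w j ^ t) ≠ 1 := by
    intro j t h1 h2 h3
    have h4 := congrFun h3 (j, ⟨t - 1, by omega⟩)
    have h5 := hψ (j, ⟨t - 1, by omega⟩)
    apply h5
    have h6 : (t - 1) + 1 = t := by omega
    change ψ _ (w j ^ ((t - 1) + 1)) = 1
    rw [h6]
    exact h4
  have hfr : Finite f.range := Subtype.finite
  let p : Fin n → Equiv.Perm f.range := fun i => Equiv.mulLeft (f.rangeRestrict (FreeGroup.of i))
  have hp : ∀ u x, pi p u x = f.rangeRestrict u * x := by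
    intro u
    induction u using FreeGroup.induction_on with
    | C1 => intro x; rw [pi_one, map_one, one_mul]
    | of i => intro x; rw [pi_of]; rfl
    | inv_of i ih =>
      intro x
      have h := ih (pi p (FreeGroup.of i)⁻¹ x)
      rw [pi_pi_inv] at h
      rw [map_inv f.rangeRestrict, eq_inv_mul_iff_mul_eq]
      exact h.symm
    | mul u v hu hv => intro x; rw [pi_mul, hv, hu, map_mul, mul_assoc]
  refine ⟨f.range, hfr, ⟨1⟩, p, ?_, ?_⟩
  · intro x y
    obtain ⟨u, hu⟩ := f.rangeRestrict_surjective (y * x⁻¹)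
    exact ⟨u, by rw [hp, hu, inv_mul_cancel_right]⟩
  · intro j x
    have hfin : Finite {y : f.range // ∃ z ∈ Subgroup.zpowers (w j), pi p z x = y} :=
      Subtype.finite
    have h1 : L = Nat.card (Fin L) := by simp
    conv_lhs => rw [h1]
    refine Nat.card_le_card_of_injective (fun t : Fin L =>
      (⟨pi p (w j ^ t.val) x, w j ^ t.val, Subgroup.npow_mem_zpowers (w j) t.val, rfl⟩ :
        {y : f.range // ∃ z ∈ Subgroup.zpowers (w j), pi p z x = y})) ?_
    have key : ∀ s t : Fin L, s.val < t.val → pi p (w j ^ s.val) x ≠ pi p (w j ^ t.val) x := by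
      intro s t hst h
      rw [hp, hp, mul_left_inj] at h
      have h2 := congrArg Subtype.val h
      have h3 : f (w j ^ s.val) = f (w j ^ t.val) := h2
      have h4 : f (w j ^ (t.val - s.val)) = 1 := by
        have h5 : w j ^ t.val = w j ^ (t.val - s.val) * w j ^ s.val := by
          rw [← pow_add]
          congr 1
          omega
        rw [h5, map_mul] at h3
        exact (mul_eq_right.1 h3.symm)
      exact hf j (t.val - s.val) (by omega) (by omega) h4
    intro s t hst
    have h := congrArg Subtype.val hst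
    rcases lt_trichotomy s.val t.val with h1 | h1 | h1
    · exact absurd h (key s t h1)
    · exact Fin.ext h1
    · exact absurd h.symm (key t s h1)


theorem baseGen (n s : ℕ) (r : Fin s → ℕ) (b : (i : Fin s) → Fin (r i) → FreeGroup (Fin n))
    (hb : ∀ i, Subgroup.closure (Set.range (b i)) ≠ ⊥) (hcost : 2 * ∑ i, r i + 2 ≤ n + 2 * s)
    (σ : Fin 2 → MulAut (FreeGroup (Fin n))) :
    ∃ R : Subgroup (FreeGroup (Fin n)), R.Normal ∧ Large R ∧
      ∀ j i, ∀ α : MulAut (FreeGroup (Fin n)),
        (Subgroup.closure (Set.range (b i))).map α.toMonoidHom = Subgroup.closure (Set.range (b i)) →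
        ∃ k : ℕ, 1 ≤ k ∧ ∀ x ∈ Subgroup.closure (Set.range (b i)), σ j ((α ^ k) x * x⁻¹) ∈ R := by
  classical
  have hw0 : ∀ i, ∃ w ∈ Subgroup.closure (Set.range (b i)), w ≠ 1 := by
    intro i
    by_contra h
    push Not at h
    exact hb i ((Subgroup.eq_bot_iff_forall _).mpr h)
  choose w hwB hw1 using hw0
  let e : Fin 2 × Fin s ≃ Fin (2 * s) := finProdFinEquiv
  obtain ⟨V, hV, hV', p, htr, horb⟩ := residN (n := n) (q := 2 * s)
    (fun m => σ (e.symm m).1 (w (e.symm m).2))
    (fun m h => hw1 (e.symm m).2 ((map_eq_one_iff _ (σ (e.symm m).1).injective).mp h))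
    (2 * s + 1)
  have hcl : ∀ m : Fin (2 * s), Subgroup.closure (Set.range
      (fun l => σ (e.symm m).1 (b (e.symm m).2 l))) =
      (Subgroup.closure (Set.range (b (e.symm m).2))).map (σ (e.symm m).1).toMonoidHom := by
    intro m
    rw [MonoidHom.map_closure, ← Set.range_comp]
    rfl
  have hmem : ∀ m : Fin (2 * s), σ (e.symm m).1 (w (e.symm m).2) ∈ Subgroup.closure (Set.range
      (fun l => σ (e.symm m).1 (b (e.symm m).2 l))) := by
    intro m
    rw [hcl]
    exact Subgroup.mem_map_of_mem _ (hwB _)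
  have hsum : ∑ m : Fin (2 * s), r (e.symm m).2 = 2 * ∑ i, r i := by
    rw [Equiv.sum_comp e.symm (fun a : Fin 2 × Fin s => r a.2), Fintype.sum_prod_type]
    simp
  obtain ⟨R, hRN, hRL, hR⟩ := bp (q := 2 * s) p htr (fun m => r (e.symm m).2)
    (fun m l => σ (e.symm m).1 (b (e.symm m).2 l))
    (fun m x => by
      refine (horb m x).trans ?_
      refine Nat.card_le_card_of_injective (fun y => ⟨y.1, by
        obtain ⟨z, hz, hy⟩ := y.2
        refine ⟨z, ?_, hy⟩
        exact (Subgroup.zpowers_le.mpr (hmem m)) hz⟩) ?_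
      intro y y' h
      exact Subtype.ext (Subtype.mk.inj h))
    (by rw [hsum]; omega)
  refine ⟨R, hRN, hRL, ?_⟩
  intro j i α hα
  set B := Subgroup.closure (Set.range (b i)) with hB
  have hin : ∀ (m : ℕ) (x : FreeGroup (Fin n)), x ∈ B → (α ^ m) x ∈ B := by
    intro m
    induction m with
    | zero => intro x hx; exact hx
    | succ m ih =>
        intro x hx
        rw [pow_succ']
        show α ((α ^ m) x) ∈ B
        rw [← hα]
        exact Subgroup.mem_map_of_mem _ (ih x hx)
  have hon : ∀ (m : ℕ) (y : FreeGroup (Fin n)), y ∈ B → ∃ x ∈ B, (α ^ m) x = y := by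
    intro m
    induction m with
    | zero => intro y hy; exact ⟨y, hy, rfl⟩
    | succ m ih =>
        intro y hy
        rw [← hα] at hy
        obtain ⟨y', hy', e'⟩ := hy
        obtain ⟨x, hx, e2⟩ := ih y' hy'
        refine ⟨x, hx, ?_⟩
        rw [pow_succ']
        show α ((α ^ m) x) = y
        rw [e2]; exact e'
  -- pigeonhole
  have hfin : Finite (Fin (r i) → Equiv.Perm V) := inferInstance
  obtain ⟨m, m', hmm, hf⟩ := Finite.exists_ne_map_eq_of_infinite
    (fun m : ℕ => fun l : Fin (r i) => pi p (σ j ((α ^ m) (b i l))))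
  obtain ⟨m, m', hlt, hf⟩ : ∃ m m' : ℕ, m < m' ∧
      (fun l : Fin (r i) => pi p (σ j ((α ^ m) (b i l)))) =
      (fun l : Fin (r i) => pi p (σ j ((α ^ m') (b i l)))) := by
    rcases lt_or_gt_of_ne hmm with h | h
    · exact ⟨m, m', h, hf⟩
    · exact ⟨m', m, h, hf.symm⟩
  have hag : ∀ x ∈ B, pi p (σ j ((α ^ m) x)) = pi p (σ j ((α ^ m') x)) := by
    intro x hx
    have h1 : B ≤ (((pi p).comp (σ j).toMonoidHom).comp (α ^ m).toMonoidHom).eqLocus
        (((pi p).comp (σ j).toMonoidHom).comp (α ^ m').toMonoidHom) := by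
      rw [hB, Subgroup.closure_le]
      rintro _ ⟨l, rfl⟩
      exact congrFun hf l
    exact h1 hx
  refine ⟨m' - m, by omega, fun y hy => ?_⟩
  obtain ⟨x, hx, rfl⟩ := hon m y hy
  have hpow : (α ^ (m' - m)) ((α ^ m) x) = (α ^ m') x := by
    rw [← MulAut.mul_apply, ← pow_add]
    congr 2
    omega
  have key : ∀ (m : Fin (2 * s)) (a : Fin 2 × Fin s), e.symm m = a →
      ∀ z ∈ (Subgroup.closure (Set.range (b a.2))).map (σ a.1).toMonoidHom,
        (∀ v, pi p z v = v) → z ∈ R := by
    rintro m _ rfl z hz hv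
    exact hR m z (by rw [hcl]; exact hz) hv
  refine key (e (j, i)) (j, i) (e.symm_apply_apply _) _ ?_ ?_
  · exact Subgroup.mem_map_of_mem _ (B.mul_mem (hin _ _ (hin _ _ hx)) (B.inv_mem (hin _ _ hx)))
  · intro v
    have h2 := hag x hx
    rw [map_mul, map_mul, hpow, map_inv, map_inv, ← h2, mul_inv_cancel]
    rfl

end Pool.Agent.BP
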