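import Pool.Agent.Lib.BP.LinB

/-!
MODULE BP.LinProm (1.6 h). As `LinFull`, with two subgroups: `⟨a₀, a₁⟩`, which acts on `X` as a free action of `(ℤ/2)²`, and `⟨b 0, b 1⟩`, with all orbits of size at least 4.
Only two linear conditions per orbit (so `|X|/4` conditions each) are needed for the first one:
for `A x = sig ψ (a₀ a₀) x` one has `A (a₀ x) = A x` (because `a₀ a₀ x = x`) and `sig ψ (a₁ a₀ a₀ a₁⁻¹ a₀ a₀) x = A (a₁ x) + A x` (because `a₁⁻¹ x = a₁ x` and `a₀ a₀` fixes every point; the terms of `a₁`, `a₁⁻¹` cancel);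
this function of `x` is invariant under `a₀` (`a₀ a₁ x = a₁ a₀ x` since `(a₀ a₁)² = a₀² = a₁² = 1` on `X`) and under `a₁`. Same with the roles exchanged for the second condition.
So `T : E → inv p ⟨a₀,a₁⟩ × inv p ⟨a₀,a₁⟩ × (Fin 2 → X → ℚ)` with `E = (Fin n → S → ℚ) × (S → ℚ)` of dimension `(n + 1) |S|`; every orbit of `closure {a₀, a₁}` has at least 4 elements `x, a₀ x, a₁ x, a₀ a₁ x` (distinct),
so the rank of `T` is at most `2 * |X|/4 + 2 |X|` (`finrank_inv`, `m = 4`); excluded: `finrank (excl p c) ≤ |X|`; the kernel of `T` and `pr` embeds in `inv p (closure (range b))`, dimension at most `|X|/4`. Total `15 |X| / 4`.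
To avoid divisions use `exists_outside` with `t = 2 * f + 2 * |X|`, `k = f'`, where `f, f'` are the two dimensions of invariants, `4 f ≤ |X|`, `4 f' ≤ |X|`. Then `clear_denoms`.
-/

set_option autoImplicit false

namespace Pool.Agent.BP

namespace LinPromAux

variable {n : ℕ} {X : Type*}

lemma inv_of_gens (p : Fin n → Equiv.Perm X) (s : Set (FreeGroup (Fin n))) (F : X → ℚ)
    (h : ∀ z ∈ s, ∀ x, F (pi p z x) = F x) : F ∈ inv p (Subgroup.closure s) := by
  show ∀ z ∈ Subgroup.closure s, ∀ x, F (pi p z x) = F x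
  intro z hz
  induction hz using Subgroup.closure_induction with
  | mem z hz => exact h z hz
  | one => intro x; rw [pi_one]
  | mul u w _ _ hu hw => intro x; rw [pi_mul, hu, hw]
  | inv u _ hu =>
      intro x
      have h1 := hu (pi p u⁻¹ x)
      rw [pi_pi_inv] at h1
      exact h1.symm

lemma cond_eq (p : Fin n → Equiv.Perm X) (ψ : Fin n → X → ℚ) (a₀ a₁ : FreeGroup (Fin n))
    (h0 : ∀ x, pi p (a₀ * a₀) x = x) (h1 : ∀ x, pi p (a₁ * a₁) x = x) (x : X) :
    sig p ψ (a₁ * a₀ * a₀ * a₁⁻¹ * a₀ * a₀) x =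
      sig p ψ (a₀ * a₀) (pi p a₁ x) + sig p ψ (a₀ * a₀) x := by
  have e0 : ∀ y, pi p a₀ (pi p a₀ y) = y := fun y => by rw [← pi_mul]; exact h0 y
  have e1 : ∀ y, pi p a₁⁻¹ y = pi p a₁ y := fun y => by
    have h2 := h1 (pi p a₁⁻¹ y)
    rw [pi_mul, pi_pi_inv] at h2
    exact h2.symm
  simp only [sig_mul, e0, e1, sig_inv, pi_mul]
  ring

lemma cond_inv (p : Fin n → Equiv.Perm X) (ψ : Fin n → X → ℚ) (a₀ a₁ : FreeGroup (Fin n))
    (h0 : ∀ x, pi p (a₀ * a₀) x = x) (h1 : ∀ x, pi p (a₁ * a₁) x = x)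
    (h01 : ∀ x, pi p (a₀ * a₁ * (a₀ * a₁)) x = x) :
    (fun x => sig p ψ (a₁ * a₀ * a₀ * a₁⁻¹ * a₀ * a₀) x) ∈ inv p (Subgroup.closure {a₀, a₁}) := by
  have e0 : ∀ y, pi p a₀ (pi p a₀ y) = y := fun y => by rw [← pi_mul]; exact h0 y
  have e1 : ∀ y, pi p a₁ (pi p a₁ y) = y := fun y => by rw [← pi_mul]; exact h1 y
  have e2 : ∀ y, pi p a₁ (pi p a₀ y) = pi p a₀ (pi p a₁ y) := fun y => by
    have h2 := h01 (pi p a₁ (pi p a₀ y))
    rw [pi_mul, pi_mul, pi_mul, e1, e0] at h2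
    exact h2.symm
  have e3 : ∀ y, sig p ψ (a₀ * a₀) (pi p a₀ y) = sig p ψ (a₀ * a₀) y := fun y => by
    rw [sig_mul, sig_mul, e0]
    ring
  refine inv_of_gens p _ _ ?_
  intro z hz x
  simp only [cond_eq p ψ a₀ a₁ h0 h1]
  rcases hz with hz | hz
  · rw [hz, e2, e3, e3]
  · rw [Set.mem_singleton_iff.1 hz, e1]
    ring

lemma orb4 [Finite X] (p : Fin n → Equiv.Perm X) (a₀ a₁ : FreeGroup (Fin n))
    (h0 : ∀ x, pi p (a₀ * a₀) x = x) (f0 : ∀ x, pi p a₀ x ≠ x)
    (f1 : ∀ x, pi p a₁ x ≠ x) (f01 : ∀ x, pi p (a₀ * a₁) x ≠ x) (x : X) :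
    4 ≤ Nat.card {y : X // ∃ z ∈ Subgroup.closure {a₀, a₁}, pi p z x = y} := by
  have m0 : a₀ ∈ Subgroup.closure ({a₀, a₁} : Set (FreeGroup (Fin n))) :=
    Subgroup.subset_closure (by simp)
  have m1 : a₁ ∈ Subgroup.closure ({a₀, a₁} : Set (FreeGroup (Fin n))) :=
    Subgroup.subset_closure (by simp)
  let g : Fin 4 → {y : X // ∃ z ∈ Subgroup.closure {a₀, a₁}, pi p z x = y} :=
    ![⟨x, 1, one_mem _, by simp⟩, ⟨pi p a₀ x, a₀, m0, rfl⟩, ⟨pi p a₁ x, a₁, m1, rfl⟩,
      ⟨pi p (a₀ * a₁) x, a₀ * a₁, mul_mem m0 m1, rfl⟩]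
  have q1 := f0 x
  have q2 := f1 x
  have q3 := f01 x
  rw [pi_mul] at q3
  have q4 : pi p a₀ x ≠ pi p a₁ x := by
    intro h
    have h2 := h0 x
    rw [pi_mul, h] at h2
    exact q3 h2
  have q5 : pi p a₀ x ≠ pi p a₀ (pi p a₁ x) := by
    intro h
    exact q2 ((pi p a₀).injective h).symm
  have q6 : pi p a₁ x ≠ pi p a₀ (pi p a₁ x) := by
    intro h
    exact f0 _ h.symm
  have hg : Function.Injective g := by
    intro i j hij
    have h2 := congrArg Subtype.val hij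
    fin_cases i <;> fin_cases j <;> first
      | rfl
      | (exfalso; simp [g] at h2; first
          | exact q1 h2 | exact q1 h2.symm | exact q2 h2 | exact q2 h2.symm
          | exact q3 h2 | exact q3 h2.symm | exact q4 h2 | exact q4 h2.symm
          | exact q5 h2 | exact q5 h2.symm | exact q6 h2 | exact q6 h2.symm)
  have h3 := Nat.card_le_card_of_injective g hg
  rwa [Nat.card_eq_fintype_card, Fintype.card_fin] at h3

open Classical in
/-- extension by zero -/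
noncomputable def ex (S : Finset X) : (S → ℚ) →ₗ[ℚ] (X → ℚ) where
  toFun f x := if h : x ∈ S then f ⟨x, h⟩ else 0
  map_add' f g := by
    funext x
    by_cases h : x ∈ S <;> simp [h]
  map_smul' a f := by
    funext x
    by_cases h : x ∈ S <;> simp [h]

lemma ex_out (S : Finset X) (f : S → ℚ) {x : X} (hx : x ∉ S) : ex S f x = 0 := by
  simp [ex, hx]

lemma ex_inj (S : Finset X) (f : S → ℚ) (h : ex S f = 0) : f = 0 := by
  funext x
  have h1 := congrFun h x.1
  simp only [ex, LinearMap.coe_mk, AddHom.coe_mk, x.2, dif_pos] at h1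
  exact h1

/-- the cochain -/
noncomputable def ps (n : ℕ) (S : Finset X) : ((Fin n → S → ℚ) × (S → ℚ)) →ₗ[ℚ] (Fin n → X → ℚ) where
  toFun e i := ex S (e.1 i)
  map_add' e e' := by
    funext i
    show ex S (e.1 i + e'.1 i) = _
    rw [map_add]
    rfl
  map_smul' a e := by
    funext i
    show ex S (a • e.1 i) = _
    rw [map_smul]
    rfl

/-- the primitive -/
noncomputable def hs (n : ℕ) (S : Finset X) : ((Fin n → S → ℚ) × (S → ℚ)) →ₗ[ℚ] (X → ℚ) where
  toFun e := ex S e.2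
  map_add' e e' := by
    show ex S (e.2 + e'.2) = _
    rw [map_add]
  map_smul' a e := by
    show ex S (a • e.2) = _
    rw [map_smul]
    rfl

/-- the conditions -/
noncomputable def TT (p : Fin n → Equiv.Perm X) (S : Finset X) (w0 w1 : FreeGroup (Fin n))
    (b : Fin 2 → FreeGroup (Fin n)) :
    ((Fin n → S → ℚ) × (S → ℚ)) →ₗ[ℚ] ((X → ℚ) × (X → ℚ)) × (Fin 2 → X → ℚ) where
  toFun e := ((fun x => sigLin p w0 x (ps n S e), fun x => sigLin p w1 x (ps n S e)),
    fun i x => sigLin p (b i) x (ps n S e) - (hs n S e (pi p (b i) x) - hs n S e x))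
  map_add' e e' := by
    simp only [map_add, Pi.add_apply]
    refine Prod.ext (Prod.ext ?_ ?_) ?_
    · rfl
    · rfl
    · funext i x
      simp only [Prod.snd_add, Pi.add_apply]
      ring
  map_smul' a e := by
    simp only [map_smul, Pi.smul_apply, smul_eq_mul]
    refine Prod.ext (Prod.ext ?_ ?_) ?_
    · rfl
    · rfl
    · funext i x
      simp only [RingHom.id_apply, Prod.smul_mk, Pi.smul_apply, smul_eq_mul]
      ring

end LinPromAux

open LinPromAux in
theorem exists_cochain2 {n : ℕ} {X : Type*} [Fintype X] [Nonempty X] (p : Fin n → Equiv.Perm X)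
    (a₀ a₁ : FreeGroup (Fin n)) (h0 : ∀ x, pi p (a₀ * a₀) x = x) (h1 : ∀ x, pi p (a₁ * a₁) x = x)
    (h01 : ∀ x, pi p (a₀ * a₁ * (a₀ * a₁)) x = x) (f0 : ∀ x, pi p a₀ x ≠ x)
    (f1 : ∀ x, pi p a₁ x ≠ x) (f01 : ∀ x, pi p (a₀ * a₁) x ≠ x) (b : Fin 2 → FreeGroup (Fin n))
    (horb : ∀ x, 4 ≤ Nat.card {y : X // ∃ z ∈ Subgroup.closure (Set.range b), pi p z x = y})
    (S : Finset X) (c : Fin n → X → ℤ) (hcount : 15 * Fintype.card X < 4 * ((n + 1) * S.card)) :
    ∃ (ψ : Fin n → X → ℤ) (H : X → ℤ), (∀ i, ∀ x ∉ S, ψ i x = 0) ∧ (∀ x ∉ S, H x = 0) ∧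
      (∀ x, sig p ψ (a₁ * a₀ * a₀ * a₁⁻¹ * a₀ * a₀) x = 0) ∧
      (∀ x, sig p ψ (a₀ * a₁ * a₁ * a₀⁻¹ * a₁ * a₁) x = 0) ∧
      (∀ i x, sig p ψ (b i) x = H (pi p (b i) x) - H x) ∧
      ¬ ∃ (h : X → ℚ) (a : ℚ), ∀ i x, (ψ i x : ℚ) = h (p i x) - h x + a * c i x := by
  classical
  set w0 : FreeGroup (Fin n) := a₁ * a₀ * a₀ * a₁⁻¹ * a₀ * a₀ with hw0
  set w1 : FreeGroup (Fin n) := a₀ * a₁ * a₁ * a₀⁻¹ * a₁ * a₁ with hw1
  have h10 : ∀ x, pi p (a₁ * a₀ * (a₁ * a₀)) x = x := by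
    intro x
    have h2 := h01 (pi p a₀ x)
    have h3 : pi p a₀ (pi p (a₁ * a₀ * (a₁ * a₀)) x) = pi p a₀ x := by
      simp only [pi_mul] at h2 ⊢
      exact h2
    exact (pi p a₀).injective h3
  have hpair : ({a₁, a₀} : Set (FreeGroup (Fin n))) = {a₀, a₁} := Set.pair_comm _ _
  set V := inv p (Subgroup.closure {a₀, a₁}) with hV
  have hV4 : 4 * Module.finrank ℚ V ≤ Fintype.card X :=
    finrank_inv p _ 4 (orb4 p a₀ a₁ h0 f0 f1 f01)
  set V' := inv p (Subgroup.closure (Set.range b)) with hV'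
  have hV4' : 4 * Module.finrank ℚ V' ≤ Fintype.card X := finrank_inv p _ 4 horb
  have hT : Module.finrank ℚ (LinearMap.range (TT p S w0 w1 b)) ≤
      2 * Module.finrank ℚ V + 2 * Fintype.card X := by
    let J : (V × V) × (Fin 2 → X → ℚ) →ₗ[ℚ] ((X → ℚ) × (X → ℚ)) × (Fin 2 → X → ℚ) :=
      (V.subtype.prodMap V.subtype).prodMap LinearMap.id
    have hle : LinearMap.range (TT p S w0 w1 b) ≤ LinearMap.range J := by
      rintro _ ⟨e, rfl⟩
      have m1 := cond_inv p (ps n S e) a₀ a₁ h0 h1 h01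
      have m2 := cond_inv p (ps n S e) a₁ a₀ h1 h0 h10
      rw [hpair] at m2
      exact ⟨((⟨_, m1⟩, ⟨_, m2⟩), (TT p S w0 w1 b e).2), rfl⟩
    have h2 := Submodule.finrank_mono hle
    refine h2.trans ((LinearMap.finrank_range_le J).trans (le_of_eq ?_))
    have e4 : Module.finrank ℚ (Fin 2 → X → ℚ) = 2 * Fintype.card X := by
      rw [Module.finrank_pi_fintype]
      simp
    rw [Module.finrank_prod, Module.finrank_prod, e4]
    ring
  have hk : Module.finrank ℚ (LinearMap.ker (TT p S w0 w1 b) ⊓ LinearMap.ker (ps n S) :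
      Submodule ℚ ((Fin n → S → ℚ) × (S → ℚ))) ≤ Module.finrank ℚ V' := by
    have hmem : ∀ e ∈ (LinearMap.ker (TT p S w0 w1 b) ⊓ LinearMap.ker (ps n S) :
        Submodule ℚ ((Fin n → S → ℚ) × (S → ℚ))), hs n S e ∈ V' := by
      rintro e ⟨he1, he2⟩
      rw [SetLike.mem_coe, LinearMap.mem_ker] at he1 he2
      refine inv_of_gens p _ _ ?_
      rintro _ ⟨i, rfl⟩ x
      have h2 := congrFun (congrFun (congrArg Prod.snd he1) i) x
      have h3 : sigLin p (b i) x (ps n S e) - (hs n S e (pi p (b i) x) - hs n S e x) = 0 := h2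
      rw [he2, map_zero] at h3
      linarith
    let φ : (LinearMap.ker (TT p S w0 w1 b) ⊓ LinearMap.ker (ps n S) :
        Submodule ℚ ((Fin n → S → ℚ) × (S → ℚ))) →ₗ[ℚ] V' :=
      LinearMap.codRestrict V' ((hs n S).comp (Submodule.subtype _)) (fun e => hmem e.1 e.2)
    refine LinearMap.finrank_le_finrank_of_injective (f := φ) ?_
    rw [← LinearMap.ker_eq_bot, LinearMap.ker_eq_bot']
    intro e he
    have h2 : hs n S e.1 = 0 := congrArg Subtype.val he
    have h3 : e.1.2 = 0 := ex_inj S _ h2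
    have h4 : ps n S e.1 = 0 := LinearMap.mem_ker.1 e.2.2
    have h5 : e.1.1 = 0 := by
      funext i
      exact ex_inj S _ (congrFun h4 i)
    exact Subtype.ext (Prod.ext h5 h3)
  have hE : Module.finrank ℚ ((Fin n → S → ℚ) × (S → ℚ)) = (n + 1) * S.card := by
    rw [Module.finrank_prod, Module.finrank_pi_fintype]
    simp
    ring
  obtain ⟨e, he, hout⟩ := exists_outside (TT p S w0 w1 b) (ps n S) (excl p (fun i x => (c i x : ℚ)))
    _ _ _ hT (finrank_excl p _) hk (by rw [hE]; omega)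
  obtain ⟨N, g, hN, hg⟩ := clear_denoms (I := (Fin n × X) ⊕ X)
    (Sum.elim (fun z => ps n S e z.1 z.2) (fun x => hs n S e x))
  have hN0 : (N : ℚ) ≠ 0 := by exact_mod_cast hN.ne'
  have hg1 : ∀ i x, (g (Sum.inl (i, x)) : ℚ) = N * ps n S e i x := fun i x => hg (Sum.inl (i, x))
  have hg2 : ∀ x, (g (Sum.inr x) : ℚ) = N * hs n S e x := fun x => hg (Sum.inr x)
  have hsig : ∀ w x, ((sig p (fun i x => g (Sum.inl (i, x))) w x : ℤ) : ℚ) =
      N * sig p (ps n S e) w x := by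
    intro w x
    have e1 := sig_map (Int.castAddHom ℚ) p (fun i x => g (Sum.inl (i, x))) w x
    have e2 := sig_map (AddMonoidHom.mulLeft (N : ℚ)) p (ps n S e) w x
    simp only [Int.coe_castAddHom, AddMonoidHom.coe_mulLeft] at e1 e2
    rw [← e1, ← e2]
    congr 1
    funext i x
    exact hg1 i x
  refine ⟨fun i x => g (Sum.inl (i, x)), fun x => g (Sum.inr x), ?_, ?_, ?_, ?_, ?_, ?_⟩
  · intro i x hx
    have h2 := hg1 i x
    have h3 : ps n S e i x = 0 := ex_out S _ hx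
    rw [h3, mul_zero] at h2
    exact_mod_cast h2
  · intro x hx
    have h2 := hg2 x
    have h3 : hs n S e x = 0 := ex_out S _ hx
    rw [h3, mul_zero] at h2
    exact_mod_cast h2
  · intro x
    have h2 := hsig w0 x
    have h3 : sig p (ps n S e) w0 x = 0 := congrFun (congrArg (fun z => z.1.1) he) x
    rw [h3, mul_zero] at h2
    exact_mod_cast h2
  · intro x
    have h2 := hsig w1 x
    have h3 : sig p (ps n S e) w1 x = 0 := congrFun (congrArg (fun z => z.1.2) he) x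
    rw [h3, mul_zero] at h2
    exact_mod_cast h2
  · intro i x
    have h2 := hsig (b i) x
    have h3 : sig p (ps n S e) (b i) x - (hs n S e (pi p (b i) x) - hs n S e x) = 0 :=
      congrFun (congrFun (congrArg Prod.snd he) i) x
    have h4 : ((sig p (fun i x => g (Sum.inl (i, x))) (b i) x : ℤ) : ℚ) =
        ((g (Sum.inr (pi p (b i) x)) - g (Sum.inr x) : ℤ) : ℚ) := by
      push_cast
      rw [h2, hg2, hg2]
      have h5 : sig p (ps n S e) (b i) x = hs n S e (pi p (b i) x) - hs n S e x := by linarith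
      rw [h5]
      ring
    exact_mod_cast h4
  · rintro ⟨h, a, hh⟩
    apply hout
    refine ⟨fun x => h x / N, a / N, fun i x => ?_⟩
    have h2 := hh i x
    rw [hg1] at h2
    field_simp
    linarith

end Pool.Agent.BP
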