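import Pool.Agent.Lib.Occ.Nielsen

/-!
MODULE BP.Prom (1.5 h). The Promislow (Hantzsche-Wendt) quotient of the free group of rank two and the finiteness of its outer automorphisms.

`P = F_2 / RP`, `RP = normalClosure {w1, w2}`, `w1 = b a a b⁻¹ a a`, `w2 = a b b a⁻¹ b b` (`a = of 0`, `b = of 1`). In `P` put `A = a²`, `B = b²`, `C = (a b)²`; then `b A b⁻¹ = A⁻¹`, `a B a⁻¹ = B⁻¹`; `A`, `B`, `C` commute;
`a` inverts `B`, `C`; `b` inverts `A`, `C`; (`a C a⁻¹ = a² b a b a⁻¹ = b a⁻¹ b a⁻¹ = B (b⁻¹ a⁻¹) B (b⁻¹ a⁻¹) = (b⁻¹ a⁻¹)² = C⁻¹`.)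
(1) `α RP ≤ RP` for every automorphism: the set of the `α` with `α RP = RP` is a subgroup containing the inner automorphisms (`RP` normal) and the three generators of `Pool.Agent.Occ.nielsen` (see its statement):
 `a ↦ b⁻¹, b ↦ a⁻¹`: `a⁻¹ B⁻¹ a B⁻¹ = 1`; `b ↦ b⁻¹`: `b⁻¹ A b A = 1`, `a B⁻¹ a⁻¹ B⁻¹ = 1`; `a ↦ a⁻¹, b ↦ a b`: `(ab) A⁻¹ (ab)⁻¹ A⁻¹ = 1`, `a⁻¹ C a C = 1`.
 So every `α` induces an automorphism of `P`.
(2) `A`, `B`, `C` have infinite order: homomorphisms of `F_2` to `Equiv.Perm ℤ` killing `w1, w2`: `a ↦ (t ↦ t + 1), b ↦ (t ↦ -t)` for `A`; exchanged for `B`; `a ↦ (t ↦ -t), b ↦ (t ↦ 1 - t)` for `C`.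
(3) Some power `α₁ = α^{k₁}` acts trivially on `F_2 / F_2²` (the homomorphisms to `ZMod 2`), so `α₁ a = a z_a`, `α₁ b = b z_b` in `P` with `z_a, z_b` in `Z = {A^x B^y C^w}` (the image of the kernel of `F_2 → (ℤ/2)²`:
 every element of `P` is `z`, `a z`, `b z` or `a b z` with `z ∈ Z`). Write `z_a = A^x B^y C^w`, `z_b = A^x' B^y' C^w'`: `(a z_a)² = A^(1+2x)`, `(b z_b)² = B^(1+2y')`, `(a z_a b z_b)² = C^(1+2(w'-w))`. The inverse automorphism has the same form,
 so `1 + 2x`, `1 + 2y'`, `1 + 2(w'-w)` are `±1` by (2) and `α₂ = α₁²` fixes `A`, `B`, `C`; write `α₂ a = a B^y C^w`, `α₂ b = b A^x' C^w` (the other exponents vanish by (2)). Then `α₂² a = a B^(2y) C^(2w)`, `α₂² b = b A^(2x') C^(2w)`,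
 and this is the conjugation by `g = A^(-x') B^(-y) C^(-w)`. So `k = 4 k₁`.
(Any other proof or choice of `k` is fine; only `prom` is used.)
-/

set_option autoImplicit false

namespace Pool.Agent.BP

/-- the two relators -/
def W1 (n : ℕ) [NeZero n] : FreeGroup (Fin n) :=
  FreeGroup.of 1 * FreeGroup.of 0 * FreeGroup.of 0 * (FreeGroup.of 1)⁻¹ * FreeGroup.of 0 *
    FreeGroup.of 0

/-- the two relators -/
def W2 (n : ℕ) [NeZero n] : FreeGroup (Fin n) :=
  FreeGroup.of 0 * FreeGroup.of 1 * FreeGroup.of 1 * (FreeGroup.of 0)⁻¹ * FreeGroup.of 1 *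
    FreeGroup.of 1

namespace PromAux

section grp

variable {Q : Type*} [Group Q]

theorem semi_c {a b : Q} (hA : SemiconjBy b (a * a) (a * a)⁻¹)
    (hB : SemiconjBy a (b * b) (b * b)⁻¹) :
    SemiconjBy a (a * b * (a * b)) (a * b * (a * b))⁻¹ := by
  have h1 : (a * a) * b = b * (a * a)⁻¹ := by
    have := hA.inv_right
    rw [inv_inv] at this
    exact this.symm
  have h2 : b * b * a⁻¹ * (b * b) = a⁻¹ := by
    have h3 := hB.inv_symm_left
    -- a⁻¹ * (b*b)⁻¹ = (b*b) * a⁻¹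
    have h4 : a⁻¹ * (b * b)⁻¹ = (b * b) * a⁻¹ := h3
    rw [← h4, mul_assoc, inv_mul_cancel, mul_one]
  unfold SemiconjBy
  calc a * (a * b * (a * b)) = (a * a) * b * (a * b) := by simp only [mul_assoc]
    _ = b * (a * a)⁻¹ * (a * b) := by rw [h1]
    _ = b * a⁻¹ * b := by group
    _ = b⁻¹ * (b * b * a⁻¹ * (b * b)) * b⁻¹ := by group
    _ = b⁻¹ * a⁻¹ * b⁻¹ := by rw [h2]
    _ = (a * b * (a * b))⁻¹ * a := by group

theorem semi_c' {a b : Q} (hA : SemiconjBy b (a * a) (a * a)⁻¹)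
    (hB : SemiconjBy a (b * b) (b * b)⁻¹) :
    SemiconjBy b (a * b * (a * b)) (a * b * (a * b))⁻¹ := by
  have h1 := semi_c hA hB
  have h2 := semi_c hB hA
  have h3 : b * a * (b * a) = (a * b * (a * b))⁻¹ := by
    have h4 : a⁻¹ * (a * b * (a * b)) * a = b * a * (b * a) := by group
    have h5 : (a * b * (a * b))⁻¹ * a * (a * b * (a * b))⁻¹ = a := by
      have := h1.eq
      rw [← this]
      group
    have h6 : a⁻¹ * (a * b * (a * b)) * a = (a * b * (a * b))⁻¹ := by
      have h7 : (a * b * (a * b)) * a = a * (a * b * (a * b))⁻¹ := by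
        calc (a * b * (a * b)) * a = (a * b * (a * b)) *
              ((a * b * (a * b))⁻¹ * a * (a * b * (a * b))⁻¹) := by rw [h5]
          _ = a * (a * b * (a * b))⁻¹ := by group
      rw [mul_assoc, h7]
      group
    rw [← h4, h6]
  rw [h3, inv_inv] at h2
  have := h2.inv_right
  rwa [inv_inv] at this

/-- translations -/
def nn (a b : Q) (u v w : ℤ) : Q := (a * a) ^ u * (b * b) ^ v * (a * b * (a * b)) ^ w

/-- hypotheses -/
structure Rel (a b : Q) : Prop where
  hA : SemiconjBy b (a * a) (a * a)⁻¹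
  hB : SemiconjBy a (b * b) (b * b)⁻¹

variable {a b : Q}

theorem Rel.comAB (h : Rel a b) : Commute (a * a) (b * b) := by
  have h1 := h.hB.inv_right
  rw [inv_inv] at h1
  exact h1.mul_left h.hB

theorem Rel.comAC (h : Rel a b) : Commute (a * a) (a * b * (a * b)) := by
  have h0 := semi_c h.hA h.hB
  have h1 := h0.inv_right
  rw [inv_inv] at h1
  exact h1.mul_left h0

theorem Rel.comBC (h : Rel a b) : Commute (b * b) (a * b * (a * b)) := by
  have h0 := semi_c' h.hA h.hB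
  have h1 := h0.inv_right
  rw [inv_inv] at h1
  exact h1.mul_left h0

theorem Rel.nn_mul (h : Rel a b) (u v w u' v' w' : ℤ) :
    nn a b u v w * nn a b u' v' w' = nn a b (u + u') (v + v') (w + w') := by
  unfold nn
  have h1 := (h.comAB.zpow_zpow u' v).symm
  have h2 := (h.comAC.zpow_zpow u' w).symm
  have h3 := (h.comBC.zpow_zpow v' w).symm
  rw [zpow_add, zpow_add, zpow_add]
  calc (a * a) ^ u * (b * b) ^ v * (a * b * (a * b)) ^ w *
        ((a * a) ^ u' * (b * b) ^ v' * (a * b * (a * b)) ^ w')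
      = (a * a) ^ u * (b * b) ^ v * ((a * b * (a * b)) ^ w * (a * a) ^ u') * (b * b) ^ v' *
          (a * b * (a * b)) ^ w' := by simp only [mul_assoc]
    _ = (a * a) ^ u * ((b * b) ^ v * (a * a) ^ u') * ((a * b * (a * b)) ^ w * (b * b) ^ v') *
          (a * b * (a * b)) ^ w' := by rw [h2.eq]; simp only [mul_assoc]
    _ = (a * a) ^ u * ((a * a) ^ u' * (b * b) ^ v) * ((b * b) ^ v' * (a * b * (a * b)) ^ w) *
          (a * b * (a * b)) ^ w' := by rw [h1.eq, h3.eq]
    _ = _ := by simp only [mul_assoc]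

theorem nn_A : nn a b 1 0 0 = a * a := by unfold nn; simp
theorem nn_B : nn a b 0 1 0 = b * b := by unfold nn; simp
theorem nn_C : nn a b 0 0 1 = a * b * (a * b) := by unfold nn; simp
theorem nn_A' : nn a b (-1) 0 0 = (a * a)⁻¹ := by unfold nn; simp
theorem nn_B' : nn a b 0 (-1) 0 = (b * b)⁻¹ := by unfold nn; simp
theorem nn_0 : nn a b 0 0 0 = 1 := by unfold nn; simp

theorem Rel.ba (h : Rel a b) : b * a = a * b * nn a b 1 (-1) (-1) := by
  have h1 : SemiconjBy (b * a) (a * b * (a * b)) (a * b * (a * b)) := by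
    have := (semi_c' h.hA h.hB).inv_right
    rw [inv_inv] at this
    exact this.mul_left (semi_c h.hA h.hB)
  have h2 : b * a * (a * b * (a * b)) = a * b * nn a b 1 (-1) 0 := by
    rw [h1.eq]
    calc a * b * (a * b) * (b * a) = a * b * (a * (b * b)) * a := by simp only [mul_assoc]
      _ = a * b * ((b * b)⁻¹ * (a * a)) := by rw [h.hB.eq]; simp only [mul_assoc]
      _ = a * b * nn a b 1 (-1) 0 := by
          congr 1
          have h3 := h.nn_mul 0 (-1) 0 1 0 0
          rw [nn_A, nn_B'] at h3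
          simpa using h3
  have h4 : nn a b 1 (-1) (-1) = nn a b 1 (-1) 0 * (a * b * (a * b))⁻¹ := by
    unfold nn
    simp
  rw [h4, ← mul_assoc, ← h2]
  group

/-- normal forms -/
def NF (a b x : Q) : Prop := ∃ u v w : ℤ, x = nn a b u v w ∨ x = a * nn a b u v w ∨
  x = b * nn a b u v w ∨ x = a * b * nn a b u v w

theorem Rel.nf_A' (h : Rel a b) {x : Q} (hx : NF a b x) : NF a b ((a * a)⁻¹ * x) := by
  obtain ⟨u, v, w, hx⟩ := hx
  have hb : (a * a)⁻¹ * b = b * (a * a) := h.hA.eq.symm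
  have ha : (a * a)⁻¹ * a = a * (a * a)⁻¹ := by group
  have e1 : ∀ u v w, (a * a)⁻¹ * nn a b u v w = nn a b (-1 + u) v w := by
    intro u v w
    rw [← nn_A' (a := a) (b := b), h.nn_mul, zero_add, zero_add]
  have e2 : ∀ u v w, (a * a) * nn a b u v w = nn a b (1 + u) v w := by
    intro u v w
    rw [← nn_A (a := a) (b := b), h.nn_mul, zero_add, zero_add]
  rcases hx with rfl | rfl | rfl | rfl
  · exact ⟨-1 + u, v, w, Or.inl (e1 _ _ _)⟩
  · exact ⟨-1 + u, v, w, Or.inr (Or.inl (by rw [← mul_assoc, ha, mul_assoc, e1]))⟩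
  · exact ⟨1 + u, v, w, Or.inr (Or.inr (Or.inl (by rw [← mul_assoc, hb, mul_assoc, e2])))⟩
  · refine ⟨1 + u, v, w, Or.inr (Or.inr (Or.inr ?_))⟩
    calc (a * a)⁻¹ * (a * b * nn a b u v w) = (a * a)⁻¹ * a * b * nn a b u v w := by
          simp only [mul_assoc]
      _ = a * ((a * a)⁻¹ * b) * nn a b u v w := by rw [ha]; simp only [mul_assoc]
      _ = a * b * ((a * a) * nn a b u v w) := by rw [hb]; simp only [mul_assoc]
      _ = _ := by rw [e2]

theorem Rel.nf_B' (h : Rel a b) {x : Q} (hx : NF a b x) : NF a b ((b * b)⁻¹ * x) := by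
  obtain ⟨u, v, w, hx⟩ := hx
  have ha : (b * b)⁻¹ * a = a * (b * b) := h.hB.eq.symm
  have hb : (b * b)⁻¹ * b = b * (b * b)⁻¹ := by group
  have hb' : (b * b) * b = b * (b * b) := by group
  have e1 : ∀ u v w, (b * b)⁻¹ * nn a b u v w = nn a b u (-1 + v) w := by
    intro u v w
    rw [← nn_B' (a := a) (b := b), h.nn_mul, zero_add, zero_add]
  have e2 : ∀ u v w, (b * b) * nn a b u v w = nn a b u (1 + v) w := by
    intro u v w
    rw [← nn_B (a := a) (b := b), h.nn_mul, zero_add, zero_add]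
  rcases hx with rfl | rfl | rfl | rfl
  · exact ⟨u, -1 + v, w, Or.inl (e1 _ _ _)⟩
  · exact ⟨u, 1 + v, w, Or.inr (Or.inl (by rw [← mul_assoc, ha, mul_assoc, e2]))⟩
  · exact ⟨u, -1 + v, w, Or.inr (Or.inr (Or.inl (by rw [← mul_assoc, hb, mul_assoc, e1])))⟩
  · refine ⟨u, 1 + v, w, Or.inr (Or.inr (Or.inr ?_))⟩
    calc (b * b)⁻¹ * (a * b * nn a b u v w) = (b * b)⁻¹ * a * b * nn a b u v w := by
          simp only [mul_assoc]
      _ = a * ((b * b) * b) * nn a b u v w := by rw [ha]; simp only [mul_assoc]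
      _ = a * b * ((b * b) * nn a b u v w) := by rw [hb']; simp only [mul_assoc]
      _ = _ := by rw [e2]

theorem Rel.nf_a (h : Rel a b) {x : Q} (hx : NF a b x) : NF a b (a * x) := by
  obtain ⟨u, v, w, hx⟩ := hx
  have hb : (a * a) * b = b * (a * a)⁻¹ := by
    have := h.hA.inv_right
    rw [inv_inv] at this
    exact this.symm
  have e1 : ∀ u v w, (a * a)⁻¹ * nn a b u v w = nn a b (-1 + u) v w := by
    intro u v w
    rw [← nn_A' (a := a) (b := b), h.nn_mul, zero_add, zero_add]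
  have e2 : ∀ u v w, (a * a) * nn a b u v w = nn a b (1 + u) v w := by
    intro u v w
    rw [← nn_A (a := a) (b := b), h.nn_mul, zero_add, zero_add]
  rcases hx with rfl | rfl | rfl | rfl
  · exact ⟨u, v, w, Or.inr (Or.inl rfl)⟩
  · exact ⟨1 + u, v, w, Or.inl (by rw [← mul_assoc, e2])⟩
  · exact ⟨u, v, w, Or.inr (Or.inr (Or.inr (by rw [← mul_assoc])))⟩
  · refine ⟨-1 + u, v, w, Or.inr (Or.inr (Or.inl ?_))⟩
    calc a * (a * b * nn a b u v w) = (a * a) * b * nn a b u v w := by simp only [mul_assoc]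
      _ = b * ((a * a)⁻¹ * nn a b u v w) := by rw [hb, mul_assoc]
      _ = _ := by rw [e1]

theorem Rel.nf_b (h : Rel a b) {x : Q} (hx : NF a b x) : NF a b (b * x) := by
  obtain ⟨u, v, w, hx⟩ := hx
  have e2 : ∀ u v w, (b * b) * nn a b u v w = nn a b u (1 + v) w := by
    intro u v w
    rw [← nn_B (a := a) (b := b), h.nn_mul, zero_add, zero_add]
  -- moving a translation across `b`
  have hmv : nn a b 1 (-1) (-1) * b = b * nn a b (-1) (-1) 1 := by
    have h1 : (a * a) * b = b * (a * a)⁻¹ := by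
      have := h.hA.inv_right
      rw [inv_inv] at this
      exact this.symm
    have h2 : (b * b)⁻¹ * b = b * (b * b)⁻¹ := by group
    have h3 : (a * b * (a * b))⁻¹ * b = b * (a * b * (a * b)) :=
      (semi_c' h.hA h.hB).eq.symm
    have e3 : nn a b 1 (-1) (-1) = (a * a) * (b * b)⁻¹ * (a * b * (a * b))⁻¹ := by
      unfold nn
      simp
    have e4 : nn a b (-1) (-1) 1 = (a * a)⁻¹ * (b * b)⁻¹ * (a * b * (a * b)) := by
      unfold nn
      simp
    rw [e3, e4]
    calc (a * a) * (b * b)⁻¹ * (a * b * (a * b))⁻¹ * b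
        = (a * a) * (b * b)⁻¹ * ((a * b * (a * b))⁻¹ * b) := by rw [mul_assoc]
      _ = (a * a) * ((b * b)⁻¹ * b) * (a * b * (a * b)) := by rw [h3]; simp only [mul_assoc]
      _ = ((a * a) * b) * (b * b)⁻¹ * (a * b * (a * b)) := by rw [h2]; simp only [mul_assoc]
      _ = _ := by rw [h1]; simp only [mul_assoc]
  rcases hx with rfl | rfl | rfl | rfl
  · exact ⟨u, v, w, Or.inr (Or.inr (Or.inl rfl))⟩
  · refine ⟨1 + u, -1 + v, -1 + w, Or.inr (Or.inr (Or.inr ?_))⟩
    rw [← mul_assoc, h.ba, mul_assoc, h.nn_mul]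
  · exact ⟨u, 1 + v, w, Or.inl (by rw [← mul_assoc, e2])⟩
  · refine ⟨-1 + u, v, 1 + w, Or.inr (Or.inl ?_)⟩
    calc b * (a * b * nn a b u v w) = (b * a) * b * nn a b u v w := by simp only [mul_assoc]
      _ = a * b * (nn a b 1 (-1) (-1) * b) * nn a b u v w := by rw [h.ba]; simp only [mul_assoc]
      _ = a * ((b * b) * nn a b (-1) (-1) 1) * nn a b u v w := by
          rw [hmv]; simp only [mul_assoc]
      _ = a * nn a b (-1 + u) v (1 + w) := by
          rw [e2, mul_assoc, h.nn_mul]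
          simp

end grp

/-- affine maps of `ℤ` with linear part `±1` -/
@[ext] structure D where
  /-- sign -/
  e : ℤˣ
  /-- translation part -/
  t : ℤ
deriving DecidableEq

namespace D

instance : One D := ⟨⟨1, 0⟩⟩
instance : Mul D := ⟨fun x y => ⟨x.e * y.e, x.t + x.e * y.t⟩⟩
instance : Inv D := ⟨fun x => ⟨x.e, -(x.e * x.t)⟩⟩

theorem one_e : (1 : D).e = 1 := rfl
theorem one_t : (1 : D).t = 0 := rfl
theorem mul_e (x y : D) : (x * y).e = x.e * y.e := rfl
theorem mul_t (x y : D) : (x * y).t = x.t + x.e * y.t := rfl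
theorem inv_e (x : D) : (x⁻¹).e = x.e := rfl
theorem inv_t (x : D) : (x⁻¹).t = -(x.e * x.t) := rfl

instance : Group D := Group.ofLeftAxioms
  (by
    intro x y z
    ext
    · simp only [mul_e, mul_assoc]
    · simp only [mul_t, mul_e, Units.val_mul]
      ring)
  (by
    intro x
    ext
    · simp only [mul_e, one_e, one_mul]
    · simp only [mul_t, one_t, one_e, Units.val_one]
      ring)
  (by
    intro x
    ext
    · simp only [mul_e, inv_e, one_e, Int.units_mul_self]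
    · simp only [mul_t, inv_t, inv_e, one_t]
      ring)

/-- the sign homomorphism -/
def sg : D →* ℤˣ where
  toFun := D.e
  map_one' := rfl
  map_mul' _ _ := rfl

end D

/-- the crystallographic representation -/
def rep : FreeGroup (Fin 2) →* (Fin 3 → D) :=
  FreeGroup.lift ![![⟨1, 1⟩, ⟨-1, 0⟩, ⟨-1, 1⟩], ![⟨-1, 1⟩, ⟨1, 1⟩, ⟨-1, 0⟩]]

theorem rep_a : rep (FreeGroup.of 0) = ![⟨1, 1⟩, ⟨-1, 0⟩, ⟨-1, 1⟩] := by
  unfold rep
  rw [FreeGroup.lift_apply_of]
  rfl

theorem rep_b : rep (FreeGroup.of 1) = ![⟨-1, 1⟩, ⟨1, 1⟩, ⟨-1, 0⟩] := by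
  unfold rep
  rw [FreeGroup.lift_apply_of]
  rfl

/-- the elements of order four -/
def ee : Fin 3 → FreeGroup (Fin 2) :=
  ![FreeGroup.of 0, FreeGroup.of 1, FreeGroup.of 0 * FreeGroup.of 1]

theorem rep_ee (i : Fin 3) : rep (ee i * ee i) = Function.update (1 : Fin 3 → D) i ⟨1, 2⟩ := by
  fin_cases i
  · simp only [ee, map_mul]
    simp only [Fin.zero_eta, Matrix.cons_val_zero, rep_a]
    decide
  · simp only [ee, map_mul]
    simp only [Fin.mk_one, Matrix.cons_val_one, Matrix.cons_val_zero, rep_b]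
    decide
  · simp only [ee]
    simp only [Fin.reduceFinMk, Matrix.cons_val, map_mul, rep_a, rep_b]
    decide

theorem rep_W1 : rep (W1 2) = 1 := by
  unfold W1
  simp only [map_mul, map_inv, rep_a, rep_b]
  decide

theorem rep_W2 : rep (W2 2) = 1 := by
  unfold W2
  simp only [map_mul, map_inv, rep_a, rep_b]
  decide

/-- the kernel contains the relators -/
theorem rel_le_ker : Subgroup.normalClosure {W1 2, W2 2} ≤ rep.ker := by
  apply Subgroup.normalClosure_le_normal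
  intro x hx
  rcases hx with rfl | hx
  · exact rep_W1
  · rw [Set.mem_singleton_iff.1 hx]
    exact rep_W2

theorem rel_of {G : Type*} [Group G] (q : FreeGroup (Fin 2) →* G) (h1 : q (W1 2) = 1)
    (h2 : q (W2 2) = 1) : Rel (q (FreeGroup.of 0)) (q (FreeGroup.of 1)) := by
  unfold W1 at h1
  unfold W2 at h2
  simp only [map_mul, map_inv] at h1 h2
  generalize q (FreeGroup.of 0) = a at *
  generalize q (FreeGroup.of 1) = b at *
  constructor
  · unfold SemiconjBy
    rw [← mul_inv_eq_iff_eq_mul, eq_inv_iff_mul_eq_one]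
    simpa only [mul_assoc] using h1
  · unfold SemiconjBy
    rw [← mul_inv_eq_iff_eq_mul, eq_inv_iff_mul_eq_one]
    simpa only [mul_assoc] using h2

/-- the relations in the quotient -/
theorem rel_quot : Rel (QuotientGroup.mk' (Subgroup.normalClosure {W1 2, W2 2}) (FreeGroup.of 0))
    (QuotientGroup.mk' (Subgroup.normalClosure {W1 2, W2 2}) (FreeGroup.of 1)) := by
  apply rel_of
  · exact (QuotientGroup.eq_one_iff _).2 (Subgroup.subset_normalClosure (Or.inl rfl))
  · exact (QuotientGroup.eq_one_iff _).2 (Subgroup.subset_normalClosure (Or.inr rfl))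

theorem nf_all (x : FreeGroup (Fin 2)) :
    NF (QuotientGroup.mk' (Subgroup.normalClosure {W1 2, W2 2}) (FreeGroup.of 0))
      (QuotientGroup.mk' (Subgroup.normalClosure {W1 2, W2 2}) (FreeGroup.of 1))
      (QuotientGroup.mk' (Subgroup.normalClosure {W1 2, W2 2}) x) := by
  obtain ⟨q, hq⟩ : ∃ q, q = QuotientGroup.mk' (Subgroup.normalClosure {W1 2, W2 2}) := ⟨_, rfl⟩
  have hr := rel_quot
  rw [← hq] at hr ⊢
  have hx : x ∈ Subgroup.closure (Set.range (FreeGroup.of : Fin 2 → FreeGroup (Fin 2))) := by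
    rw [FreeGroup.closure_range_of]
    exact Subgroup.mem_top x
  induction hx using Subgroup.closure_induction_left with
  | one => exact ⟨0, 0, 0, Or.inl (by rw [map_one, nn_0])⟩
  | mul_left y hy z _ ih =>
    obtain ⟨i, rfl⟩ := hy
    rw [map_mul]
    fin_cases i
    · exact hr.nf_a ih
    · exact hr.nf_b ih
  | inv_mul_cancel y hy z _ ih =>
    obtain ⟨i, rfl⟩ := hy
    rw [map_mul, map_inv]
    fin_cases i
    · have := hr.nf_a (hr.nf_A' ih)
      have e : q (FreeGroup.of 0) * ((q (FreeGroup.of 0) * q (FreeGroup.of 0))⁻¹ * q z) =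
          (q (FreeGroup.of 0))⁻¹ * q z := by group
      rw [e] at this
      exact this
    · have := hr.nf_b (hr.nf_B' ih)
      have e : q (FreeGroup.of 1) * ((q (FreeGroup.of 1) * q (FreeGroup.of 1))⁻¹ * q z) =
          (q (FreeGroup.of 1))⁻¹ * q z := by group
      rw [e] at this
      exact this

/-- the element with prescribed translation part -/
def tr (u v w : ℤ) : FreeGroup (Fin 2) := (ee 0 * ee 0) ^ u * (ee 1 * ee 1) ^ v * (ee 2 * ee 2) ^ w

theorem zpow_D (c : ℤ) (m : ℤ) : (⟨1, c⟩ : D) ^ m = ⟨1, c * m⟩ := by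
  have hn : ∀ n : ℕ, (⟨1, c⟩ : D) ^ n = ⟨1, c * n⟩ := by
    intro n
    induction n with
    | zero =>
      rw [pow_zero]
      ext
      · rfl
      · simp [D.one_t]
    | succ n ih =>
      rw [pow_succ, ih]
      ext
      · simp [D.mul_e]
      · simp only [D.mul_t, Units.val_one]
        push_cast
        ring
  rcases m with m | m
  · rw [Int.ofNat_eq_natCast, zpow_natCast, hn]
  · rw [zpow_negSucc, hn]
    ext
    · rfl
    · simp only [D.inv_t, Units.val_one, Int.negSucc_eq]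
      push_cast
      ring

theorem rep_tr (u v w : ℤ) : rep (tr u v w) = ![⟨1, 2 * u⟩, ⟨1, 2 * v⟩, ⟨1, 2 * w⟩] := by
  unfold tr
  rw [map_mul, map_mul, map_zpow, map_zpow, map_zpow, rep_ee, rep_ee, rep_ee]
  have hone : (1 : D) = ⟨1, 0⟩ := rfl
  funext i
  fin_cases i
  · simp only [Pi.mul_apply, Pi.pow_apply]
    simp [zpow_D]
  · simp only [Pi.mul_apply, Pi.pow_apply]
    simp [zpow_D]
  · simp only [Pi.mul_apply, Pi.pow_apply]
    simp [zpow_D]

theorem mk_tr (u v w : ℤ) : QuotientGroup.mk' (Subgroup.normalClosure {W1 2, W2 2}) (tr u v w) =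
    nn (QuotientGroup.mk' (Subgroup.normalClosure {W1 2, W2 2}) (FreeGroup.of 0))
      (QuotientGroup.mk' (Subgroup.normalClosure {W1 2, W2 2}) (FreeGroup.of 1)) u v w := by
  unfold tr nn ee
  simp only [map_mul, map_zpow]
  rfl

/-- elements with trivial linear part are products of squares modulo the relators -/
theorem eq_tr_of_sg {x : FreeGroup (Fin 2)} (hx : ∀ i, (rep x i).e = 1) :
    ∃ u v w : ℤ, x * (tr u v w)⁻¹ ∈ Subgroup.normalClosure {W1 2, W2 2} := by
  obtain ⟨u, v, w, h⟩ := nf_all x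
  refine ⟨u, v, w, ?_⟩
  rw [← mk_tr] at h
  obtain ⟨q, hq⟩ : ∃ q, q = QuotientGroup.mk' (Subgroup.normalClosure {W1 2, W2 2}) := ⟨_, rfl⟩
  rw [← hq] at h
  have key : ∀ y, q x = q y → rep x = rep y := by
    intro y hy
    have h1 : x⁻¹ * y ∈ Subgroup.normalClosure {W1 2, W2 2} := by
      rw [hq] at hy
      exact QuotientGroup.eq.1 hy
    have h2 : rep (x⁻¹ * y) = 1 := rel_le_ker h1
    rw [map_mul, map_inv, inv_mul_eq_one] at h2
    exact h2
  have hmem : ∀ y, q x = q y → x * y⁻¹ ∈ Subgroup.normalClosure {W1 2, W2 2} := by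
    intro y hy
    rw [← QuotientGroup.eq_one_iff]
    have : q (x * y⁻¹) = 1 := by rw [map_mul, map_inv, hy, mul_inv_cancel]
    rw [hq] at this
    exact this
  rcases h with h | h | h | h
  · exact hmem _ h
  · exfalso
    rw [← map_mul] at h
    have h1 := hx 1
    rw [key _ h, map_mul, rep_a, rep_tr] at h1
    revert h1
    simp [D.mul_e]
  · exfalso
    rw [← map_mul] at h
    have h1 := hx 0
    rw [key _ h, map_mul, rep_b, rep_tr] at h1
    revert h1
    simp [D.mul_e]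
  · exfalso
    rw [← map_mul, ← map_mul] at h
    have h1 := hx 0
    rw [key _ h, map_mul, map_mul, rep_a, rep_b, rep_tr] at h1
    revert h1
    simp [D.mul_e]

/-- the kernel is generated by the relators -/
theorem mem_of_rep {x : FreeGroup (Fin 2)} (hx : rep x = 1) :
    x ∈ Subgroup.normalClosure {W1 2, W2 2} := by
  obtain ⟨u, v, w, h⟩ := eq_tr_of_sg (x := x) (by rw [hx]; intro i; rfl)
  have h1 : rep (x * (tr u v w)⁻¹) = 1 := rel_le_ker h
  rw [map_mul, map_inv, hx, one_mul, inv_eq_one, rep_tr] at h1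
  have h2 := congrArg D.t (congrFun h1 0)
  have h3 := congrArg D.t (congrFun h1 1)
  have h4 := congrArg D.t (congrFun h1 2)
  simp [D.one_t] at h2 h3 h4
  subst h2 h3 h4
  have : tr 0 0 0 = 1 := by unfold tr; simp
  rwa [this, inv_one, mul_one] at h

theorem tr_sign (φ : FreeGroup (Fin 2) →* ℤˣ) (u v w : ℤ) : φ (tr u v w) = 1 := by
  unfold tr
  rw [map_mul, map_mul, map_zpow, map_zpow, map_zpow, map_mul, map_mul, map_mul,
    Int.units_mul_self, Int.units_mul_self, Int.units_mul_self, one_zpow, one_zpow, one_zpow,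
    one_mul, one_mul]

/-- the sign homomorphisms -/
def sgn (i : Fin 3) : FreeGroup (Fin 2) →* ℤˣ := D.sg.comp ((Pi.evalMonoidHom _ i).comp rep)

theorem sgn_apply (i : Fin 3) (x : FreeGroup (Fin 2)) : sgn i x = (rep x i).e := rfl

theorem sgn_prod (x : FreeGroup (Fin 2)) : (rep x 0).e * (rep x 1).e * (rep x 2).e = 1 := by
  have h : sgn 0 * sgn 1 * sgn 2 = 1 := by
    apply FreeGroup.ext_hom
    intro i
    simp only [MonoidHom.mul_apply, MonoidHom.one_apply, sgn_apply]
    fin_cases i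
    · simp only [Fin.zero_eta, rep_a]
      decide
    · simp only [Fin.mk_one, rep_b]
      decide
  have h2 := DFunLike.congr_fun h x
  simpa only [MonoidHom.mul_apply, MonoidHom.one_apply, sgn_apply] using h2

/-- automorphisms preserving the kernel -/
def EE : Subgroup (MulAut (FreeGroup (Fin 2))) where
  carrier := {α | ∀ x, rep x = 1 ↔ rep (α x) = 1}
  one_mem' := fun x => Iff.rfl
  mul_mem' := by
    intro α β hα hβ x
    rw [MulAut.mul_apply]
    exact (hβ x).trans (hα (β x))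
  inv_mem' := by
    intro α hα x
    have := hα (α⁻¹ x)
    rw [MulAut.apply_inv_self] at this
    exact this.symm

theorem mem_EE_of {α : MulAut (FreeGroup (Fin 2))}
    (hinv : ∀ i, α (α (FreeGroup.of i)) = FreeGroup.of i) (h : rep (α (W1 2)) = 1)
    (h' : rep (α (W2 2)) = 1) : α ∈ EE := by
  have hinv' : ∀ x, α (α x) = x := by
    intro x
    have h1 : (α.toMonoidHom.comp α.toMonoidHom) = MonoidHom.id _ := by
      apply FreeGroup.ext_hom
      intro i
      exact hinv i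
    exact DFunLike.congr_fun h1 x
  have key : ∀ x, rep x = 1 → rep (α x) = 1 := by
    intro x hx
    have hle : Subgroup.normalClosure {W1 2, W2 2} ≤ (rep.comp α.toMonoidHom).ker := by
      apply Subgroup.normalClosure_le_normal
      intro y hy
      rcases hy with rfl | hy
      · exact h
      · rw [Set.mem_singleton_iff.1 hy]
        exact h'
    exact hle (mem_of_rep hx)
  intro x
  refine ⟨key x, fun hx => ?_⟩
  have := key _ hx
  rwa [hinv'] at this

theorem all_EE : ∀ α, α ∈ EE := by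
  apply Pool.Agent.Occ.nielsen
  · intro g x
    rw [MulAut.conj_apply, map_mul, map_mul, map_inv]
    constructor
    · intro h
      rw [h, mul_one, mul_inv_cancel]
    · intro h
      rw [mul_inv_eq_one] at h
      exact mul_eq_left.1 h
  · intro α ha hb
    apply mem_EE_of
    · intro i
      fin_cases i
      · simp only [Fin.zero_eta, ha, map_inv, hb, inv_inv]
      · simp only [Fin.mk_one, ha, map_inv, hb, inv_inv]
    · simp only [W1, map_mul, map_inv, ha, hb, rep_a, rep_b]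
      decide
    · simp only [W2, map_mul, map_inv, ha, hb, rep_a, rep_b]
      decide
  · intro α ha hb
    apply mem_EE_of
    · intro i
      fin_cases i
      · simp only [Fin.zero_eta, ha]
      · simp only [Fin.mk_one, map_inv, hb, inv_inv]
    · simp only [W1, map_mul, map_inv, ha, hb, rep_a, rep_b]
      decide
    · simp only [W2, map_mul, map_inv, ha, hb, rep_a, rep_b]
      decide
  · intro α ha hb
    apply mem_EE_of
    · intro i
      fin_cases i
      · simp only [Fin.zero_eta, ha, map_inv, inv_inv]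
      · simp only [Fin.mk_one, map_mul, ha, hb, inv_mul_cancel_left]
    · simp only [W1, map_mul, map_inv, ha, hb, rep_a, rep_b]
      decide
    · simp only [W2, map_mul, map_inv, ha, hb, rep_a, rep_b]
      decide

theorem inv_rep (β : MulAut (FreeGroup (Fin 2))) {x y : FreeGroup (Fin 2)}
    (h : rep (β x) = rep y) : rep x = rep (β⁻¹ y) := by
  have h1 : rep (β (x * (β⁻¹ y)⁻¹)) = 1 := by
    rw [map_mul, map_inv, MulAut.apply_inv_self, map_mul, map_inv, h, mul_inv_cancel]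
  have h2 := (all_EE β _).2 h1
  rw [map_mul, map_inv, mul_inv_eq_one] at h2
  exact h2

theorem rep_of_mem {x y : FreeGroup (Fin 2)}
    (h : x * y⁻¹ ∈ Subgroup.normalClosure {W1 2, W2 2}) : rep x = rep y := by
  have h1 : rep (x * y⁻¹) = 1 := rel_le_ker h
  rwa [map_mul, map_inv, mul_inv_eq_one] at h1

theorem ne_sign (β : MulAut (FreeGroup (Fin 2))) (j : Fin 3) :
    ∃ i, (rep (β (ee j)) i).e ≠ 1 := by
  by_contra hcon
  push Not at hcon
  obtain ⟨u, v, w, h⟩ := eq_tr_of_sg hcon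
  have h1 := inv_rep β (rep_of_mem h)
  have h2 : ∀ i, (rep (ee j) i).e = 1 := by
    intro i
    rw [h1]
    exact tr_sign ((sgn i).comp (β⁻¹).toMonoidHom) u v w
  fin_cases j
  · have h3 := h2 1
    simp only [ee, Fin.zero_eta, Matrix.cons_val_zero, rep_a] at h3
    revert h3
    decide
  · have h3 := h2 0
    simp only [ee, Fin.mk_one, Matrix.cons_val_one, Matrix.cons_val_zero, rep_b] at h3
    revert h3
    decide
  · have h3 := h2 0
    simp only [ee, Fin.reduceFinMk, Matrix.cons_val, map_mul, rep_a, rep_b] at h3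
    revert h3
    decide

theorem sign_dec : ∀ s : Fin 3 → ℤˣ, s 0 * s 1 * s 2 = 1 → (∃ i, s i ≠ 1) → ∀ i, s i = 1 →
    ∀ k, k ≠ i → s k = -1 := by
  decide

theorem sign_other (β : MulAut (FreeGroup (Fin 2))) (j i : Fin 3)
    (h : (rep (β (ee j)) i).e = 1) (k : Fin 3) (hk : k ≠ i) : (rep (β (ee j)) k).e = -1 :=
  sign_dec (fun l => (rep (β (ee j)) l).e) (sgn_prod _) (ne_sign β j) i h k hk

theorem t_unit (β : MulAut (FreeGroup (Fin 2))) (j i : Fin 3)
    (h : (rep (β (ee j)) i).e = 1) :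
    (rep (β (ee j)) i).t = 1 ∨ (rep (β (ee j)) i).t = -1 := by
  obtain ⟨t, ht⟩ : ∃ t, t = (rep (β (ee j)) i).t := ⟨_, rfl⟩
  have h1 : rep (β (ee j * ee j)) = rep ((ee i * ee i) ^ t) := by
    rw [map_zpow, rep_ee, map_mul, map_mul]
    funext k
    rw [Pi.mul_apply, Pi.pow_apply]
    by_cases hk : k = i
    · subst hk
      rw [Function.update_self, zpow_D]
      ext
      · rw [D.mul_e, h]
        rfl
      · rw [D.mul_t, h, ← ht, Units.val_one]
        ring
    · rw [Function.update_of_ne hk, Pi.one_apply, one_zpow]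
      have h2 := sign_other β j i h k hk
      ext
      · rw [D.mul_e, Int.units_mul_self]
        rfl
      · rw [D.mul_t, h2, D.one_t, Units.val_neg, Units.val_one]
        ring
  have h2 := inv_rep β h1
  rw [map_zpow, map_zpow, rep_ee, map_mul, map_mul] at h2
  have h3 := congrFun h2 j
  rw [Function.update_self, Pi.pow_apply, Pi.mul_apply] at h3
  obtain ⟨y, hy⟩ : ∃ y, y = rep (β⁻¹ (ee i)) j := ⟨_, rfl⟩
  rw [← hy] at h3
  have h4 : ∃ m : ℤ, y * y = ⟨1, 2 * m⟩ := by
    rcases Int.units_eq_one_or y.e with he | he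
    · refine ⟨y.t, ?_⟩
      ext
      · rw [D.mul_e, he]
        rfl
      · rw [D.mul_t, he, Units.val_one]
        ring
    · refine ⟨0, ?_⟩
      ext
      · rw [D.mul_e, he]
        rfl
      · rw [D.mul_t, he, Units.val_neg, Units.val_one]
        ring
  obtain ⟨m, hm⟩ := h4
  rw [hm, zpow_D] at h3
  have h5 := congrArg D.t h3
  simp only at h5
  have h6 : t * m = 1 := by linarith
  rw [← ht]
  exact Int.eq_one_or_neg_one_of_mul_eq_one h6

/-- conjugation in one coordinate -/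
theorem coord {x y x' y' : D} (hx : x.e = x'.e) (hy : y.e = y'.e) (hxt : x.t ≡ x'.t [ZMOD 4])
    (hyt : y.t ≡ y'.t [ZMOD 4]) (hn : ¬ (x.e = 1 ∧ y.e = 1))
    (h1 : x.e = 1 → x.t = 1 ∨ x.t = -1) (h1' : x'.e = 1 → x'.t = 1 ∨ x'.t = -1)
    (h2 : y.e = 1 → y.t = 1 ∨ y.t = -1) (h2' : y'.e = 1 → y'.t = 1 ∨ y'.t = -1)
    (h3 : (x * y).e = 1 → (x * y).t = 1 ∨ (x * y).t = -1)
    (h3' : (x' * y').e = 1 → (x' * y').t = 1 ∨ (x' * y').t = -1) :
    ∃ v : ℤ, x = ⟨1, 2 * v⟩ * x' * ⟨1, 2 * v⟩⁻¹ ∧ y = ⟨1, 2 * v⟩ * y' * ⟨1, 2 * v⟩⁻¹ := by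
  unfold Int.ModEq at hxt hyt
  have hc : ∀ (z z' : D) (v : ℤ), z.e = z'.e → z.t = 2 * v + z'.t - z'.e * (2 * v) →
      z = ⟨1, 2 * v⟩ * z' * ⟨1, 2 * v⟩⁻¹ := by
    intro z z' v he ht
    ext
    · simp only [D.mul_e, D.inv_e, he, one_mul, mul_one]
    · simp only [D.mul_t, D.inv_t, D.mul_e, ht, Units.val_one, one_mul]
      ring
  rcases Int.units_eq_one_or x.e with hxe | hxe <;> rcases Int.units_eq_one_or y.e with hye | hye
  · exact absurd ⟨hxe, hye⟩ hn
  · have hx' := hx.symm.trans hxe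
    have hy' := hy.symm.trans hye
    have a1 := h1 hxe
    have a2 := h1' hx'
    refine ⟨(y.t - y'.t) / 4, hc _ _ _ hx ?_, hc _ _ _ hy ?_⟩
    · rw [hx', Units.val_one]
      omega
    · rw [hy', Units.val_neg, Units.val_one]
      omega
  · have hx' := hx.symm.trans hxe
    have hy' := hy.symm.trans hye
    have a1 := h2 hye
    have a2 := h2' hy'
    refine ⟨(x.t - x'.t) / 4, hc _ _ _ hx ?_, hc _ _ _ hy ?_⟩
    · rw [hx', Units.val_neg, Units.val_one]
      omega
    · rw [hy', Units.val_one]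
      omega
  · have hx' := hx.symm.trans hxe
    have hy' := hy.symm.trans hye
    have a1 := h3 (by rw [D.mul_e, hxe, hye]; rfl)
    have a2 := h3' (by rw [D.mul_e, hx', hy']; rfl)
    simp only [D.mul_t, hxe, hx', Units.val_neg, Units.val_one] at a1 a2
    refine ⟨(x.t - x'.t) / 4, hc _ _ _ hx ?_, hc _ _ _ hy ?_⟩
    · rw [hx', Units.val_neg, Units.val_one]
      omega
    · rw [hy', Units.val_neg, Units.val_one]
      omega

theorem not_both (β : MulAut (FreeGroup (Fin 2))) (i : Fin 3) :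
    ¬ ((rep (β (FreeGroup.of 0)) i).e = 1 ∧ (rep (β (FreeGroup.of 1)) i).e = 1) := by
  rintro ⟨h1, h2⟩
  obtain ⟨k, hk⟩ := ne_sign β 2
  apply hk
  have e : β (ee 2) = β (FreeGroup.of 0) * β (FreeGroup.of 1) := by
    rw [← map_mul]
    rfl
  rw [e, map_mul, Pi.mul_apply, D.mul_e]
  by_cases hki : k = i
  · rw [hki, h1, h2, one_mul]
  · have a1 := sign_other β 0 i h1 k hki
    have a2 := sign_other β 1 i h2 k hki
    have a1' : (rep (β (FreeGroup.of 0)) k).e = -1 := a1
    have a2' : (rep (β (FreeGroup.of 1)) k).e = -1 := a2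
    rw [a1', a2']
    rfl

/-- equal residues give conjugate pairs -/
theorem pair_conj (β γ : MulAut (FreeGroup (Fin 2)))
    (h : ∀ (g : Fin 2) (l : Fin 3), (rep (β (FreeGroup.of g)) l).e =
      (rep (γ (FreeGroup.of g)) l).e ∧
      ((rep (β (FreeGroup.of g)) l).t : ZMod 4) = ((rep (γ (FreeGroup.of g)) l).t : ZMod 4)) :
    ∃ τ : FreeGroup (Fin 2), ∀ x, rep (γ x) = rep (τ * β x * τ⁻¹) := by
  have hl : ∀ l : Fin 3, ∃ v : ℤ,
      rep (γ (FreeGroup.of 0)) l = ⟨1, 2 * v⟩ * rep (β (FreeGroup.of 0)) l * ⟨1, 2 * v⟩⁻¹ ∧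
      rep (γ (FreeGroup.of 1)) l = ⟨1, 2 * v⟩ * rep (β (FreeGroup.of 1)) l * ⟨1, 2 * v⟩⁻¹ := by
    intro l
    have hab : ∀ δ : MulAut (FreeGroup (Fin 2)), rep (δ (ee 2)) l =
        rep (δ (FreeGroup.of 0)) l * rep (δ (FreeGroup.of 1)) l := by
      intro δ
      have : δ (ee 2) = δ (FreeGroup.of 0) * δ (FreeGroup.of 1) := by
        rw [← map_mul]
        rfl
      rw [this, map_mul, Pi.mul_apply]
    refine coord (h 0 l).1.symm (h 1 l).1.symm ?_ ?_ (not_both γ l) (t_unit γ 0 l) (t_unit β 0 l)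
      (t_unit γ 1 l) (t_unit β 1 l) ?_ ?_
    · exact (ZMod.intCast_eq_intCast_iff _ _ 4).1 (h 0 l).2.symm
    · exact (ZMod.intCast_eq_intCast_iff _ _ 4).1 (h 1 l).2.symm
    · rw [← hab]
      exact t_unit γ 2 l
    · rw [← hab]
      exact t_unit β 2 l
  choose v hv using hl
  refine ⟨tr (v 0) (v 1) (v 2), ?_⟩
  have htr : rep (tr (v 0) (v 1) (v 2)) = fun l => ⟨1, 2 * v l⟩ := by
    rw [rep_tr]
    funext l
    fin_cases l <;> rfl
  intro x
  have hom : rep.comp γ.toMonoidHom =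
      ((MulAut.conj (rep (tr (v 0) (v 1) (v 2)))).toMonoidHom.comp rep).comp β.toMonoidHom := by
    apply FreeGroup.ext_hom
    intro i
    show rep (γ (FreeGroup.of i)) = MulAut.conj (rep (tr (v 0) (v 1) (v 2)))
      (rep (β (FreeGroup.of i)))
    rw [MulAut.conj_apply, htr]
    funext l
    rw [Pi.mul_apply, Pi.mul_apply, Pi.inv_apply]
    fin_cases i
    · exact (hv l).1
    · exact (hv l).2
  have h2 := DFunLike.congr_fun hom x
  have h3 : rep (γ x) = MulAut.conj (rep (tr (v 0) (v 1) (v 2))) (rep (β x)) := h2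
  rw [h3, MulAut.conj_apply, map_mul, map_mul, map_inv]

end PromAux

open PromAux

theorem prom (α : MulAut (FreeGroup (Fin 2))) :
    ∃ (k : ℕ) (z : FreeGroup (Fin 2)), 1 ≤ k ∧
      ∀ x, (α ^ k) x * (z * x * z⁻¹)⁻¹ ∈ Subgroup.normalClosure {W1 2, W2 2} := by
  obtain ⟨i, j, hij, hc⟩ : ∃ i j : ℕ, i < j ∧ ∀ (g : Fin 2) (l : Fin 3),
      (rep ((α ^ i) (FreeGroup.of g)) l).e = (rep ((α ^ j) (FreeGroup.of g)) l).e ∧
      ((rep ((α ^ i) (FreeGroup.of g)) l).t : ZMod 4) =
        ((rep ((α ^ j) (FreeGroup.of g)) l).t : ZMod 4) := by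
    obtain ⟨i, j, hij, hc⟩ := Finite.exists_ne_map_eq_of_infinite
      (fun n : ℕ => fun (p : Fin 2 × Fin 3) => ((rep ((α ^ n) (FreeGroup.of p.1)) p.2).e,
        ((rep ((α ^ n) (FreeGroup.of p.1)) p.2).t : ZMod 4)))
    have hc' : ∀ (g : Fin 2) (l : Fin 3),
      (rep ((α ^ i) (FreeGroup.of g)) l).e = (rep ((α ^ j) (FreeGroup.of g)) l).e ∧
      ((rep ((α ^ i) (FreeGroup.of g)) l).t : ZMod 4) =
        ((rep ((α ^ j) (FreeGroup.of g)) l).t : ZMod 4) := by
      intro g l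
      have := congrFun hc (g, l)
      exact Prod.mk.inj this
    rcases lt_or_gt_of_ne hij with h | h
    · exact ⟨i, j, h, hc'⟩
    · exact ⟨j, i, h, fun g l => ⟨(hc' g l).1.symm, (hc' g l).2.symm⟩⟩
  obtain ⟨τ, hτ⟩ := pair_conj (α ^ i) (α ^ j) hc
  refine ⟨j - i, (α ^ i)⁻¹ τ, by omega, fun x => ?_⟩
  apply mem_of_rep
  have h1 : (α ^ j) x = (α ^ i) ((α ^ (j - i)) x) := by
    rw [← MulAut.mul_apply, ← pow_add]
    congr 2
    omega
  have h2 := hτ x
  rw [h1] at h2
  have h3 := inv_rep (α ^ i) h2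
  have h4 : (α ^ i)⁻¹ (τ * (α ^ i) x * τ⁻¹) = (α ^ i)⁻¹ τ * x * ((α ^ i)⁻¹ τ)⁻¹ := by
    rw [map_mul ((α ^ i)⁻¹), map_mul ((α ^ i)⁻¹), map_inv ((α ^ i)⁻¹), MulAut.inv_apply_self]
  rw [map_mul, map_inv, h3, h4, mul_inv_cancel]

end Pool.Agent.BP

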