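import Pool.Agent.Lib.BP.Full
import Pool.Agent.Lib.BP.LinProm
import Pool.Agent.Lib.BP.AbMod
import Pool.Agent.Lib.BP.Prom

/-!
MODULE BP.BaseProm (1.5 h). Rank three: two Promislow quotients of free factors of rank two at the same time.

`V = Fin 3 → ZMod 2`, `p = pm 3 2` (transitive). For an automorphism `σ` the elements `σ (of 0)`, `σ (of 1)`, `σ (of 0 * of 1)` have nonzero images under `ab 3 2` (`ab_aut` for `σ⁻¹`) and their squares have image zero:
`⟨σ (of 0), σ (of 1)⟩` acts on `V` as a free action of `(ℤ/2)²`, orbits of size at least 4.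
Stage 1: `exists_cochain2` with `X = V`, `a₀ = σ 1 (of 0)`, `a₁ = σ 1 (of 1)`, `b i = σ 0 (of i)`, `S = univ`, `c = 0` (`15 * 8 < 4 * (4 * 8)`): a cochain `c` and `H` with `c = dH` on `⟨b⟩`; `loop0` gives `v₀, z`, `e ≠ 0`.
`Rel = {σ 0 W1, σ 0 W2, σ 1 W1, σ 1 W2}`: they act trivially on `V`; `sig p c` vanishes on them (first two by `sig_closure`, the others by construction, `map_mul`, `map_inv`).
`hcount` of `core`: given `W` take `K = |e| * m + 1 > 32 W`, `X = V × ZMod K`, `pX = tr p (c mod K)`, `S = {x | W ≤ x.2.val ∧ x.2.val + W < K}`, `|S| ≥ 8 (K - 2 W)`; `exists_cochain2` with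
`a₀ = σ 0 (of 0)`, `a₁ = σ 0 (of 1)`: the words `a₀ a₀`, `a₁ a₁`, `a₀ a₁ a₀ a₁` act trivially on `X` because they act trivially on `V` and `sig p c w v = H (w v) - H v = 0` (`pi_tr`, `sig_map` for the cast); no fixed points since none on `V`;
`b i = σ 1 (of i)`, orbits at least 4 as on `V`; count `15 * 8 K < 4 * 4 * 8 (K - 2W)`. The result kills `σ 0 W1`, `σ 0 W2` directly, and `σ 1 W1`, `σ 1 W2` by `sig_closure` since they act trivially on `X`.
-/

set_option autoImplicit false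

namespace Pool.Agent.BP

namespace BasePromAux

abbrev V3 := Fin 3 → ZMod 2

theorem ab_of (i : Fin 3) : ab 3 2 (FreeGroup.of i) = Multiplicative.ofAdd (Pi.single i 1) := by
  rw [ab, FreeGroup.lift_apply_of]

theorem sq_one (g : Multiplicative V3) : g * g = 1 := by
  apply Multiplicative.toAdd.injective
  rw [toAdd_mul, toAdd_one]
  funext i
  have h : ∀ a : ZMod 2, a + a = 0 := by decide
  exact h _

theorem ab_sq (w : FreeGroup (Fin 3)) : ab 3 2 (w * w) = 1 := by
  rw [map_mul]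
  exact sq_one _

theorem ab_ne (σ : MulAut (FreeGroup (Fin 3))) (w : FreeGroup (Fin 3)) (h : ab 3 2 w ≠ 1) :
    ab 3 2 (σ w) ≠ 1 := by
  intro h1
  apply h
  have h2 := ab_aut 3 2 σ⁻¹ (σ w) h1
  rwa [MulAut.inv_apply_self] at h2

theorem ab0 : ab 3 2 (FreeGroup.of 0) ≠ 1 := by
  rw [ab_of]
  intro h
  have h1 := congrFun (congrArg Multiplicative.toAdd h) 0
  revert h1
  simp

theorem ab1 : ab 3 2 (FreeGroup.of 1) ≠ 1 := by
  rw [ab_of]
  intro h
  have h1 := congrFun (congrArg Multiplicative.toAdd h) 1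
  revert h1
  simp

theorem ab01 : ab 3 2 (FreeGroup.of 0 * FreeGroup.of 1) ≠ 1 := by
  rw [map_mul, ab_of, ab_of]
  intro h
  have h1 := congrFun (congrArg Multiplicative.toAdd h) 0
  revert h1
  simp

theorem pi_fix (w : FreeGroup (Fin 3)) (h : ab 3 2 w = 1) (v : V3) : pi (pm 3 2) w v = v := by
  rw [pi_pm, h, toAdd_one, add_zero]

theorem pi_move (w : FreeGroup (Fin 3)) (h : ab 3 2 w ≠ 1) (v : V3) : pi (pm 3 2) w v ≠ v := by
  rw [pi_pm]
  intro h1
  apply h
  apply Multiplicative.toAdd.injective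
  rw [toAdd_one]
  exact left_eq_add.1 h1.symm

theorem ab_W1 : ab 3 2 (W1 3) = 1 := by
  unfold W1
  simp only [map_mul, map_inv]
  set x := ab 3 2 (FreeGroup.of 0)
  set y := ab 3 2 (FreeGroup.of 1)
  have hx := sq_one x
  calc y * x * x * y⁻¹ * x * x = (y * y⁻¹) * (x * x) * (x * x) := by
        rw [mul_assoc (y * x * x * y⁻¹), mul_assoc y x x]
        rw [mul_comm (y * (x * x)) y⁻¹, ← mul_assoc y⁻¹ y, mul_comm y⁻¹ y]
    _ = 1 := by rw [hx, mul_inv_cancel, one_mul, one_mul]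

theorem ab_W2 : ab 3 2 (W2 3) = 1 := by
  unfold W2
  simp only [map_mul, map_inv]
  set x := ab 3 2 (FreeGroup.of 1)
  set y := ab 3 2 (FreeGroup.of 0)
  have hx := sq_one x
  calc y * x * x * y⁻¹ * x * x = (y * y⁻¹) * (x * x) * (x * x) := by
        rw [mul_assoc (y * x * x * y⁻¹), mul_assoc y x x]
        rw [mul_comm (y * (x * x)) y⁻¹, ← mul_assoc y⁻¹ y, mul_comm y⁻¹ y]
    _ = 1 := by rw [hx, mul_inv_cancel, one_mul, one_mul]

/-- the generators of the image of the first two generators -/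
def bb (σ : MulAut (FreeGroup (Fin 3))) (i : Fin 2) : FreeGroup (Fin 3) :=
  σ (FreeGroup.of (Fin.castLE (by omega) i))

theorem bb_orb (σ : MulAut (FreeGroup (Fin 3))) (v : V3) :
    4 ≤ Nat.card {y : V3 // ∃ z ∈ Subgroup.closure (Set.range (bb σ)), pi (pm 3 2) z v = y} := by
  have h := orbit_low 3 2 2 (by norm_num) (by norm_num) σ v
  rw [low_map_eq 3 2 (by norm_num) σ] at h
  exact h

theorem mem0 (σ : MulAut (FreeGroup (Fin 3))) :
    σ (FreeGroup.of 0) ∈ Subgroup.closure (Set.range (bb σ)) :=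
  Subgroup.subset_closure ⟨0, rfl⟩

theorem mem1 (σ : MulAut (FreeGroup (Fin 3))) :
    σ (FreeGroup.of 1) ∈ Subgroup.closure (Set.range (bb σ)) :=
  Subgroup.subset_closure ⟨1, rfl⟩

theorem memW1 (σ : MulAut (FreeGroup (Fin 3))) :
    σ (W1 3) ∈ Subgroup.closure (Set.range (bb σ)) := by
  have h0 := mem0 σ
  have h1 := mem1 σ
  unfold W1
  simp only [map_mul, map_inv]
  exact mul_mem (mul_mem (mul_mem (mul_mem (mul_mem h1 h0) h0) (inv_mem h1)) h0) h0

theorem memW2 (σ : MulAut (FreeGroup (Fin 3))) :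
    σ (W2 3) ∈ Subgroup.closure (Set.range (bb σ)) := by
  have h0 := mem0 σ
  have h1 := mem1 σ
  unfold W2
  simp only [map_mul, map_inv]
  exact mul_mem (mul_mem (mul_mem (mul_mem (mul_mem h0 h1) h1) (inv_mem h0)) h1) h1

theorem W1_eq (σ : MulAut (FreeGroup (Fin 3))) : σ (W1 3) =
    σ (FreeGroup.of 1) * σ (FreeGroup.of 0) * σ (FreeGroup.of 0) * (σ (FreeGroup.of 1))⁻¹ *
      σ (FreeGroup.of 0) * σ (FreeGroup.of 0) := by
  unfold W1
  simp only [map_mul, map_inv]

theorem W2_eq (σ : MulAut (FreeGroup (Fin 3))) : σ (W2 3) =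
    σ (FreeGroup.of 0) * σ (FreeGroup.of 1) * σ (FreeGroup.of 1) * (σ (FreeGroup.of 0))⁻¹ *
      σ (FreeGroup.of 1) * σ (FreeGroup.of 1) := by
  unfold W2
  simp only [map_mul, map_inv]

theorem card_win (K W : ℕ) [NeZero K] :
    K - 2 * W ≤ ((Finset.univ : Finset (ZMod K)).filter
      fun t => W ≤ t.val ∧ t.val + W < K).card := by
  have h1 : (Finset.Ico W (K - W)).card = K - 2 * W := by
    rw [Nat.card_Ico]
    omega
  rw [← h1]
  refine Finset.card_le_card_of_injOn (fun t : ℕ => (t : ZMod K)) ?_ ?_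
  · intro t ht
    rw [Finset.mem_coe, Finset.mem_Ico] at ht
    have hv : ((t : ℕ) : ZMod K).val = t := ZMod.val_natCast_of_lt (by omega)
    rw [Finset.mem_coe, Finset.mem_filter]
    refine ⟨Finset.mem_univ _, ?_⟩
    rw [hv]
    omega
  · intro s hs t ht hst
    rw [Finset.mem_coe, Finset.mem_Ico] at hs ht
    have hv : ((s : ℕ) : ZMod K).val = s := ZMod.val_natCast_of_lt (by omega)
    have hv' : ((t : ℕ) : ZMod K).val = t := ZMod.val_natCast_of_lt (by omega)
    have h2 := congrArg ZMod.val hst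
    simp only at h2
    rw [hv, hv'] at h2
    exact h2

end BasePromAux

open BasePromAux

theorem baseProm (σ : Fin 2 → MulAut (FreeGroup (Fin 3))) :
    ∃ R : Subgroup (FreeGroup (Fin 3)), R.Normal ∧ Large R ∧
      ∀ j, σ j (W1 3) ∈ R ∧ σ j (W2 3) ∈ R := by
  classical
  have hc8 : Fintype.card V3 = 8 := by
    rw [Fintype.card_fun, ZMod.card, Fintype.card_fin]
    norm_num
  -- stage 1
  obtain ⟨c, H₀, -, -, hc1, hc2, hc3, hc4⟩ := exists_cochain2 (pm 3 2) (σ 1 (FreeGroup.of 0))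
    (σ 1 (FreeGroup.of 1)) (fun x => pi_fix _ (ab_sq _) x) (fun x => pi_fix _ (ab_sq _) x)
    (fun x => pi_fix _ (ab_sq _) x) (fun x => pi_move _ (ab_ne _ _ ab0) x)
    (fun x => pi_move _ (ab_ne _ _ ab1) x)
    (fun x => pi_move _ (by rw [← map_mul (σ 1)]; exact ab_ne _ _ ab01) x)
    (bb (σ 0)) (bb_orb (σ 0)) Finset.univ (fun _ _ => 0)
    (by rw [Finset.card_univ, hc8]; norm_num)
  have htr : ∀ x y : V3, ∃ w, pi (pm 3 2) w x = y := pm_trans 3 2
  obtain ⟨v₀, z, hz, he⟩ := loop0 (pm 3 2) htr c (by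
    rintro ⟨h, hh⟩
    exact hc4 ⟨h, 0, fun i x => by rw [hh i x]; simp⟩)
  -- the cochain is a coboundary on the image under `σ 0`
  have hcl0 : ∀ w ∈ Subgroup.closure (Set.range (bb (σ 0))), ∀ x,
      sig (pm 3 2) c w x = H₀ (pi (pm 3 2) w x) - H₀ x := fun w hw x =>
    sig_closure (pm 3 2) c _ H₀ (by rintro _ ⟨i, rfl⟩ x; exact hc3 i x) w hw x
  have hsig0 : ∀ w ∈ Subgroup.closure (Set.range (bb (σ 0))), ab 3 2 w = 1 → ∀ x,
      sig (pm 3 2) c w x = 0 := by
    intro w hw hab x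
    rw [hcl0 w hw x, pi_fix w hab, sub_self]
  have hfix : ∀ j, ab 3 2 (σ j (W1 3)) = 1 ∧ ab 3 2 (σ j (W2 3)) = 1 := fun j =>
    ⟨ab_aut 3 2 (σ j) _ ab_W1, ab_aut 3 2 (σ j) _ ab_W2⟩
  have s01 : ∀ x, sig (pm 3 2) c (σ 0 (W1 3)) x = 0 := hsig0 _ (memW1 _) (hfix 0).1
  have s02 : ∀ x, sig (pm 3 2) c (σ 0 (W2 3)) x = 0 := hsig0 _ (memW2 _) (hfix 0).2
  have s11 : ∀ x, sig (pm 3 2) c (σ 1 (W1 3)) x = 0 := by rw [W1_eq]; exact hc1
  have s12 : ∀ x, sig (pm 3 2) c (σ 1 (W2 3)) x = 0 := by rw [W2_eq]; exact hc2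
  set Rel : Set (FreeGroup (Fin 3)) := {σ 0 (W1 3), σ 0 (W2 3), σ 1 (W1 3), σ 1 (W2 3)} with hRel
  have hRel1 : ∀ w ∈ Rel, ab 3 2 w = 1 := by
    intro w hw
    rcases hw with rfl | rfl | rfl | rfl
    · exact (hfix 0).1
    · exact (hfix 0).2
    · exact (hfix 1).1
    · exact (hfix 1).2
  have hRel2 : ∀ w ∈ Rel, ∀ v, sig (pm 3 2) c w v = 0 := by
    intro w hw
    rcases hw with rfl | rfl | rfl | rfl
    · exact s01
    · exact s02
    · exact s11
    · exact s12
  obtain ⟨R, hRn, hRL, hR⟩ := core (pm 3 2) htr c v₀ z hz he Rel (by rw [hRel]; exact Set.toFinite _)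
    (fun w hw v => pi_fix w (hRel1 w hw) v) hRel2 (by
      intro W
      set e := sig (pm 3 2) c z v₀ with he'
      set K : ℕ := e.natAbs * (32 * W + 1) + 1 with hK
      have hen : 1 ≤ e.natAbs := Int.natAbs_pos.2 he
      have hKW : 32 * W < K := by
        rw [hK]
        nlinarith
      have hK0 : 0 < K := by omega
      have : NeZero K := ⟨hK0.ne'⟩
      have hgcd : Int.gcd e K = 1 := by
        have h1 : Int.gcd e (K : ℤ) = Nat.gcd e.natAbs K := by
          rw [Int.gcd, Int.natAbs_natCast]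
        rw [h1, hK]
        have h2 : Nat.Coprime e.natAbs (e.natAbs * (32 * W + 1) + 1) := by
          rw [Nat.coprime_mul_left_add_right]
          exact Nat.coprime_one_right _
        exact h2
      refine ⟨K, hK0, hgcd, ?_⟩
      set cK : Fin 3 → V3 → ZMod K := fun i v => (c i v : ZMod K) with hcK
      have hsigK : ∀ w v, sig (pm 3 2) cK w v = ((sig (pm 3 2) c w v : ℤ) : ZMod K) := fun w v =>
        sig_map (Int.castAddHom (ZMod K)) (pm 3 2) c w v
      have hfixK : ∀ w, ab 3 2 w = 1 → (∀ v, sig (pm 3 2) c w v = 0) →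
          ∀ x : V3 × ZMod K, pi (tr (pm 3 2) cK) w x = x := by
        rintro w hw hs ⟨v, t⟩
        rw [pi_tr, pi_fix w hw, hsigK, hs v, Int.cast_zero, add_zero]
      have hmoveK : ∀ w, ab 3 2 w ≠ 1 → ∀ x : V3 × ZMod K, pi (tr (pm 3 2) cK) w x ≠ x := by
        rintro w hw ⟨v, t⟩ hcon
        rw [pi_tr] at hcon
        exact pi_move w hw v (Prod.ext_iff.1 hcon).1
      have horbK : ∀ x : V3 × ZMod K, 4 ≤ Nat.card {y : V3 × ZMod K //
          ∃ z ∈ Subgroup.closure (Set.range (bb (σ 1))), pi (tr (pm 3 2) cK) z x = y} := by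
        rintro ⟨v, t⟩
        refine (bb_orb (σ 1) v).trans ?_
        refine Nat.card_le_card_of_surjective
          (fun y => (⟨y.1.1, ?_⟩ : {y : V3 //
            ∃ z ∈ Subgroup.closure (Set.range (bb (σ 1))), pi (pm 3 2) z v = y})) ?_
        · obtain ⟨z, hz, hzy⟩ := y.2
          refine ⟨z, hz, ?_⟩
          rw [← hzy, pi_tr]
        · rintro ⟨y, z, hz, hzy⟩
          refine ⟨⟨pi (tr (pm 3 2) cK) z (v, t), z, hz, rfl⟩, ?_⟩
          apply Subtype.ext
          simp only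
          rw [pi_tr]
          exact hzy
      set S : Finset (V3 × ZMod K) := Finset.univ.filter
        fun x => W ≤ x.2.val ∧ x.2.val + W < K with hS
      have hScard : 8 * (K - 2 * W) ≤ S.card := by
        have h1 : S = (Finset.univ : Finset V3) ×ˢ ((Finset.univ : Finset (ZMod K)).filter
            fun t => W ≤ t.val ∧ t.val + W < K) := by
          ext x
          simp [hS]
        rw [h1, Finset.card_product, Finset.card_univ, hc8]
        exact Nat.mul_le_mul_left _ (card_win K W)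
      have hXcard : Fintype.card (V3 × ZMod K) = 8 * K := by
        rw [Fintype.card_prod, hc8, ZMod.card]
      obtain ⟨ψ, H, p1, -, p2, p3, p4, p5⟩ := exists_cochain2 (tr (pm 3 2) cK)
        (σ 0 (FreeGroup.of 0)) (σ 0 (FreeGroup.of 1))
        (hfixK _ (ab_sq _) (hsig0 _ (mul_mem (mem0 _) (mem0 _)) (ab_sq _)))
        (hfixK _ (ab_sq _) (hsig0 _ (mul_mem (mem1 _) (mem1 _)) (ab_sq _)))
        (hfixK _ (ab_sq _) (hsig0 _ (mul_mem (mul_mem (mem0 _) (mem1 _))
          (mul_mem (mem0 _) (mem1 _))) (ab_sq _)))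
        (hmoveK _ (ab_ne _ _ ab0)) (hmoveK _ (ab_ne _ _ ab1))
        (hmoveK _ (by rw [← map_mul (σ 0)]; exact ab_ne _ _ ab01))
        (bb (σ 1)) horbK S (fun i x => c i x.1) (by
          rw [hXcard]
          omega)
      refine ⟨ψ, ?_, ?_, p5⟩
      · intro i x hx
        by_contra hcon
        apply hx
        apply p1 i x
        rw [hS, Finset.mem_filter]
        exact fun h => hcon h.2
      · have hcl1 : ∀ w ∈ Subgroup.closure (Set.range (bb (σ 1))), ab 3 2 w = 1 →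
            (∀ v, sig (pm 3 2) c w v = 0) → ∀ x, sig (tr (pm 3 2) cK) ψ w x = 0 := by
          intro w hw hab hs x
          rw [sig_closure (tr (pm 3 2) cK) ψ _ H (by rintro _ ⟨i, rfl⟩ x; exact p4 i x) w hw x,
            hfixK w hab hs, sub_self]
        intro w hw
        rcases hw with rfl | rfl | rfl | rfl
        · rw [W1_eq]
          exact p2
        · rw [W2_eq]
          exact p3
        · exact hcl1 _ (memW1 _) (hfix 1).1 s11
        · exact hcl1 _ (memW2 _) (hfix 1).2 s12)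
  refine ⟨R, hRn, hRL, fun j => ?_⟩
  have h4 : ∀ j : Fin 2, σ j (W1 3) ∈ Rel ∧ σ j (W2 3) ∈ Rel := by
    intro j
    fin_cases j
    · exact ⟨Or.inl rfl, Or.inr (Or.inl rfl)⟩
    · exact ⟨Or.inr (Or.inr (Or.inl rfl)), Or.inr (Or.inr (Or.inr rfl))⟩
  exact ⟨hR _ (h4 j).1, hR _ (h4 j).2⟩

end Pool.Agent.BP
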