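import Pool.Agent.Lib.BP.PowR

/-!
MODULE BP.Built (1.6 h) (replaces BP.Tri). An automorphism `α` of a group `F` and a subgroup `A` built from blocks `B ∈ 𝓑` by the rules below. If `α` is virtually inner modulo `R₀` on each block which it preserves, then some power of `α` is trivial on `A` modulo a larger normal subgroup `R'` with a large quotient.

First `Built.map_mem : Built 𝓑 A α → ∀ x ∈ A, α x ∈ A` (induction on `Built`; in `join`, `α x = g⁻¹ * (conj g * α) x * g`).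
General identity (induction on `j`): `(MulAut.conj g * α) ^ j = MulAut.conj (P j) * α ^ j` with `P j = g * α g * ... * (α ^ (j - 1)) g`, i.e. `P 0 = 1`, `P (j + 1) = P j * (α ^ j) g`; if `g ∈ A` and `α A ≤ A` then `P j ∈ A`; if moreover `(α x) x⁻¹ ∈ R` for all `x ∈ A`
(`R` normal) then `(α ^ j) x * x⁻¹ ∈ R` for `x ∈ A` and `P j ≡ g ^ j` modulo `R`. (`R` need not be invariant under `α`: always apply the congruence to exact elements of `A`, e.g. `α (α x) ≡ α x ≡ x` because `α x ∈ A`.)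
Induction on `Built` with `R` arbitrary (`generalizing R`):
* `triv`: `k = 1`, `R' = R`. `block`: `hB` gives `k`, `z ∈ B` with `α ^ k ≡ conj z⁻¹` on `B`; write `α ^ k = conj z⁻¹ * δ`, `δ = conj z * α ^ k`, `δ B ≤ B`, `δ ≡ id` on `B`: `(α ^ k) ^ m = conj (P m) * δ ^ m` with `P m ≡ z⁻¹ ^ m`. `large_pow` for `z` gives `m` and `R'`.
* `edge`: induction hypothesis: `α ^ k ≡ id` on `A` modulo `R₁`. `γ = α ^ (2 * k)` satisfies `γ y = U * y * V` with `U, V ∈ A` (every even power of `α` does: induction, first for `α ^ 2`: `α (α y) = α u * v⁻¹ * y * u⁻¹ * α v` in the case of the inverse), `γ ≡ id` on `A`, so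
  `(γ ^ j) y ≡ U ^ j * y * V ^ j` (`γ^(j+1) y = γ^j U * γ^j y * γ^j V`). `large_pow` for `U`, `V` gives `m`, `R'`; then `γ ^ m` is trivial on `A` and on `y`, hence on `A ⊔ zpowers y` (two homomorphisms to the quotient by `R'` which agree on generators).
* `join`: hypothesis for `A`: `k₁, R₁`; for `A'` and `α' = conj g * α` with `R₁`: `k₂, R₂`. With `k = k₁ * k₂`: `α ^ k ≡ id` on `A`, `α' ^ k ≡ id` on `A'`, `α' ^ k = conj (P k) * α ^ k`, `P k ∈ A`. So with `h = (P k)⁻¹ ∈ A`, `γ = α ^ k = conj h * α' ^ k`... then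
  `(α' ^ k) ^ j = conj (Q j) * γ ^ j` with `Q j = h⁻¹ * γ h⁻¹ * ... ∈ A`, `Q j ≡ h⁻¹ ^ j`, so `(γ ^ j) x ≡ h ^ j * x * h⁻¹ ^ j` for `x ∈ A'`. `large_pow` for `h` gives `m`, `R'`; `γ ^ m` is trivial on `A` and on `A'`.
* `inner`: `(conj g * α) ^ k = conj (P k) * α ^ k`, `P k ∈ A`, `γ = α ^ k ≡ id` on `A`; the `m`-th power of it is `conj (Q m) * γ ^ m` with `Q m ≡ (P k) ^ m`; `large_pow` for `P k`.
-/

set_option autoImplicit false

namespace Pool.Agent.BP

/-- Subgroups and automorphisms built from the blocks `B ∈ 𝓑`: the trivial subgroup, a block preserved by `α`, adding one element `y` with `α y = u y^{±1} v`, joining two subgroups, changing `α` by an inner automorphism. -/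
inductive Built {F : Type*} [Group F] (𝓑 : Set (Subgroup F)) : Subgroup F → MulAut F → Prop
  | triv (α : MulAut F) : Built 𝓑 ⊥ α
  | block (B : Subgroup F) (α : MulAut F) : B ∈ 𝓑 → B.map α.toMonoidHom = B → Built 𝓑 B α
  | edge (A : Subgroup F) (α : MulAut F) (y u v : F) : Built 𝓑 A α → u ∈ A → v ∈ A →
      (α y = u * y * v ∨ α y = u * y⁻¹ * v) → Built 𝓑 (A ⊔ Subgroup.zpowers y) α
  | join (A A' : Subgroup F) (α : MulAut F) (g : F) : Built 𝓑 A α → g ∈ A →
      Built 𝓑 A' (MulAut.conj g * α) → Built 𝓑 (A ⊔ A') α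
  | inner (A : Subgroup F) (α : MulAut F) (g : F) : Built 𝓑 A α → g ∈ A →
      Built 𝓑 A (MulAut.conj g * α)

namespace BuiltAux

variable {F : Type*} [Group F]

theorem mk_iff (R : Subgroup F) [R.Normal] (x y : F) :
    x * y⁻¹ ∈ R ↔ QuotientGroup.mk' R x = QuotientGroup.mk' R y := by
  rw [← QuotientGroup.eq_one_iff]
  change QuotientGroup.mk' R (x * y⁻¹) = 1 ↔ _
  rw [map_mul, map_inv, mul_inv_eq_one]

theorem pow_mem_map {α : MulAut F} {A : Subgroup F} (hA : ∀ x ∈ A, α x ∈ A) (j : ℕ) :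
    ∀ x ∈ A, (α ^ j) x ∈ A := by
  induction j with
  | zero => intro x hx; simpa using hx
  | succ j ih =>
    intro x hx
    rw [pow_succ', MulAut.mul_apply]
    exact hA _ (ih x hx)

theorem iter {α : MulAut F} {A R : Subgroup F} [R.Normal] (hA : ∀ x ∈ A, α x ∈ A)
    (h : ∀ x ∈ A, α x * x⁻¹ ∈ R) (j : ℕ) : ∀ x ∈ A, (α ^ j) x * x⁻¹ ∈ R := by
  induction j with
  | zero => intro x _; simp
  | succ j ih =>
    intro x hx
    rw [pow_succ', MulAut.mul_apply, mk_iff, ← (mk_iff R _ _).1 (ih x hx)]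
    exact (mk_iff R _ _).1 (h _ (pow_mem_map hA j x hx))

/-- the products `g * α g * ... * (α ^ (j - 1)) g` -/
def P (g : F) (α : MulAut F) : ℕ → F
  | 0 => 1
  | j + 1 => P g α j * (α ^ j) g

theorem conjP (g : F) (α : MulAut F) (j : ℕ) :
    (MulAut.conj g * α) ^ j = MulAut.conj (P g α j) * α ^ j := by
  induction j with
  | zero => simp [P]
  | succ j ih =>
    rw [pow_succ, ih]
    ext x
    simp only [MulAut.mul_apply, MulAut.conj_apply, P, map_mul, map_inv, mul_inv_rev,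
      pow_succ α j, mul_assoc]

theorem P_mem {g : F} {α : MulAut F} {A : Subgroup F} (hA : ∀ x ∈ A, α x ∈ A) (hg : g ∈ A)
    (j : ℕ) : P g α j ∈ A := by
  induction j with
  | zero => exact A.one_mem
  | succ j ih => exact A.mul_mem ih (pow_mem_map hA j g hg)

theorem P_mod {g : F} {α : MulAut F} {A R : Subgroup F} [R.Normal] (hA : ∀ x ∈ A, α x ∈ A)
    (h : ∀ x ∈ A, α x * x⁻¹ ∈ R) (hg : g ∈ A) (j : ℕ) :
    QuotientGroup.mk' R (P g α j) = QuotientGroup.mk' R g ^ j := by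
  induction j with
  | zero => simp [P]
  | succ j ih =>
    rw [P, map_mul, ih, (mk_iff R _ _).1 (iter hA h j g hg), pow_succ]

theorem lemC {γ : MulAut F} {A R : Subgroup F} [R.Normal] (hR : Large R)
    (hA : ∀ x ∈ A, γ x ∈ A) (h : ∀ x ∈ A, γ x * x⁻¹ ∈ R) {w : F} (hw : w ∈ A) :
    ∃ (m : ℕ) (R' : Subgroup F), 1 ≤ m ∧ R'.Normal ∧ Large R' ∧ R ≤ R' ∧
      ∀ x y : F, ((MulAut.conj w * γ) ^ m) x * y⁻¹ ∈ R' ↔ (γ ^ m) x * y⁻¹ ∈ R' := by
  obtain ⟨m, R', hm, hn, hL, hle, hg⟩ := large_pow R hR ![w]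
  refine ⟨m, R', hm, hn, hL, hle, fun x y => ?_⟩
  have h1 : QuotientGroup.mk' R (P w γ m) = QuotientGroup.mk' R (w ^ m) := by
    rw [P_mod hA h hw, map_pow]
  have h2 : P w γ m * (w ^ m)⁻¹ ∈ R' := hle ((mk_iff R _ _).2 h1)
  have h3 : w ^ m ∈ R' := hg 0
  have h4 : P w γ m ∈ R' := by
    have := R'.mul_mem h2 h3
    simpa using this
  have h5 : QuotientGroup.mk' R' (P w γ m) = 1 := (QuotientGroup.eq_one_iff _).2 h4
  rw [mk_iff, mk_iff, conjP, MulAut.mul_apply, MulAut.conj_apply, map_mul, map_mul, map_inv, h5]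
  simp

theorem map_mem {𝓑 : Set (Subgroup F)} {A : Subgroup F} {α : MulAut F} (h : Built 𝓑 A α) : ∀ x ∈ A, α x ∈ A := by
  induction h with
  | triv α =>
    intro x hx
    rw [Subgroup.mem_bot] at hx
    rw [hx, map_one]
    exact Subgroup.one_mem _
  | block B α _ hα =>
    intro x hx
    have h1 : α x ∈ B.map α.toMonoidHom := ⟨x, hx, rfl⟩
    rwa [hα] at h1
  | edge A α y u v _ hu hv hy ih =>
    have h1 : A ≤ A ⊔ Subgroup.zpowers y := le_sup_left
    have hyz : y ∈ A ⊔ Subgroup.zpowers y :=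
      (le_sup_right : Subgroup.zpowers y ≤ _) (Subgroup.mem_zpowers y)
    have h2 : A ⊔ Subgroup.zpowers y ≤ (A ⊔ Subgroup.zpowers y).comap α.toMonoidHom := by
      refine sup_le (fun x hx => h1 (ih x hx)) ?_
      rw [Subgroup.zpowers_le]
      change α y ∈ A ⊔ Subgroup.zpowers y
      rcases hy with hy | hy <;> rw [hy]
      · exact mul_mem (mul_mem (h1 hu) hyz) (h1 hv)
      · exact mul_mem (mul_mem (h1 hu) (inv_mem hyz)) (h1 hv)
    exact fun x hx => h2 hx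
  | join A A' α g _ hg _ ih ih' =>
    have h1 : A ≤ A ⊔ A' := le_sup_left
    have h1' : A' ≤ A ⊔ A' := le_sup_right
    have h2 : A ⊔ A' ≤ (A ⊔ A').comap α.toMonoidHom := by
      refine sup_le (fun x hx => h1 (ih x hx)) (fun x hx => ?_)
      change α x ∈ A ⊔ A'
      have h3 := ih' x hx
      rw [MulAut.mul_apply, MulAut.conj_apply] at h3
      have h4 := mul_mem (mul_mem (inv_mem (h1 hg)) (h1' h3)) (h1 hg)
      have h5 : g⁻¹ * (g * α x * g⁻¹) * g = α x := by group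
      rwa [h5] at h4
    exact fun x hx => h2 hx
  | inner A α g _ hg ih =>
    intro x hx
    rw [MulAut.mul_apply, MulAut.conj_apply]
    exact mul_mem (mul_mem hg (ih x hx)) (inv_mem hg)

/-- every even power of `α` maps `y` to `U * y * V` -/
theorem edge_even {α : MulAut F} {A : Subgroup F} (hA : ∀ x ∈ A, α x ∈ A) {y u v : F}
    (hu : u ∈ A) (hv : v ∈ A) (hy : α y = u * y * v ∨ α y = u * y⁻¹ * v) (k : ℕ) :
    ∃ U ∈ A, ∃ V ∈ A, ((α ^ 2) ^ k) y = U * y * V := by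
  have hA2 : ∀ x ∈ A, (α ^ 2) x ∈ A := pow_mem_map hA 2
  have h2 : ∃ U ∈ A, ∃ V ∈ A, (α ^ 2) y = U * y * V := by
    rw [sq, MulAut.mul_apply]
    rcases hy with hy | hy
    · refine ⟨α u * u, mul_mem (hA u hu) hu, v * α v, mul_mem hv (hA v hv), ?_⟩
      rw [hy, map_mul, map_mul, hy]
      group
    · refine ⟨α u * v⁻¹, mul_mem (hA u hu) (inv_mem hv), u⁻¹ * α v,
        mul_mem (inv_mem hu) (hA v hv), ?_⟩
      rw [hy, map_mul, map_mul, map_inv, hy]
      group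
  obtain ⟨U, hU, V, hV, h⟩ := h2
  induction k with
  | zero => exact ⟨1, one_mem _, 1, one_mem _, by simp⟩
  | succ k ih =>
    obtain ⟨U', hU', V', hV', h'⟩ := ih
    refine ⟨((α ^ 2) ^ k) U * U', mul_mem (pow_mem_map hA2 k U hU) hU', V' * ((α ^ 2) ^ k) V,
      mul_mem hV' (pow_mem_map hA2 k V hV), ?_⟩
    rw [pow_succ, MulAut.mul_apply, h, map_mul, map_mul, h']
    group

theorem edge_pow {γ : MulAut F} {A R : Subgroup F} [R.Normal] (hA : ∀ x ∈ A, γ x ∈ A)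
    (h : ∀ x ∈ A, γ x * x⁻¹ ∈ R) {y U V : F} (hU : U ∈ A) (hV : V ∈ A) (hy : γ y = U * y * V)
    (j : ℕ) : QuotientGroup.mk' R ((γ ^ j) y) = QuotientGroup.mk' R (U ^ j * y * V ^ j) := by
  induction j with
  | zero => simp
  | succ j ih =>
    rw [pow_succ, MulAut.mul_apply, hy, map_mul, map_mul, map_mul, map_mul, ih,
      (mk_iff R _ _).1 (iter hA h j U hU), (mk_iff R _ _).1 (iter hA h j V hV), map_mul, map_mul,
      map_mul, map_mul, map_pow, map_pow, map_pow, map_pow, pow_succ' (QuotientGroup.mk' R U) j,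
      pow_succ (QuotientGroup.mk' R V) j]
    simp only [mul_assoc]

end BuiltAux

open BuiltAux in
theorem Built.step {F : Type*} [Group F] (𝓑 : Set (Subgroup F)) (R₀ : Subgroup F)
    (hB : ∀ B ∈ 𝓑, ∀ α : MulAut F, B.map α.toMonoidHom = B → ∃ (k : ℕ) (z : F), 1 ≤ k ∧ z ∈ B ∧
      ∀ x ∈ B, (MulAut.conj z * α ^ k) x * x⁻¹ ∈ R₀)
    (A : Subgroup F) (α : MulAut F) (h : Built 𝓑 A α) :
    ∀ (R : Subgroup F), R.Normal → Large R → R₀ ≤ R →
      ∃ (k : ℕ) (R' : Subgroup F), 1 ≤ k ∧ R'.Normal ∧ Large R' ∧ R ≤ R' ∧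
        ∀ x ∈ A, (α ^ k) x * x⁻¹ ∈ R' := by
  induction h with
  | triv α =>
    intro R hn hL _
    refine ⟨1, R, le_rfl, hn, hL, le_rfl, fun x hx => ?_⟩
    rw [Subgroup.mem_bot] at hx
    rw [hx, map_one, inv_one, mul_one]
    exact R.one_mem
  | block B α hBm hα =>
    intro R hn hL hle
    obtain ⟨k, z, hk, hz, hzB⟩ := hB B hBm α hα
    have hαB : ∀ x ∈ B, α x ∈ B := map_mem (Built.block (𝓑 := 𝓑) B α hBm hα)
    have hδB : ∀ x ∈ B, (MulAut.conj z * α ^ k) x ∈ B := by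
      intro x hx
      rw [MulAut.mul_apply, MulAut.conj_apply]
      exact mul_mem (mul_mem hz (pow_mem_map hαB k x hx)) (inv_mem hz)
    obtain ⟨m, R', hm, hn', hL', hle', hC⟩ := lemC hL hδB (fun x hx => hle (hzB x hx))
      (inv_mem hz)
    refine ⟨k * m, R', Nat.mul_pos hk hm, hn', hL', hle', fun x hx => ?_⟩
    have h1 : α ^ k = MulAut.conj z⁻¹ * (MulAut.conj z * α ^ k) := by
      rw [← mul_assoc, ← map_mul, inv_mul_cancel, map_one, one_mul]
    rw [pow_mul, h1, hC]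
    exact hle' (iter hδB (fun x hx => hle (hzB x hx)) m x hx)
  | edge A α y u v hA hu hv hy ih =>
    intro R hn hL hle
    obtain ⟨k, R₁, hk, hn₁, hL₁, hle₁, h₁⟩ := ih R hn hL hle
    have hαA := map_mem hA
    obtain ⟨U, hU, V, hV, hUV⟩ := edge_even hαA hu hv hy k
    have hγ : (α ^ 2) ^ k = (α ^ k) ^ 2 := by rw [← pow_mul, ← pow_mul, mul_comm]
    have hγA : ∀ x ∈ A, ((α ^ 2) ^ k) x ∈ A := pow_mem_map (pow_mem_map hαA 2) k
    have hγR : ∀ x ∈ A, ((α ^ 2) ^ k) x * x⁻¹ ∈ R₁ := by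
      rw [hγ]
      exact iter (pow_mem_map hαA k) h₁ 2
    obtain ⟨m, R', hm, hn', hL', hle', hg⟩ := large_pow R₁ hL₁ ![U, V]
    refine ⟨2 * k * m, R', Nat.mul_pos (Nat.mul_pos two_pos hk) hm, hn', hL', hle₁.trans hle', ?_⟩
    have hU' : U ^ m ∈ R' := hg 0
    have hV' : V ^ m ∈ R' := hg 1
    have h2 : α ^ (2 * k * m) = ((α ^ 2) ^ k) ^ m := by rw [pow_mul, pow_mul]
    rw [h2]
    have h3 : A ⊔ Subgroup.zpowers y ≤ ((QuotientGroup.mk' R').comp
        (((α ^ 2) ^ k) ^ m).toMonoidHom).eqLocus (QuotientGroup.mk' R') := by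
      refine sup_le (fun x hx => ?_) ?_
      · change QuotientGroup.mk' R' ((((α ^ 2) ^ k) ^ m) x) = QuotientGroup.mk' R' x
        rw [← mk_iff]
        exact hle' (iter hγA hγR m x hx)
      · rw [Subgroup.zpowers_le]
        change QuotientGroup.mk' R' ((((α ^ 2) ^ k) ^ m) y) = QuotientGroup.mk' R' y
        have h4 := hle' ((mk_iff R₁ _ _).2 (edge_pow hγA hγR hU hV hUV m))
        rw [mk_iff] at h4
        have h5 : QuotientGroup.mk' R' (U ^ m) = 1 := (QuotientGroup.eq_one_iff _).2 hU'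
        have h6 : QuotientGroup.mk' R' (V ^ m) = 1 := (QuotientGroup.eq_one_iff _).2 hV'
        rw [h4, map_mul, map_mul, h5, h6, one_mul, mul_one]
    intro x hx
    rw [mk_iff]
    exact h3 hx
  | join A A' α g hA hg hA' ih ih' =>
    intro R hn hL hle
    obtain ⟨k₁, R₁, hk₁, hn₁, hL₁, hle₁, h₁⟩ := ih R hn hL hle
    obtain ⟨k₂, R₂, hk₂, hn₂, hL₂, hle₂, h₂⟩ := ih' R₁ hn₁ hL₁ (hle.trans hle₁)
    have hαA := map_mem hA
    have hβA := map_mem hA'
    have hγA : ∀ x ∈ A, (α ^ (k₁ * k₂)) x ∈ A := pow_mem_map hαA _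
    have hγR : ∀ x ∈ A, (α ^ (k₁ * k₂)) x * x⁻¹ ∈ R₂ := by
      intro x hx
      rw [pow_mul]
      exact hle₂ (iter (pow_mem_map hαA k₁) h₁ k₂ x hx)
    have hβR : ∀ x ∈ A', ((MulAut.conj g * α) ^ (k₁ * k₂)) x * x⁻¹ ∈ R₂ := by
      intro x hx
      rw [mul_comm, pow_mul]
      exact iter (pow_mem_map hβA k₂) h₂ k₁ x hx
    obtain ⟨m, R', hm, hn', hL', hle', hC⟩ := lemC hL₂ hγA hγR (P_mem hαA hg (k₁ * k₂))
    refine ⟨k₁ * k₂ * m, R', Nat.mul_pos (Nat.mul_pos hk₁ hk₂) hm, hn', hL', (hle₁.trans hle₂).trans hle', ?_⟩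
    rw [pow_mul]
    have h3 : A ⊔ A' ≤ ((QuotientGroup.mk' R').comp
        ((α ^ (k₁ * k₂)) ^ m).toMonoidHom).eqLocus (QuotientGroup.mk' R') := by
      refine sup_le (fun x hx => ?_) (fun x hx => ?_)
      · change QuotientGroup.mk' R' (((α ^ (k₁ * k₂)) ^ m) x) = QuotientGroup.mk' R' x
        rw [← mk_iff]
        exact hle' (iter hγA hγR m x hx)
      · change QuotientGroup.mk' R' (((α ^ (k₁ * k₂)) ^ m) x) = QuotientGroup.mk' R' x
        rw [← mk_iff, ← hC, ← conjP]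
        exact hle' (iter (pow_mem_map hβA _) hβR m x hx)
    intro x hx
    rw [mk_iff]
    exact h3 hx
  | inner A α g hA hg ih =>
    intro R hn hL hle
    obtain ⟨k, R₁, hk, hn₁, hL₁, hle₁, h₁⟩ := ih R hn hL hle
    have hαA := map_mem hA
    obtain ⟨m, R', hm, hn', hL', hle', hC⟩ := lemC hL₁ (pow_mem_map hαA k) h₁ (P_mem hαA hg k)
    refine ⟨k * m, R', Nat.mul_pos hk hm, hn', hL', hle₁.trans hle', fun x hx => ?_⟩
    rw [pow_mul, conjP, hC]
    exact hle' (iter (pow_mem_map hαA k) h₁ m x hx)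

end Pool.Agent.BP
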