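import Pool.Agent.Lib.BP.Defs

/-!
MODULE BP.Loops (0.9 h). For a transitive action, a cochain whose sums over all loops at one point vanish is a coboundary.

Key lemma (any additive commutative group `A`): if `htr` and `∀ w, pi p w x₀ = x₀ → sig p f w x₀ = 0` then `∃ h : X → A, ∀ i x, f i x = h (p i x) - h x`: choose `w x` with `pi p (w x) x₀ = x`,
`h x = sig p f (w x) x₀`; compare the words `of i * w x` and `w (p i x)` through the loop `(w (p i x))⁻¹ * of i * w x`.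
* `loop0`: contrapositive with `f = ψ` cast to `ℚ` (`sig_map` with `Int.castAddHom ℚ`).
* `loops`: by contradiction, if always equality, take `w₂ = z`: with `a = sig ψ z / sig c z ∈ ℚ` the cochain `ψ - a c` has zero sums on all loops at `x₀` (`sig_add`, `sig_map` with multiplication by `-a`), so it is a coboundary.
* `transK`: `z^j` sends `(v₀, a)` to `(v₀, a + j e)` with `e = sig p c z v₀` a unit mod `K` (`pi_tr`, `sig_map` with `Int.castAddHom (ZMod K)`), so it reaches all `(v₀, *)`; and `htr` moves every point to and from the fibre of `v₀`.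
-/

set_option autoImplicit false

namespace Pool.Agent.BP

/-- a cochain without sums over the loops at one point is a coboundary -/
theorem loops_cob {n : ℕ} {X A : Type*} [AddCommGroup A] (p : Fin n → Equiv.Perm X)
    (htr : ∀ x y, ∃ w, pi p w x = y) (f : Fin n → X → A) (x₀ : X)
    (h0 : ∀ w, pi p w x₀ = x₀ → sig p f w x₀ = 0) :
    ∃ h : X → A, ∀ i x, f i x = h (p i x) - h x := by
  choose w hw using fun x => htr x₀ x
  refine ⟨fun x => sig p f (w x) x₀, fun i x => ?_⟩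
  have hinv : ∀ y, pi p (w y)⁻¹ y = x₀ := fun y => by
    conv_lhs => rw [← hw y]
    rw [hw y]
    have := pi_inv_pi p (w y) x₀
    rwa [hw y] at this
  have h1 : pi p ((w (p i x))⁻¹ * (FreeGroup.of i * w x)) x₀ = x₀ := by
    rw [pi_mul, pi_mul, hw, pi_of, hinv]
  have h2 := h0 _ h1
  rw [sig_mul, sig_mul, pi_mul, hw, pi_of, sig_of, sig_inv, hinv] at h2
  have h3 : f i x = sig p f (w (p i x)) x₀ - sig p f (w x) x₀ := by
    have h4 : f i x + sig p f (w x) x₀ = sig p f (w (p i x)) x₀ := by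
      rw [neg_add_eq_zero] at h2
      exact h2.symm
    rw [← h4]
    abel
  exact h3

theorem loops_cast_sig {n : ℕ} {X : Type*} (p : Fin n → Equiv.Perm X) (ψ : Fin n → X → ℤ)
    (w : FreeGroup (Fin n)) (x : X) :
    sig p (fun i x => (ψ i x : ℚ)) w x = ((sig p ψ w x : ℤ) : ℚ) :=
  sig_map (Int.castAddHom ℚ) p ψ w x

theorem loop0 {n : ℕ} {X : Type*} [Nonempty X] (p : Fin n → Equiv.Perm X)
    (htr : ∀ x y, ∃ w, pi p w x = y) (ψ : Fin n → X → ℤ)
    (hψ : ¬ ∃ h : X → ℚ, ∀ i x, (ψ i x : ℚ) = h (p i x) - h x) :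
    ∃ (x : X) (z : FreeGroup (Fin n)), pi p z x = x ∧ sig p ψ z x ≠ 0 := by
  by_contra hc
  apply hψ
  obtain ⟨x₀⟩ := ‹Nonempty X›
  refine loops_cob p htr (fun i x => (ψ i x : ℚ)) x₀ fun w hw => ?_
  rw [loops_cast_sig]
  by_contra hne
  exact hc ⟨x₀, w, hw, fun h => hne (by rw [h, Int.cast_zero])⟩

theorem loops {n : ℕ} {X : Type*} (p : Fin n → Equiv.Perm X) (htr : ∀ x y, ∃ w, pi p w x = y)
    (ψ c : Fin n → X → ℤ) (x₀ : X) (z : FreeGroup (Fin n)) (hz : pi p z x₀ = x₀)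
    (hcz : sig p c z x₀ ≠ 0)
    (hψ : ¬ ∃ (h : X → ℚ) (a : ℚ), ∀ i x, (ψ i x : ℚ) = h (p i x) - h x + a * c i x) :
    ∃ w₁ w₂, pi p w₁ x₀ = x₀ ∧ pi p w₂ x₀ = x₀ ∧
      sig p ψ w₁ x₀ * sig p c w₂ x₀ ≠ sig p ψ w₂ x₀ * sig p c w₁ x₀ := by
  by_contra hc
  apply hψ
  have hcz' : ((sig p c z x₀ : ℤ) : ℚ) ≠ 0 := Int.cast_ne_zero.2 hcz
  obtain ⟨a, ha⟩ : ∃ a : ℚ, a = ((sig p ψ z x₀ : ℤ) : ℚ) / ((sig p c z x₀ : ℤ) : ℚ) := ⟨_, rfl⟩
  have key := loops_cob p htr (fun i x => (ψ i x : ℚ) + (-a) * (c i x : ℚ)) x₀ fun w hw => by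
    have h1 : sig p ψ w x₀ * sig p c z x₀ = sig p ψ z x₀ * sig p c w x₀ := by
      by_contra hne
      exact hc ⟨w, z, hw, hz, hne⟩
    have h2 : ((sig p ψ w x₀ : ℤ) : ℚ) * ((sig p c z x₀ : ℤ) : ℚ) =
        ((sig p ψ z x₀ : ℤ) : ℚ) * ((sig p c w x₀ : ℤ) : ℚ) := by exact_mod_cast h1
    have h3 : sig p (fun i x => (-a) * (c i x : ℚ)) w x₀ = (-a) * ((sig p c w x₀ : ℤ) : ℚ) :=
      sig_map ((AddMonoidHom.mulLeft (-a)).comp (Int.castAddHom ℚ)) p c w x₀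
    rw [sig_add, loops_cast_sig, h3, ha]
    field_simp
    linarith
  obtain ⟨h, hh⟩ := key
  refine ⟨h, a, fun i x => ?_⟩
  have := hh i x
  linarith

theorem transK {n : ℕ} {V : Type*} (p : Fin n → Equiv.Perm V) (htr : ∀ x y, ∃ w, pi p w x = y)
    (c : Fin n → V → ℤ) (v₀ : V) (z : FreeGroup (Fin n)) (hz : pi p z v₀ = v₀) (K : ℕ)
    (hK : 0 < K) (hco : Int.gcd (sig p c z v₀) K = 1) (x y : V × ZMod K) :
    ∃ w, pi (tr p (fun i v => (c i v : ZMod K))) w x = y := by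
  have : NeZero K := ⟨hK.ne'⟩
  obtain ⟨x1, a⟩ := x
  obtain ⟨y1, b⟩ := y
  obtain ⟨u, hu⟩ := htr x1 v₀
  obtain ⟨v, hv⟩ := htr v₀ y1
  have hcast : ∀ w x, sig p (fun i v => (c i v : ZMod K)) w x = ((sig p c w x : ℤ) : ZMod K) :=
    fun w x => sig_map (Int.castAddHom (ZMod K)) p c w x
  have hpow : ∀ (j : ℕ) (a : ZMod K), pi (tr p (fun i v => (c i v : ZMod K))) (z ^ j) (v₀, a) =
      (v₀, a + j * ((sig p c z v₀ : ℤ) : ZMod K)) := by
    intro j
    induction j with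
    | zero => intro a; simp
    | succ j ih =>
      intro a
      rw [pow_succ, pi_mul, pi_tr p _ z v₀ a, hz, hcast, ih]
      congr 1
      push_cast
      ring
  have hgcd := Int.gcd_eq_gcd_ab (sig p c z v₀) K
  rw [hco] at hgcd
  have hunit : (1 : ZMod K) = ((sig p c z v₀ : ℤ) : ZMod K) *
      ((Int.gcdA (sig p c z v₀) K : ℤ) : ZMod K) := by
    have := congrArg (Int.cast : ℤ → ZMod K) hgcd
    push_cast at this
    rw [ZMod.natCast_self, zero_mul, add_zero] at this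
    simpa using this
  obtain ⟨s, hs⟩ : ∃ s : ZMod K, s = ((sig p c u x1 : ℤ) : ZMod K) := ⟨_, rfl⟩
  obtain ⟨t, ht⟩ : ∃ t : ZMod K, t = ((sig p c v v₀ : ℤ) : ZMod K) := ⟨_, rfl⟩
  obtain ⟨j, hj⟩ : ∃ j : ℕ, (j : ZMod K) =
      (b - a - s - t) * ((Int.gcdA (sig p c z v₀) K : ℤ) : ZMod K) :=
    ⟨_, ZMod.natCast_zmod_val _⟩
  refine ⟨v * (z ^ j * u), ?_⟩
  rw [pi_mul, pi_mul, pi_tr p _ u x1 a, hu, hcast, ← hs, hpow, pi_tr p _ v v₀, hv, hcast, ← ht, hj]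
  congr 1
  calc a + s + (b - a - s - t) * ((Int.gcdA (sig p c z v₀) K : ℤ) : ZMod K) *
        ((sig p c z v₀ : ℤ) : ZMod K) + t
      = a + s + (b - a - s - t) * (((sig p c z v₀ : ℤ) : ZMod K) *
        ((Int.gcdA (sig p c z v₀) K : ℤ) : ZMod K)) + t := by ring
    _ = b := by rw [← hunit]; ring

end Pool.Agent.BP
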