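import Pool.Agent.Lib.BP.WindowB
import Pool.Agent.Lib.BP.Loops

/-!
MODULE BP.Core: from a count of cochains on the finite actions `V × ZMod K` to a normal subgroup containing the relators with a large quotient.
-/

set_option autoImplicit false

namespace Pool.Agent.BP

theorem core {n : ℕ} {V : Type*} [Finite V] (p : Fin n → Equiv.Perm V)
    (htr : ∀ x y, ∃ w, pi p w x = y) (c : Fin n → V → ℤ) (v₀ : V) (z : FreeGroup (Fin n))
    (hz : pi p z v₀ = v₀) (he : sig p c z v₀ ≠ 0) (Rel : Set (FreeGroup (Fin n)))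
    (hfin : Rel.Finite) (h1 : ∀ w ∈ Rel, ∀ v, pi p w v = v) (h2 : ∀ w ∈ Rel, ∀ v, sig p c w v = 0)
    (hcount : ∀ W : ℕ, ∃ K : ℕ, 0 < K ∧ Int.gcd (sig p c z v₀) K = 1 ∧
      ∃ ψ : Fin n → V × ZMod K → ℤ,
        (∀ i x, ψ i x ≠ 0 → W ≤ x.2.val ∧ x.2.val + W < K) ∧
        (∀ w ∈ Rel, ∀ x, sig (tr p (fun i v => (c i v : ZMod K))) ψ w x = 0) ∧
        ¬ ∃ (h : V × ZMod K → ℚ) (a : ℚ), ∀ i x,
          (ψ i x : ℚ) = h (tr p (fun i v => (c i v : ZMod K)) i x) - h x + a * c i x.1) :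
    ∃ R : Subgroup (FreeGroup (Fin n)), R.Normal ∧ Large R ∧ ∀ w ∈ Rel, w ∈ R := by
  classical
  -- bounds
  obtain ⟨C, hC⟩ : ∃ C : ℕ, ∀ i v, |c i v| ≤ (C : ℤ) := by
    have hf : (Set.range (fun q : Fin n × V => (c q.1 q.2).natAbs)).Finite := Set.finite_range _
    obtain ⟨C, hC⟩ := hf.bddAbove
    refine ⟨C, fun i v => ?_⟩
    have h := hC ⟨(i, v), rfl⟩
    simp only at h
    rw [Int.abs_eq_natAbs]
    exact_mod_cast h
  obtain ⟨L, hL⟩ : ∃ L : ℕ, ∀ w ∈ Rel, w.norm ≤ L := by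
    obtain ⟨L, hL⟩ := (hfin.image (fun w => w.norm)).bddAbove
    exact ⟨L, fun w hw => hL ⟨w, hw, rfl⟩⟩
  obtain ⟨K, hK, hco, ψ, hsupp, hrel, hψ⟩ := hcount (2 * (C * L) + 1)
  set cK : Fin n → V → ZMod K := fun i v => (c i v : ZMod K) with hcK
  -- the second cochain on `V × ZMod K`
  have hfst : ∀ i (x : V × ZMod K), (tr p cK i x).1 = p i x.1 := fun i x => rfl
  have hsc : ∀ w (x : V × ZMod K), sig (tr p cK) (fun i x => c i x.1) w x = sig p c w x.1 :=
    fun w x => sig_pull (tr p cK) p Prod.fst hfst c w x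
  have hzK : pi (tr p cK) (z ^ K) (v₀, 0) = (v₀, 0) := by
    have hp : ∀ j : ℕ, pi p (z ^ j) v₀ = v₀ ∧ sig p c (z ^ j) v₀ = j * sig p c z v₀ := by
      intro j
      induction j with
      | zero => simp
      | succ j ih =>
          rw [pow_succ, pi_mul, sig_mul, hz, ih.1, ih.2]
          refine ⟨rfl, ?_⟩
          push_cast
          ring
    rw [pi_tr, (hp K).1]
    have h3 : sig p cK (z ^ K) v₀ = ((sig p c (z ^ K) v₀ : ℤ) : ZMod K) :=
      sig_map (Int.castAddHom (ZMod K)) p c (z ^ K) v₀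
    rw [h3, (hp K).2]
    simp
  have hzc : sig (tr p cK) (fun i x => c i x.1) (z ^ K) (v₀, (0 : ZMod K)) ≠ 0 := by
    have hp : ∀ j : ℕ, pi p (z ^ j) v₀ = v₀ ∧ sig p c (z ^ j) v₀ = j * sig p c z v₀ := by
      intro j
      induction j with
      | zero => simp
      | succ j ih =>
          rw [pow_succ, pi_mul, sig_mul, hz, ih.1, ih.2]
          refine ⟨rfl, ?_⟩
          push_cast
          ring
    rw [hsc, (hp K).2]
    have : (K : ℤ) ≠ 0 := by exact_mod_cast hK.ne'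
    exact mul_ne_zero this he
  obtain ⟨w₁, w₂, hw₁, hw₂, hne⟩ := loops (tr p cK)
    (transK p htr c v₀ z hz K hK hco) ψ (fun i x => c i x.1) (v₀, 0) (z ^ K) hzK hzc hψ
  rw [hsc, hsc] at hne
  refine ⟨_, inferInstance, window_large K hK p c ψ v₀ w₁ w₂ hw₁ hw₂ hne, ?_⟩
  intro w hw
  rw [MonoidHom.mem_ker, act_eq_one_iff]
  rintro ⟨v, a⟩
  constructor
  · rw [pi_tr, h1 w hw, h2 w hw, add_zero]
  · obtain ⟨M, hM⟩ := window K (2 * (C * L) + 1) C hK p c hC ψ hsupp w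
      (by have := Nat.mul_le_mul_left C (hL w hw); omega) v a
    rw [hM, hrel w hw]
    simp

end Pool.Agent.BP
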