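import Mathlib

/-!
Basic definitions for the project `BP` (MP_58757f_al): adding high powers and finite index parts of subgroups to the relators of a free group.

* `Large R`: some finite index subgroup `N` of the group has an epimorphism onto `FreeGroup (Fin 2)` which kills `R` (and contains `R`).
* `pi p`: the action of `FreeGroup (Fin n)` on `X` in which the generator `i` acts by the permutation `p i`.
* `act p l`: the action on `X × G` in which the generator `i` sends `(x, h)` to `(p i x, l i x * h)`.
* `lab p l w x`: the label of the path of the word `w` from `x`, so that `act p l w (x, h) = (pi p w x, lab p l w x * h)`.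
* `sig p ψ w x`: the same with values in an additive commutative group (the sum of `ψ` along the path).
* `tr p c`: the generator `i` acts on `X × A` by `(x, a) ↦ (p i x, a + c i x)`.
-/

set_option autoImplicit false

namespace Pool.Agent.BP

open Function

/-- some finite index subgroup containing `R` maps onto the free group of rank two, killing `R` -/
def Large {F : Type*} [Group F] (R : Subgroup F) : Prop :=
  ∃ (N : Subgroup F) (θ : N →* FreeGroup (Fin 2)), N.FiniteIndex ∧ Surjective θ ∧
    ∀ r ∈ R, ∃ hr : r ∈ N, θ ⟨r, hr⟩ = 1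

theorem Large.mono {F : Type*} [Group F] {R R' : Subgroup F} (h : Large R') (hle : R ≤ R') :
    Large R := by
  obtain ⟨N, θ, h1, h2, h3⟩ := h
  exact ⟨N, θ, h1, h2, fun r hr => h3 r (hle hr)⟩

section action

variable {n : ℕ} {X : Type*}

/-- the action defined by permutations of the generators -/
def pi (p : Fin n → Equiv.Perm X) : FreeGroup (Fin n) →* Equiv.Perm X := FreeGroup.lift p

@[simp] theorem pi_of (p : Fin n → Equiv.Perm X) (i : Fin n) : pi p (FreeGroup.of i) = p i := by
  simp [pi]

theorem pi_mul (p : Fin n → Equiv.Perm X) (u w : FreeGroup (Fin n)) (x : X) :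
    pi p (u * w) x = pi p u (pi p w x) := by
  rw [map_mul]; rfl

@[simp] theorem pi_one (p : Fin n → Equiv.Perm X) (x : X) : pi p 1 x = x := by
  rw [map_one]; rfl

@[simp] theorem pi_inv_pi (p : Fin n → Equiv.Perm X) (w : FreeGroup (Fin n)) (x : X) :
    pi p w⁻¹ (pi p w x) = x := by
  rw [← pi_mul, inv_mul_cancel, pi_one]

@[simp] theorem pi_pi_inv (p : Fin n → Equiv.Perm X) (w : FreeGroup (Fin n)) (x : X) :
    pi p w (pi p w⁻¹ x) = x := by
  rw [← pi_mul, mul_inv_cancel, pi_one]

/-- the permutation `(x, h) ↦ (q x, l x * h)` -/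
def lp {G : Type*} [Group G] (q : Equiv.Perm X) (l : X → G) : Equiv.Perm (X × G) where
  toFun z := (q z.1, l z.1 * z.2)
  invFun z := (q.symm z.1, (l (q.symm z.1))⁻¹ * z.2)
  left_inv z := by simp
  right_inv z := by simp

variable {G : Type*} [Group G]

/-- the labelled action -/
def act (p : Fin n → Equiv.Perm X) (l : Fin n → X → G) : FreeGroup (Fin n) →* Equiv.Perm (X × G) :=
  FreeGroup.lift (fun i => lp (p i) (l i))

/-- the label of a path -/
def lab (p : Fin n → Equiv.Perm X) (l : Fin n → X → G) (w : FreeGroup (Fin n)) (x : X) : G :=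
  (act p l w (x, 1)).2

theorem act_of (p : Fin n → Equiv.Perm X) (l : Fin n → X → G) (i : Fin n) (z : X × G) :
    act p l (FreeGroup.of i) z = (p i z.1, l i z.1 * z.2) := by
  rw [act, FreeGroup.lift_apply_of]; rfl

theorem act_of_inv (p : Fin n → Equiv.Perm X) (l : Fin n → X → G) (i : Fin n) (z : X × G) :
    act p l (FreeGroup.of i)⁻¹ z = ((p i).symm z.1, (l i ((p i).symm z.1))⁻¹ * z.2) := by
  rw [map_inv, act, FreeGroup.lift_apply_of]; rfl

/-- the labelled action commutes with right multiplication and covers the action on `X` -/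
theorem act_aux (p : Fin n → Equiv.Perm X) (l : Fin n → X → G) (w : FreeGroup (Fin n)) :
    ∀ (x : X) (h k : G), (act p l w (x, h)).1 = pi p w x ∧
      act p l w (x, h * k) = ((act p l w (x, h)).1, (act p l w (x, h)).2 * k) := by
  induction w using FreeGroup.induction_on with
  | C1 => intro x h k; simp
  | of i => intro x h k; simp [act_of, mul_assoc]
  | inv_of i _ =>
      intro x h k
      rw [act_of_inv, act_of_inv]
      refine ⟨?_, by simp [mul_assoc]⟩
      rw [map_inv, pi_of]; rfl
  | mul u w hu hw =>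
      intro x h k
      have e : ∀ z, act p l (u * w) z = act p l u (act p l w z) := fun z => by
        rw [map_mul]; rfl
      rw [e, e, (hw x h k).2, pi_mul]
      refine ⟨?_, ?_⟩
      · rw [← (hw x h k).1]
        exact (hu _ _ 1).1
      · exact (hu _ _ k).2

theorem act_apply (p : Fin n → Equiv.Perm X) (l : Fin n → X → G) (w : FreeGroup (Fin n)) (x : X)
    (h : G) : act p l w (x, h) = (pi p w x, lab p l w x * h) := by
  have h1 := act_aux p l w x 1 h
  rw [one_mul] at h1
  rw [h1.2, h1.1]; rfl

theorem lab_mul (p : Fin n → Equiv.Perm X) (l : Fin n → X → G) (u w : FreeGroup (Fin n)) (x : X) :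
    lab p l (u * w) x = lab p l u (pi p w x) * lab p l w x := by
  have e : act p l (u * w) (x, 1) = act p l u (act p l w (x, 1)) := by rw [map_mul]; rfl
  rw [lab, e, act_apply p l w, act_apply p l u, mul_one]

@[simp] theorem lab_one (p : Fin n → Equiv.Perm X) (l : Fin n → X → G) (x : X) :
    lab p l 1 x = 1 := by
  rw [lab, map_one]; rfl

@[simp] theorem lab_of (p : Fin n → Equiv.Perm X) (l : Fin n → X → G) (i : Fin n) (x : X) :
    lab p l (FreeGroup.of i) x = l i x := by
  rw [lab, act_of]; exact mul_one _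

theorem lab_inv (p : Fin n → Equiv.Perm X) (l : Fin n → X → G) (w : FreeGroup (Fin n)) (x : X) :
    lab p l w⁻¹ x = (lab p l w (pi p w⁻¹ x))⁻¹ := by
  have h := lab_mul p l w w⁻¹ x
  rw [mul_inv_cancel, lab_one] at h
  exact eq_inv_of_mul_eq_one_right h.symm

/-- `act p l w` is the identity iff `w` acts trivially on `X` and all labels are trivial -/
theorem act_eq_one_iff (p : Fin n → Equiv.Perm X) (l : Fin n → X → G) (w : FreeGroup (Fin n)) :
    act p l w = 1 ↔ ∀ x, pi p w x = x ∧ lab p l w x = 1 := by
  constructor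
  · intro h x
    have h1 := act_apply p l w x 1
    rw [h, mul_one] at h1
    have h2 : ((x, 1) : X × G) = (pi p w x, lab p l w x) := h1
    exact ⟨(Prod.ext_iff.mp h2).1.symm, (Prod.ext_iff.mp h2).2.symm⟩
  · intro h
    ext1 z
    obtain ⟨x, k⟩ := z
    rw [act_apply, (h x).1, (h x).2, one_mul]; rfl

/-- a cocycle is determined by its values on the generators -/
theorem lab_unique (p : Fin n → Equiv.Perm X) (l : Fin n → X → G)
    (s : FreeGroup (Fin n) → X → G) (hof : ∀ i x, s (FreeGroup.of i) x = l i x)
    (hmul : ∀ u w x, s (u * w) x = s u (pi p w x) * s w x) (w : FreeGroup (Fin n)) (x : X) :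
    s w x = lab p l w x := by
  have h1 : ∀ x, s 1 x = 1 := fun x => by
    have := hmul 1 1 x
    rw [mul_one, pi_one] at this
    exact left_eq_mul.mp this
  have hinv : ∀ w x, s w⁻¹ x = (s w (pi p w⁻¹ x))⁻¹ := fun w x => by
    have h := hmul w w⁻¹ x
    rw [mul_inv_cancel, h1] at h
    exact eq_inv_of_mul_eq_one_right h.symm
  revert x
  induction w using FreeGroup.induction_on with
  | C1 => intro x; rw [h1, lab_one]
  | of i => intro x; rw [hof, lab_of]
  | inv_of i ih => intro x; rw [hinv, lab_inv, ih]
  | mul u w hu hw => intro x; rw [hmul, lab_mul, hu, hw]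

/-- functoriality in `X` -/
theorem pi_equivariant {Y : Type*} (p : Fin n → Equiv.Perm X) (q : Fin n → Equiv.Perm Y) (f : X → Y)
    (hf : ∀ i x, f (p i x) = q i (f x)) (w : FreeGroup (Fin n)) :
    ∀ x, f (pi p w x) = pi q w (f x) := by
  induction w using FreeGroup.induction_on with
  | C1 => intro x; simp
  | of i => intro x; rw [pi_of, pi_of, hf]
  | inv_of i ih =>
      intro x
      have h := ih (pi p (FreeGroup.of i)⁻¹ x)
      rw [pi_pi_inv] at h
      rw [h, pi_inv_pi]
  | mul u w hu hw => intro x; rw [pi_mul, pi_mul, hu, hw]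

/-- labels pulled back along an equivariant map -/
theorem lab_pull {Y : Type*} (p : Fin n → Equiv.Perm X) (q : Fin n → Equiv.Perm Y) (f : X → Y)
    (hf : ∀ i x, f (p i x) = q i (f x)) (l : Fin n → Y → G) (w : FreeGroup (Fin n)) (x : X) :
    lab p (fun i x => l i (f x)) w x = lab q l w (f x) := by
  symm
  refine lab_unique p _ (fun w x => lab q l w (f x)) ?_ ?_ w x
  · intro i x; simp
  · intro u w x
    show lab q l (u * w) (f x) = _
    rw [lab_mul, pi_equivariant p q f hf]

end action

section additive

variable {n : ℕ} {X : Type*} {A : Type*} [AddCommGroup A]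

/-- the sum of `ψ` along the path of `w` from `x` -/
def sig (p : Fin n → Equiv.Perm X) (ψ : Fin n → X → A) (w : FreeGroup (Fin n)) (x : X) : A :=
  Multiplicative.toAdd (lab p (fun i x => Multiplicative.ofAdd (ψ i x)) w x)

theorem sig_mul (p : Fin n → Equiv.Perm X) (ψ : Fin n → X → A) (u w : FreeGroup (Fin n)) (x : X) :
    sig p ψ (u * w) x = sig p ψ u (pi p w x) + sig p ψ w x := by
  rw [sig, lab_mul, toAdd_mul]; rfl

@[simp] theorem sig_one (p : Fin n → Equiv.Perm X) (ψ : Fin n → X → A) (x : X) :
    sig p ψ 1 x = 0 := by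
  rw [sig, lab_one, toAdd_one]

@[simp] theorem sig_of (p : Fin n → Equiv.Perm X) (ψ : Fin n → X → A) (i : Fin n) (x : X) :
    sig p ψ (FreeGroup.of i) x = ψ i x := by
  rw [sig, lab_of, toAdd_ofAdd]

theorem sig_inv (p : Fin n → Equiv.Perm X) (ψ : Fin n → X → A) (w : FreeGroup (Fin n)) (x : X) :
    sig p ψ w⁻¹ x = - sig p ψ w (pi p w⁻¹ x) := by
  rw [sig, lab_inv, toAdd_inv]; rfl

/-- an additive cocycle is determined by its values on the generators -/
theorem sig_unique (p : Fin n → Equiv.Perm X) (ψ : Fin n → X → A)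
    (s : FreeGroup (Fin n) → X → A) (hof : ∀ i x, s (FreeGroup.of i) x = ψ i x)
    (hmul : ∀ u w x, s (u * w) x = s u (pi p w x) + s w x) (w : FreeGroup (Fin n)) (x : X) :
    s w x = sig p ψ w x := by
  have h := lab_unique p (fun i x => Multiplicative.ofAdd (ψ i x))
    (fun w x => Multiplicative.ofAdd (s w x)) (fun i x => by rw [hof])
    (fun u w x => by rw [hmul, ofAdd_add]) w x
  rw [sig, ← h, toAdd_ofAdd]

theorem sig_add (p : Fin n → Equiv.Perm X) (ψ ψ' : Fin n → X → A) (w : FreeGroup (Fin n)) (x : X) :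
    sig p (fun i x => ψ i x + ψ' i x) w x = sig p ψ w x + sig p ψ' w x := by
  symm
  refine sig_unique p _ (fun w x => sig p ψ w x + sig p ψ' w x) (fun i x => by simp) ?_ w x
  intro u w x
  show sig p ψ (u * w) x + sig p ψ' (u * w) x = _
  rw [sig_mul, sig_mul]; abel

/-- additive maps applied to the coefficients -/
theorem sig_map {A' : Type*} [AddCommGroup A'] (g : A →+ A') (p : Fin n → Equiv.Perm X)
    (ψ : Fin n → X → A) (w : FreeGroup (Fin n)) (x : X) :
    sig p (fun i x => g (ψ i x)) w x = g (sig p ψ w x) := by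
  symm
  refine sig_unique p _ (fun w x => g (sig p ψ w x)) (fun i x => by simp) ?_ w x
  intro u w x
  show g (sig p ψ (u * w) x) = _
  rw [sig_mul, map_add]

/-- the sum of a coboundary -/
theorem sig_coboundary (p : Fin n → Equiv.Perm X) (h : X → A) (w : FreeGroup (Fin n)) (x : X) :
    sig p (fun i x => h (p i x) - h x) w x = h (pi p w x) - h x := by
  symm
  refine sig_unique p _ (fun w x => h (pi p w x) - h x) (fun i x => by simp) ?_ w x
  intro u w x
  show h (pi p (u * w) x) - h x = _
  rw [pi_mul]; abel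

theorem sig_zero (p : Fin n → Equiv.Perm X) (w : FreeGroup (Fin n)) (x : X) :
    sig p (fun _ _ => (0 : A)) w x = 0 := by
  symm
  exact sig_unique p _ (fun _ _ => 0) (fun i x => rfl) (fun u w x => by simp) w x

/-- sums pulled back along an equivariant map -/
theorem sig_pull {Y : Type*} (p : Fin n → Equiv.Perm X) (q : Fin n → Equiv.Perm Y) (f : X → Y)
    (hf : ∀ i x, f (p i x) = q i (f x)) (ψ : Fin n → Y → A) (w : FreeGroup (Fin n)) (x : X) :
    sig p (fun i x => ψ i (f x)) w x = sig q ψ w (f x) := by
  rw [sig, sig, lab_pull p q f hf (fun i y => Multiplicative.ofAdd (ψ i y))]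

/-- the action on `X × A` by `(x, a) ↦ (p i x, a + c i x)` -/
def tr (p : Fin n → Equiv.Perm X) (c : Fin n → X → A) (i : Fin n) : Equiv.Perm (X × A) where
  toFun z := (p i z.1, z.2 + c i z.1)
  invFun z := ((p i).symm z.1, z.2 - c i ((p i).symm z.1))
  left_inv z := by simp
  right_inv z := by simp

@[simp] theorem tr_apply (p : Fin n → Equiv.Perm X) (c : Fin n → X → A) (i : Fin n) (z : X × A) :
    tr p c i z = (p i z.1, z.2 + c i z.1) := rfl

theorem pi_tr (p : Fin n → Equiv.Perm X) (c : Fin n → X → A) (w : FreeGroup (Fin n)) :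
    ∀ (x : X) (a : A), pi (tr p c) w (x, a) = (pi p w x, a + sig p c w x) := by
  induction w using FreeGroup.induction_on with
  | C1 => intro x a; simp
  | of i => intro x a; simp
  | inv_of i ih =>
      intro x a
      have h := ih (pi p (FreeGroup.of i)⁻¹ x) (a + sig p c (FreeGroup.of i)⁻¹ x)
      rw [pi_pi_inv, sig_inv, neg_add_cancel_right] at h
      rw [← h, pi_inv_pi, sig_inv]
  | mul u w hu hw =>
      intro x a
      rw [pi_mul, hw, hu, pi_mul, sig_mul, add_assoc, add_comm (sig p c w x)]

end additive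

end Pool.Agent.BP
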