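import Pool.Agent.Lib.BP.LinB

/-!
MODULE BP.LinFull (1.3 h). Cochains which are coboundaries on each of the subgroups `B_j = closure (range (b j))`.

Take `E = (Fin n → S → ℚ) × (Fin q → S → ℚ)` (extended by zero outside `S` to `ψ`, `H`), dimension `(n + q) * |S|`. `T : E → ((j : Fin q) → Fin (r j) → X → ℚ)`, `T (ψ, H) j i x = sig ψ (b j i) x - (H j (b j i x) - H j x)`
(linear: `sigLin`), rank at most `Σ r_j |X|`. `pr (ψ, H) = ψ` (extended), `D = excl p c` (dimension at most `|X|`). Kernel of `T` and `pr`: `ψ = 0`, so each `H j` is invariant under every `b j i`, hence under `B_j`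
(closure induction), it embeds in the product of the `inv p B_j`, so its dimension `k` satisfies `(q + 1) * k ≤ q * |X|` (`finrank_inv` with `m = q + 1`). Use `exists_outside` with
`t = Σ r_j * |X|`, `d = |X|`, `k = (q * |X|) / (q + 1)`; `hcount` gives the inequality. Then `clear_denoms` for the finite family of all values of `ψ` and `H`: multiply by `N > 0`
(`sig_map` for the cast `ℤ → ℚ` and for the multiplication by `N`; a multiple `N ψ` in `excl` would give `ψ ∈ excl`).
-/

set_option autoImplicit false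

namespace Pool.Agent.BP

namespace LinFullAux

open Classical in
/-- extension by zero -/
noncomputable def ex {X : Type*} (S : Finset X) : (S → ℚ) →ₗ[ℚ] (X → ℚ) where
  toFun f x := if h : x ∈ S then f ⟨x, h⟩ else 0
  map_add' f g := by
    funext x
    by_cases h : x ∈ S <;> simp [h]
  map_smul' a f := by
    funext x
    by_cases h : x ∈ S <;> simp [h]

theorem ex_of_notMem {X : Type*} (S : Finset X) (f : S → ℚ) {x : X} (h : x ∉ S) :
    ex S f x = 0 := by
  simp [ex, h]

theorem ex_inj {X : Type*} (S : Finset X) {f : S → ℚ} (h : ∀ x, ex S f x = 0) : f = 0 := by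
  funext x
  have := h x
  simpa [ex] using this

section maps

variable {n q : ℕ} {X : Type*} (p : Fin n → Equiv.Perm X) (r : Fin q → ℕ)
  (b : (j : Fin q) → Fin (r j) → FreeGroup (Fin n)) (S : Finset X)

/-- the cochain -/
noncomputable def prm : ((Fin n → S → ℚ) × (Fin q → S → ℚ)) →ₗ[ℚ] (Fin n → X → ℚ) :=
  LinearMap.pi fun i => ex S ∘ₗ LinearMap.proj i ∘ₗ LinearMap.fst ℚ _ _

theorem prm_apply (e : (Fin n → S → ℚ) × (Fin q → S → ℚ)) (i : Fin n) :
    prm (n := n) (q := q) S e i = ex S (e.1 i) := rfl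

/-- the conditions -/
noncomputable def TT : ((Fin n → S → ℚ) × (Fin q → S → ℚ)) →ₗ[ℚ]
    ((j : Fin q) → Fin (r j) → X → ℚ) where
  toFun e j i x := sigLin p (b j i) x (prm (n := n) (q := q) S e) -
    (ex S (e.2 j) (pi p (b j i) x) - ex S (e.2 j) x)
  map_add' e e' := by
    funext j i x
    simp only [map_add, Prod.snd_add, Pi.add_apply]
    ring
  map_smul' a e := by
    funext j i x
    simp only [map_smul, Prod.smul_snd, Pi.smul_apply, smul_eq_mul, RingHom.id_apply]
    ring

theorem TT_apply (e : (Fin n → S → ℚ) × (Fin q → S → ℚ)) (j : Fin q) (i : Fin (r j)) (x : X) :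
    TT p r b S e j i x = sig p (prm (n := n) (q := q) S e) (b j i) x -
      (ex S (e.2 j) (pi p (b j i) x) - ex S (e.2 j) x) := rfl

theorem mem_inv {f : X → ℚ} {k : ℕ} (g : Fin k → FreeGroup (Fin n))
    (h : ∀ i x, f (pi p (g i) x) = f x) : f ∈ inv p (Subgroup.closure (Set.range g)) := by
  intro z hz
  induction hz using Subgroup.closure_induction with
  | mem z hz =>
    obtain ⟨i, rfl⟩ := hz
    exact h i
  | one => intro x; rw [pi_one]
  | mul u w _ _ hu hw => intro x; rw [pi_mul, hu, hw]
  | inv u _ hu =>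
    intro x
    have := hu (pi p u⁻¹ x)
    rw [pi_pi_inv] at this
    exact this.symm

theorem ker_bound [Fintype X] : Module.finrank ℚ (LinearMap.ker (TT p r b S) ⊓
      LinearMap.ker (prm (n := n) (q := q) S) :
      Submodule ℚ ((Fin n → S → ℚ) × (Fin q → S → ℚ))) ≤
    ∑ j, Module.finrank ℚ (inv p (Subgroup.closure (Set.range (b j)))) := by
  set K : Submodule ℚ ((Fin n → S → ℚ) × (Fin q → S → ℚ)) :=
    LinearMap.ker (TT p r b S) ⊓ LinearMap.ker (prm (n := n) (q := q) S) with hK
  have hpr : ∀ e ∈ K, prm (n := n) (q := q) S e = 0 := fun e he => LinearMap.mem_ker.1 he.2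
  have hmem : ∀ e ∈ K, ∀ j, ex S (e.2 j) ∈ inv p (Subgroup.closure (Set.range (b j))) := by
    intro e he j
    refine mem_inv p (b j) fun i x => ?_
    have h1 : TT p r b S e = 0 := LinearMap.mem_ker.1 he.1
    have h2 := congrFun (congrFun (congrFun h1 j) i) x
    rw [TT_apply, hpr e he] at h2
    have h3 : sig p (0 : Fin n → X → ℚ) (b j i) x = 0 := sig_zero p (b j i) x
    rw [h3] at h2
    have h4 : (0 : ℚ) - (ex S (e.2 j) (pi p (b j i) x) - ex S (e.2 j) x) = 0 := h2
    linarith
  let ρ : K →ₗ[ℚ] ((j : Fin q) → inv p (Subgroup.closure (Set.range (b j)))) :=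
    LinearMap.pi fun j => LinearMap.codRestrict (inv p (Subgroup.closure (Set.range (b j))))
      (ex S ∘ₗ LinearMap.proj j ∘ₗ LinearMap.snd ℚ _ _ ∘ₗ K.subtype)
      (fun e => hmem e.1 e.2 j)
  have hρ : Function.Injective ρ := by
    rw [injective_iff_map_eq_zero]
    intro e he
    have h2 : ∀ j, e.1.2 j = 0 := by
      intro j
      have h3 := congrFun he j
      have h4 : ex S (e.1.2 j) = 0 := congrArg Subtype.val h3
      exact ex_inj S fun x => congrFun h4 x
    have h1 : ∀ i, e.1.1 i = 0 := by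
      intro i
      have h3 := congrFun (hpr e.1 e.2) i
      rw [prm_apply] at h3
      exact ex_inj S fun x => congrFun h3 x
    apply Subtype.ext
    exact Prod.ext (funext h1) (funext h2)
  have h := LinearMap.finrank_le_finrank_of_injective hρ
  rwa [Module.finrank_pi_fintype] at h

theorem range_bound [Fintype X] :
    Module.finrank ℚ (LinearMap.range (TT p r b S)) ≤ (∑ j, r j) * Fintype.card X := by
  refine (Submodule.finrank_le _).trans (le_of_eq ?_)
  rw [Module.finrank_pi_fintype, Finset.sum_mul]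
  refine Finset.sum_congr rfl fun j _ => ?_
  rw [Module.finrank_pi_fintype]
  simp

end maps

end LinFullAux

open LinFullAux in
theorem exists_cochain {n q : ℕ} {X : Type*} [Fintype X] [Nonempty X] (p : Fin n → Equiv.Perm X)
    (r : Fin q → ℕ) (b : (j : Fin q) → Fin (r j) → FreeGroup (Fin n))
    (horb : ∀ j x, q + 1 ≤ Nat.card
      {y : X // ∃ z ∈ Subgroup.closure (Set.range (b j)), pi p z x = y})
    (S : Finset X) (c : Fin n → X → ℤ)
    (hcount : (q + 1) * ((∑ j, r j + 1) * Fintype.card X) + q * Fintype.card X <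
      (q + 1) * ((n + q) * S.card)) :
    ∃ (ψ : Fin n → X → ℤ) (H : Fin q → X → ℤ), (∀ i, ∀ x ∉ S, ψ i x = 0) ∧
      (∀ j, ∀ x ∉ S, H j x = 0) ∧
      (∀ j i x, sig p ψ (b j i) x = H j (pi p (b j i) x) - H j x) ∧
      ¬ ∃ (h : X → ℚ) (a : ℚ), ∀ i x, (ψ i x : ℚ) = h (p i x) - h x + a * c i x := by
  set k : ℕ := ∑ j, Module.finrank ℚ (inv p (Subgroup.closure (Set.range (b j)))) with hk
  have hk1 : (q + 1) * k ≤ q * Fintype.card X := by
    rw [hk, Finset.mul_sum]
    calc ∑ j, (q + 1) * Module.finrank ℚ (inv p (Subgroup.closure (Set.range (b j))))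
        ≤ ∑ _j : Fin q, Fintype.card X :=
          Finset.sum_le_sum fun j _ => finrank_inv p _ (q + 1) (horb j)
      _ = q * Fintype.card X := by simp
  have hE : Module.finrank ℚ ((Fin n → S → ℚ) × (Fin q → S → ℚ)) = (n + q) * S.card := by
    have hf : ∀ m : ℕ, Module.finrank ℚ (Fin m → S → ℚ) = m * S.card := by
      intro m
      rw [Module.finrank_pi_fintype]
      simp
    rw [Module.finrank_prod, hf, hf]
    ring
  have hlt : (∑ j, r j) * Fintype.card X + Fintype.card X + k <
      Module.finrank ℚ ((Fin n → S → ℚ) × (Fin q → S → ℚ)) := by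
    rw [hE]
    have h1 : (q + 1) * ((∑ j, r j) * Fintype.card X + Fintype.card X + k) <
        (q + 1) * ((n + q) * S.card) := by
      calc (q + 1) * ((∑ j, r j) * Fintype.card X + Fintype.card X + k)
          = (q + 1) * ((∑ j, r j + 1) * Fintype.card X) + (q + 1) * k := by ring
        _ ≤ (q + 1) * ((∑ j, r j + 1) * Fintype.card X) + q * Fintype.card X :=
          Nat.add_le_add_left hk1 _
        _ < _ := hcount
    exact lt_of_mul_lt_mul_left h1 (Nat.zero_le _)
  obtain ⟨e, he1, he2⟩ := exists_outside (TT p r b S) (prm (n := n) (q := q) S)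
    (excl p fun i x => (c i x : ℚ)) _ _ _ (range_bound p r b S) (finrank_excl p _)
    (ker_bound p r b S) hlt
  obtain ⟨N, g, hN, hg⟩ := clear_denoms (I := (Fin n × X) ⊕ (Fin q × X))
    (fun z => Sum.elim (fun z => prm (n := n) (q := q) S e z.1 z.2)
      (fun z => ex S (e.2 z.1) z.2) z)
  have hg1 : ∀ i x, (g (Sum.inl (i, x)) : ℚ) = N * prm (n := n) (q := q) S e i x :=
    fun i x => hg (Sum.inl (i, x))
  have hg2 : ∀ j x, (g (Sum.inr (j, x)) : ℚ) = N * ex S (e.2 j) x :=
    fun j x => hg (Sum.inr (j, x))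
  have hN0 : (N : ℚ) ≠ 0 := by exact_mod_cast hN.ne'
  refine ⟨fun i x => g (Sum.inl (i, x)), fun j x => g (Sum.inr (j, x)), ?_, ?_, ?_, ?_⟩
  · intro i x hx
    have h1 := hg1 i x
    rw [prm_apply, ex_of_notMem S _ hx, mul_zero] at h1
    exact_mod_cast h1
  · intro j x hx
    have h1 := hg2 j x
    rw [ex_of_notMem S _ hx, mul_zero] at h1
    exact_mod_cast h1
  · intro j i x
    have h1 := congrFun (congrFun (congrFun he1 j) i) x
    rw [TT_apply] at h1
    have h2 : sig p (prm (n := n) (q := q) S e) (b j i) x =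
        ex S (e.2 j) (pi p (b j i) x) - ex S (e.2 j) x := sub_eq_zero.1 h1
    have h3 : ((sig p (fun i x => g (Sum.inl (i, x))) (b j i) x : ℤ) : ℚ) =
        sig p (fun i x => (g (Sum.inl (i, x)) : ℚ)) (b j i) x :=
      (sig_map (Int.castAddHom ℚ) p (fun i x => g (Sum.inl (i, x))) (b j i) x).symm
    have h4 : sig p (fun i x => (g (Sum.inl (i, x)) : ℚ)) (b j i) x =
        N * sig p (prm (n := n) (q := q) S e) (b j i) x := by
      have e1 : (fun (i : Fin n) (x : X) => (g (Sum.inl (i, x)) : ℚ)) =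
          fun i x => AddMonoidHom.mulLeft (N : ℚ) (prm (n := n) (q := q) S e i x) := by
        funext i x
        exact hg1 i x
      rw [e1, sig_map]
      rfl
    have h5 : ((sig p (fun i x => g (Sum.inl (i, x))) (b j i) x : ℤ) : ℚ) =
        ((g (Sum.inr (j, pi p (b j i) x)) - g (Sum.inr (j, x)) : ℤ) : ℚ) := by
      rw [h3, h4, h2]
      push_cast
      rw [hg2, hg2]
      ring
    exact_mod_cast h5
  · rintro ⟨h, a, ha⟩
    apply he2
    refine ⟨fun x => h x / N, a / N, fun i x => ?_⟩
    have h1 := ha i x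
    rw [hg1] at h1
    have h2 : prm (n := n) (q := q) S e i x = (h (p i x) - h x + a * (c i x : ℚ)) / N := by
      rw [eq_div_iff hN0, mul_comm]
      exact h1
    rw [h2]
    ring

end Pool.Agent.BP
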