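import Pool.Agent.Lib.BP.Core
import Pool.Agent.Lib.BP.LinFull

/-!
MODULE BP.Full (1.5 h). `bp`: the finite index parts of finitely many finitely generated subgroups can be added to the relators if the ranks are small.

* `sig_closure`: closure induction (`sig_mul`, `sig_inv`, `pi_mul`).
* `bp`. Write `B_j = closure (range (b j))`. If `q = 0`: the statement is needed too (`n ≥ 2`), the argument below works.
  Stage 1: `exists_cochain` with `X = V`, `S = univ`, `c = 0` gives `c := ψ` and `H₀` with `c` not a coboundary over `ℚ`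
  (count: `(q+1)((Σ r + 1)|V|) + q |V| < (q+1)(n+q)|V|` because `Σ r + 2 ≤ n + q`); `loop0` gives `v₀`, `z` with `pi p z v₀ = v₀`, `e = sig p c z v₀ ≠ 0`.
  `Rel` = union over `j` of a finite set of generators of `B_j ⊓ ker (pi p)` (finitely generated: finite index in the finitely generated group `B_j`, `Subgroup.fg_of_index_ne_zero`, then map by the inclusion; `Set.finite_iUnion`).
  `h1` clear, `h2`: `sig p c w v = H₀ j (w v) - H₀ j v = 0`.
  `hcount`: given `W` take `K = |e| * m + 1 > 2 W (n+q)(q+1)` and `> 2 W` (gcd with `e` is one), `X = V × ZMod K`, `pX = tr p (c mod K)`, `S = {x | W ≤ x.2.val ∧ x.2.val + W < K}`, `|S| = |V| (K - 2W)` (only `≥` needed),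
  the orbits of `B_j` on `X` have at least `q+1` elements since they map onto those on `V` (`pi_tr`, `Nat.card_le_card_of_surjective`), the count: with `D = n + q ≥ Σ r + 2`:
  left side `≤ |V| K ((q+1) D - 1) < |V| (K - 2W) (q+1) D`. The relators `w ∈ B_j` act trivially on `X` (`pi_tr`, `h2`, `sig_map` for the cast), so `sig pX ψ w x = H j (w x) - H j x = 0` by `sig_closure`.
  Finally for `z ∈ B_j` acting trivially on `V`: `z ∈ B_j ⊓ ker (pi p) = closure (generators) ≤ R`.
-/

set_option autoImplicit false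

namespace Pool.Agent.BP

theorem sig_closure {n : ℕ} {X : Type*} {A : Type*} [AddCommGroup A] (p : Fin n → Equiv.Perm X)
    (ψ : Fin n → X → A) (s : Set (FreeGroup (Fin n))) (H : X → A)
    (h : ∀ w ∈ s, ∀ x, sig p ψ w x = H (pi p w x) - H x) (w : FreeGroup (Fin n))
    (hw : w ∈ Subgroup.closure s) (x : X) : sig p ψ w x = H (pi p w x) - H x := by
  revert x
  induction hw using Subgroup.closure_induction with
  | mem w hw => exact h w hw
  | one => intro x; simp
  | mul u w _ _ hu hw => intro x; rw [sig_mul, pi_mul, hu, hw]; abel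
  | inv w _ hw => intro x; rw [sig_inv, hw, pi_pi_inv]; abel

namespace FullAux

theorem count_ineq {q s D v K' W S : ℕ} (hs : s + 2 ≤ D) (hv : 0 < v)
    (hK : 2 * W * ((q + 1) * D) < K') (hS : v * (K' - 2 * W) ≤ S) :
    (q + 1) * ((s + 1) * (v * K')) + q * (v * K') < (q + 1) * (D * S) := by
  obtain ⟨D', rfl⟩ := Nat.exists_eq_add_of_le hs
  have h2W : 2 * W ≤ K' := by
    have : 2 * W * 1 ≤ 2 * W * ((q + 1) * (s + 2 + D')) :=
      Nat.mul_le_mul_left _ (Nat.one_le_iff_ne_zero.2 (by positivity))
    omega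
  obtain ⟨K₁, rfl⟩ := Nat.exists_eq_add_of_le h2W
  rw [Nat.add_sub_cancel_left] at hS
  have h1 : (q + 1) * ((s + 2 + D') * (v * K₁)) ≤ (q + 1) * ((s + 2 + D') * S) :=
    Nat.mul_le_mul_left _ (Nat.mul_le_mul_left _ hS)
  refine lt_of_lt_of_le ?_ h1
  have h3 : v * (2 * W * ((q + 1) * (s + 2 + D'))) < v * (2 * W + K₁) :=
    Nat.mul_lt_mul_of_pos_left hK hv
  nlinarith [Nat.zero_le ((q + 1) * (D' * (v * (2 * W + K₁))))]

theorem card_A {K W : ℕ} [NeZero K] :
    K - 2 * W ≤ (Finset.univ.filter fun a : ZMod K => W ≤ a.val ∧ a.val + W < K).card := by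
  have h := Finset.card_le_card_of_injOn (s := Finset.range (K - 2 * W))
    (t := Finset.univ.filter fun a : ZMod K => W ≤ a.val ∧ a.val + W < K)
    (fun k => ((k + W : ℕ) : ZMod K)) (by
      intro k hk
      have hk' : k < K - 2 * W := Finset.mem_range.1 hk
      have hv : ((k + W : ℕ) : ZMod K).val = k + W := ZMod.val_cast_of_lt (by omega)
      rw [Finset.mem_coe, Finset.mem_filter, hv]
      exact ⟨Finset.mem_univ _, by omega, by omega⟩) (by
      intro k hk k' hk' he
      have hk1 : k < K - 2 * W := Finset.mem_range.1 hk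
      have hk2 : k' < K - 2 * W := Finset.mem_range.1 hk'
      have hv : ((k + W : ℕ) : ZMod K).val = k + W := ZMod.val_cast_of_lt (by omega)
      have hv' : ((k' + W : ℕ) : ZMod K).val = k' + W := ZMod.val_cast_of_lt (by omega)
      have h3 := congrArg ZMod.val he
      simp only at h3
      rw [hv, hv'] at h3
      omega)
  rwa [Finset.card_range] at h

end FullAux

open FullAux in
theorem bp {n q : ℕ} {V : Type} [Finite V] [Nonempty V] (p : Fin n → Equiv.Perm V)
    (htr : ∀ x y, ∃ w, pi p w x = y) (r : Fin q → ℕ)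
    (b : (j : Fin q) → Fin (r j) → FreeGroup (Fin n))
    (horb : ∀ j x, q + 1 ≤ Nat.card
      {y : V // ∃ z ∈ Subgroup.closure (Set.range (b j)), pi p z x = y})
    (hcost : ∑ j, r j + 2 ≤ n + q) :
    ∃ R : Subgroup (FreeGroup (Fin n)), R.Normal ∧ Large R ∧
      ∀ j, ∀ z ∈ Subgroup.closure (Set.range (b j)), (∀ v, pi p z v = v) → z ∈ R := by
  classical
  have : Fintype V := Fintype.ofFinite V
  have hv : 0 < Fintype.card V := Fintype.card_pos
  -- stage one
  obtain ⟨c, H₀, _, _, hc3, hc4⟩ := exists_cochain p r b horb Finset.univ (fun _ _ => 0) (by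
    have h := count_ineq (q := q) (s := ∑ j, r j) (D := n + q) (v := Fintype.card V) (K' := 1)
      (W := 0) (S := Fintype.card V) hcost hv (by omega) (by omega)
    rw [mul_one] at h
    rw [Finset.card_univ]
    exact h)
  obtain ⟨v₀, z, hz, he⟩ := loop0 p htr c (by
    rintro ⟨h, hh⟩
    exact hc4 ⟨h, 0, fun i x => by rw [hh]; simp⟩)
  have hcB : ∀ j, ∀ w ∈ Subgroup.closure (Set.range (b j)), ∀ v,
      sig p c w v = H₀ j (pi p w v) - H₀ j v := by
    intro j w hw v
    refine sig_closure p c (Set.range (b j)) (H₀ j) ?_ w hw v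
    rintro _ ⟨i, rfl⟩ x
    exact hc3 j i x
  -- the relators
  have hT : ∀ j, ∃ T : Finset (FreeGroup (Fin n)), Subgroup.closure (T : Set (FreeGroup (Fin n))) =
      Subgroup.closure (Set.range (b j)) ⊓ (pi p).ker := by
    intro j
    set B := Subgroup.closure (Set.range (b j)) with hB
    have hBfg : Group.FG B := (Group.fg_iff_subgroup_fg B).2
      ((Subgroup.fg_iff B).2 ⟨_, rfl, Set.finite_range _⟩)
    have hki : (pi p).ker.FiniteIndex := Subgroup.finiteIndex_ker _
    have hki' : ((pi p).ker.subgroupOf B).FiniteIndex := inferInstance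
    have hfg : Group.FG ((pi p).ker.subgroupOf B) := inferInstance
    have hfg2 : ((pi p).ker.subgroupOf B).FG := (Group.fg_iff_subgroup_fg _).1 hfg
    obtain ⟨Tf, hTf⟩ := hfg2
    refine ⟨Tf.image B.subtype, ?_⟩
    rw [Finset.coe_image, ← MonoidHom.map_closure, hTf, Subgroup.subgroupOf_map_subtype, inf_comm]
  choose T hT using hT
  have hTB : ∀ j, ∀ w ∈ T j, w ∈ Subgroup.closure (Set.range (b j)) ∧ ∀ v, pi p w v = v := by
    intro j w hw
    have h1 : w ∈ Subgroup.closure (Set.range (b j)) ⊓ (pi p).ker := by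
      rw [← hT j]
      exact Subgroup.subset_closure (Finset.mem_coe.2 hw)
    refine ⟨h1.1, fun v => ?_⟩
    have h2 : pi p w = 1 := h1.2
    rw [h2]
    rfl
  have hrelc : ∀ j, ∀ w ∈ T j, ∀ v, sig p c w v = 0 := by
    intro j w hw v
    rw [hcB j w (hTB j w hw).1 v, (hTB j w hw).2 v, sub_self]
  obtain ⟨R, hR1, hR2, hR3⟩ := core p htr c v₀ z hz he (⋃ j, (T j : Set (FreeGroup (Fin n))))
    (Set.finite_iUnion fun j => (T j).finite_toSet)
    (by
      intro w hw v
      obtain ⟨j, hj⟩ := Set.mem_iUnion.1 hw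
      exact (hTB j w hj).2 v)
    (by
      intro w hw v
      obtain ⟨j, hj⟩ := Set.mem_iUnion.1 hw
      exact hrelc j w hj v)
    (by
      intro W
      set e := sig p c z v₀ with hedef
      set m := 2 * W * ((q + 1) * (n + q)) with hm
      have he1 : 1 ≤ e.natAbs := Int.natAbs_pos.2 he
      refine ⟨e.natAbs * m + 1, Nat.succ_pos _, ?_, ?_⟩
      · rw [Int.gcd_eq_natAbs, Int.natAbs_natCast]
        have : Nat.Coprime e.natAbs (e.natAbs * m + 1) := by
          simp
        exact this
      set K := e.natAbs * m + 1 with hK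
      have hmK : m < K := by
        have : 1 * m ≤ e.natAbs * m := Nat.mul_le_mul_right _ he1
        omega
      have : NeZero K := ⟨by omega⟩
      set A : Finset (ZMod K) := Finset.univ.filter fun a : ZMod K =>
        W ≤ a.val ∧ a.val + W < K with hA
      set S : Finset (V × ZMod K) := Finset.univ ×ˢ A with hS
      have hScard : Fintype.card V * (K - 2 * W) ≤ S.card := by
        rw [hS, Finset.card_product, Finset.card_univ]
        exact Nat.mul_le_mul_left _ card_A
      obtain ⟨ψ, H, hψ1, _, hψ3, hψ4⟩ := exists_cochain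
        (tr p (fun i v => (c i v : ZMod K))) r b (by
          intro j x
          obtain ⟨v, a⟩ := x
          refine (horb j v).trans ?_
          refine Nat.card_le_card_of_surjective
            (fun y : {y : V × ZMod K // ∃ z ∈ Subgroup.closure (Set.range (b j)),
              pi (tr p (fun i v => (c i v : ZMod K))) z (v, a) = y} =>
              (⟨y.1.1, by
                obtain ⟨z, hz1, hz2⟩ := y.2
                refine ⟨z, hz1, ?_⟩
                rw [← hz2, pi_tr]⟩ :
                {y : V // ∃ z ∈ Subgroup.closure (Set.range (b j)), pi p z v = y})) ?_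
          rintro ⟨y, z, hz1, hz2⟩
          refine ⟨⟨pi (tr p (fun i v => (c i v : ZMod K))) z (v, a), z, hz1, rfl⟩, ?_⟩
          apply Subtype.ext
          show (pi (tr p (fun i v => (c i v : ZMod K))) z (v, a)).1 = y
          rw [pi_tr, hz2])
        S (fun i x => c i x.1) (by
          rw [Fintype.card_prod, ZMod.card]
          exact count_ineq hcost hv hmK hScard)
      refine ⟨ψ, ?_, ?_, hψ4⟩
      · intro i x hx
        by_contra hcon
        apply hx
        apply hψ1
        intro hxS
        apply hcon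
        rw [hS, Finset.mem_product] at hxS
        exact (Finset.mem_filter.1 hxS.2).2
      · intro w hw x
        obtain ⟨j, hj⟩ := Set.mem_iUnion.1 hw
        have h1 := sig_closure (tr p (fun i v => (c i v : ZMod K))) ψ (Set.range (b j)) (H j)
          (by
            rintro _ ⟨i, rfl⟩ y
            exact hψ3 j i y) w (hTB j w hj).1 x
        rw [h1]
        obtain ⟨v, a⟩ := x
        have h2 : sig p (fun i v => (c i v : ZMod K)) w v = 0 := by
          have h3 := sig_map (Int.castAddHom (ZMod K)) p c w v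
          rw [hrelc j w hj v, map_zero] at h3
          exact h3
        rw [pi_tr, (hTB j w hj).2 v, h2, add_zero, sub_self])
  refine ⟨R, hR1, hR2, fun j w hw hwv => ?_⟩
  have h1 : w ∈ Subgroup.closure (Set.range (b j)) ⊓ (pi p).ker :=
    ⟨hw, MonoidHom.mem_ker.2 (Equiv.ext hwv)⟩
  rw [← hT j] at h1
  refine (Subgroup.closure_le R).2 ?_ h1
  intro u hu
  exact hR3 u (Set.mem_iUnion.2 ⟨j, hu⟩)

end Pool.Agent.BP
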