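import Pool.Agent.Lib.BP.Defs

/-!
MODULE BP.LinA (1.2 h). Linear algebra of cochains over the rationals.

* `excl p c`: the cochains `dh + a c`; dimension at most `|X|` because constant functions `h` give zero (`X` nonempty): the range of the linear map `(h, a) ↦ dh + a c` on `(X → ℚ) × ℚ`,
  whose kernel contains the nonzero vector `(1, 0)`; rank-nullity.
* `exists_outside`: rank-nullity for `T`, then for `pr` restricted to `ker T`: if `pr` maps `ker T` into `D` then `dim ker T ≤ dim D + dim (ker T ⊓ ker pr)`.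
* `clear_denoms`: multiply by the product of the denominators.
* `sigLin`: `sig` is linear in the cochain (`sig_add`, `sig_map`).
-/

set_option autoImplicit false

namespace Pool.Agent.BP

/-- `ψ ↦ sig p ψ w x` as a linear map -/
def sigLin {n : ℕ} {X : Type*} (p : Fin n → Equiv.Perm X) (w : FreeGroup (Fin n)) (x : X) :
    (Fin n → X → ℚ) →ₗ[ℚ] ℚ where
  toFun ψ := sig p ψ w x
  map_add' ψ ψ' := sig_add p ψ ψ' w x
  map_smul' a ψ := sig_map (AddMonoidHom.mulLeft a) p ψ w x

/-- invariant functions -/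
def inv {n : ℕ} {X : Type*} (p : Fin n → Equiv.Perm X) (B : Subgroup (FreeGroup (Fin n))) :
    Submodule ℚ (X → ℚ) where
  carrier := {f | ∀ z ∈ B, ∀ x, f (pi p z x) = f x}
  zero_mem' := by intro z _ x; rfl
  add_mem' := by
    intro f g hf hg z hz x
    show f _ + g _ = f x + g x
    rw [hf z hz x, hg z hz x]
  smul_mem' := by
    intro a f hf z hz x
    show a * f _ = a * f x
    rw [hf z hz x]

/-- the span of the coboundaries and `c` -/
def excl {n : ℕ} {X : Type*} (p : Fin n → Equiv.Perm X) (c : Fin n → X → ℚ) :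
    Submodule ℚ (Fin n → X → ℚ) where
  carrier := {ψ | ∃ (h : X → ℚ) (a : ℚ), ∀ i x, ψ i x = h (p i x) - h x + a * c i x}
  zero_mem' := ⟨0, 0, by intro i x; simp⟩
  add_mem' := by
    rintro ψ ψ' ⟨h, a, e⟩ ⟨h', a', e'⟩
    refine ⟨fun x => h x + h' x, a + a', fun i x => ?_⟩
    show ψ i x + ψ' i x = _
    rw [e, e']; ring
  smul_mem' := by
    rintro t ψ ⟨h, a, e⟩
    refine ⟨fun x => t * h x, t * a, fun i x => ?_⟩
    show t * ψ i x = _
    rw [e]; ring

theorem finrank_excl {n : ℕ} {X : Type*} [Fintype X] [Nonempty X] (p : Fin n → Equiv.Perm X)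
    (c : Fin n → X → ℚ) : Module.finrank ℚ (excl p c) ≤ Fintype.card X := by
  let f : ((X → ℚ) × ℚ) →ₗ[ℚ] (Fin n → X → ℚ) :=
    { toFun := fun a i x => a.1 (p i x) - a.1 x + a.2 * c i x
      map_add' := by
        intro a b
        funext i x
        show (a.1 + b.1) (p i x) - (a.1 + b.1) x + (a.2 + b.2) * c i x = _ + _
        simp only [Pi.add_apply]
        ring
      map_smul' := by
        intro t a
        funext i x
        show (t • a.1) (p i x) - (t • a.1) x + (t • a.2) * c i x = t • (_ : ℚ)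
        simp only [Pi.smul_apply, smul_eq_mul]
        ring }
  have he : excl p c = LinearMap.range f := by
    ext ψ
    constructor
    · rintro ⟨h, a, e⟩
      exact ⟨(h, a), funext fun i => funext fun x => (e i x).symm⟩
    · rintro ⟨⟨h, a⟩, rfl⟩
      exact ⟨h, a, fun i x => rfl⟩
  have h1 := LinearMap.finrank_range_add_finrank_ker f
  have h2 : Module.finrank ℚ ((X → ℚ) × ℚ) = Fintype.card X + 1 := by
    rw [Module.finrank_prod, Module.finrank_fintype_fun_eq_card, Module.finrank_self]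
  have h3 : 0 < Module.finrank ℚ (LinearMap.ker f) := by
    rw [Module.finrank_pos_iff_exists_ne_zero]
    refine ⟨⟨(fun _ => 1, 0), ?_⟩, ?_⟩
    · rw [LinearMap.mem_ker]
      funext i x
      show (1 : ℚ) - 1 + 0 * c i x = 0
      ring
    · intro h
      have h4 := congrArg (fun a => a.1.1) h
      obtain ⟨x⟩ := ‹Nonempty X›
      exact one_ne_zero (congrFun h4 x)
  rw [he]
  omega

theorem exists_outside {E E₁ E₂ : Type*} [AddCommGroup E] [Module ℚ E] [AddCommGroup E₁]
    [Module ℚ E₁] [AddCommGroup E₂] [Module ℚ E₂] [FiniteDimensional ℚ E] [FiniteDimensional ℚ E₁]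
    (T : E →ₗ[ℚ] E₂) (pr : E →ₗ[ℚ] E₁) (D : Submodule ℚ E₁) (t d k : ℕ)
    (ht : Module.finrank ℚ (LinearMap.range T) ≤ t) (hd : Module.finrank ℚ D ≤ d)
    (hk : Module.finrank ℚ (LinearMap.ker T ⊓ LinearMap.ker pr : Submodule ℚ E) ≤ k)
    (h : t + d + k < Module.finrank ℚ E) : ∃ e, T e = 0 ∧ pr e ∉ D := by
  by_contra hcon
  push Not at hcon
  have h1 := LinearMap.finrank_range_add_finrank_ker T
  let f : LinearMap.ker T →ₗ[ℚ] E₁ := pr.domRestrict (LinearMap.ker T)
  have h2 := LinearMap.finrank_range_add_finrank_ker f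
  have h3 : Module.finrank ℚ (LinearMap.range f) ≤ Module.finrank ℚ D := by
    refine Submodule.finrank_mono ?_
    rintro _ ⟨⟨e, he⟩, rfl⟩
    exact hcon e (LinearMap.mem_ker.mp he)
  have h4 : Module.finrank ℚ (LinearMap.ker f) ≤
      Module.finrank ℚ (LinearMap.ker T ⊓ LinearMap.ker pr : Submodule ℚ E) := by
    have e : (LinearMap.ker f).map (LinearMap.ker T).subtype =
        (LinearMap.ker T ⊓ LinearMap.ker pr : Submodule ℚ E) := by
      ext x
      constructor
      · rintro ⟨⟨y, hy⟩, hy2, rfl⟩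
        exact ⟨hy, hy2⟩
      · rintro ⟨h5, h6⟩
        exact ⟨⟨x, h5⟩, h6, rfl⟩
    rw [← e]
    exact (LinearEquiv.finrank_eq (Submodule.equivMapOfInjective _ (Submodule.injective_subtype _) _)).le
  omega

theorem clear_denoms {I : Type*} [Finite I] (f : I → ℚ) :
    ∃ (N : ℕ) (g : I → ℤ), 0 < N ∧ ∀ i, (g i : ℚ) = N * f i := by
  classical
  have := Fintype.ofFinite I
  refine ⟨∏ i, (f i).den, fun i => (f i).num * ((∏ j, (f j).den) / (f i).den : ℕ),
    Finset.prod_pos fun i _ => (f i).den_pos, fun i => ?_⟩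
  have hd : (f i).den ∣ ∏ j, (f j).den := Finset.dvd_prod_of_mem _ (Finset.mem_univ i)
  obtain ⟨c, hc⟩ := hd
  have h0 : ((f i).den : ℚ) ≠ 0 := by exact_mod_cast (f i).den_ne_zero
  show (((f i).num * ((∏ j, (f j).den) / (f i).den : ℕ) : ℤ) : ℚ) = _
  rw [hc, Nat.mul_div_cancel_left c (f i).den_pos]
  push_cast
  have h1 : (f i) * ((f i).den : ℚ) = (f i).num := Rat.mul_den_eq_num (f i)
  rw [← h1]
  ring

end Pool.Agent.BP
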