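import Pool.Agent.Lib.BP.LinA

/-!
MODULE BP.LinB (1 h). The dimension of the space of invariant functions.

* `inv p B`: the functions on `X` invariant under the subgroup `B` (acting through `pi p`). If all orbits of `B` have at least `m` elements then `m * dim ≤ |X|`: an invariant function is a function on the set of orbits
  (for instance the `Quotient` of the relation `∃ z ∈ B, pi p z x = y`, `dim ≤` number of orbits), and `|X| = Σ_orbits |orbit| ≥ m * (number of orbits)`.
-/

set_option autoImplicit false

namespace Pool.Agent.BP

/-- the orbit relation of a subgroup -/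
private def orbRel {n : ℕ} {X : Type*} (p : Fin n → Equiv.Perm X)
    (B : Subgroup (FreeGroup (Fin n))) : Setoid X where
  r x y := ∃ z ∈ B, pi p z x = y
  iseqv := by
    refine ⟨fun x => ⟨1, B.one_mem, pi_one p x⟩, ?_, ?_⟩
    · rintro x y ⟨z, hz, rfl⟩
      exact ⟨z⁻¹, B.inv_mem hz, pi_inv_pi p z x⟩
    · rintro x y w ⟨z, hz, rfl⟩ ⟨z', hz', rfl⟩
      exact ⟨z' * z, B.mul_mem hz' hz, pi_mul p z' z x⟩

theorem finrank_inv {n : ℕ} {X : Type*} [Fintype X] (p : Fin n → Equiv.Perm X)
    (B : Subgroup (FreeGroup (Fin n))) (m : ℕ)
    (horb : ∀ x, m ≤ Nat.card {y : X // ∃ z ∈ B, pi p z x = y}) :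
    m * Module.finrank ℚ (inv p B) ≤ Fintype.card X := by
  classical
  let r := orbRel p B
  have hfin : Finite (Quotient r) := inferInstance
  let _ : Fintype (Quotient r) := Fintype.ofFinite _
  -- invariant functions are functions on the set of orbits
  let Φ : inv p B →ₗ[ℚ] (Quotient r → ℚ) :=
    { toFun := fun f q => Quotient.lift (s := r) (f : X → ℚ) (by
        rintro x y ⟨z, hz, rfl⟩
        exact (f.2 z hz x).symm) q
      map_add' := fun f g => by
        funext q
        induction q using Quotient.inductionOn with
        | h x => rfl
      map_smul' := fun a f => by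
        funext q
        induction q using Quotient.inductionOn with
        | h x => rfl }
  have hinj : Function.Injective Φ := by
    intro f g hfg
    apply Subtype.ext
    funext x
    exact congrFun hfg (Quotient.mk r x)
  have h1 : Module.finrank ℚ (inv p B) ≤ Fintype.card (Quotient r) := by
    have := LinearMap.finrank_le_finrank_of_injective hinj
    rwa [Module.finrank_fintype_fun_eq_card] at this
  have h2 : Fintype.card X = ∑ q : Quotient r, Fintype.card {x // Quotient.mk r x = q} := by
    rw [← Fintype.card_sigma]
    exact (Fintype.card_congr (Equiv.sigmaFiberEquiv (Quotient.mk r))).symm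
  have h3 : ∀ q ∈ (Finset.univ : Finset (Quotient r)),
      m ≤ Fintype.card {x // Quotient.mk r x = q} := by
    intro q _
    induction q using Quotient.inductionOn with
    | h x =>
      refine (horb x).trans (le_of_eq ?_)
      rw [← Nat.card_eq_fintype_card]
      refine Nat.card_congr (Equiv.subtypeEquivRight fun y => ?_)
      constructor
      · intro h
        exact (Quotient.sound (s := r) h).symm
      · intro h
        exact Quotient.exact (s := r) h.symm
  calc m * Module.finrank ℚ (inv p B) ≤ m * Fintype.card (Quotient r) :=
        Nat.mul_le_mul_left m h1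
    _ = ∑ q : Quotient r, m := by
        rw [Finset.sum_const, Finset.card_univ, smul_eq_mul, mul_comm]
    _ ≤ ∑ q : Quotient r, Fintype.card {x // Quotient.mk r x = q} := Finset.sum_le_sum h3
    _ = Fintype.card X := h2.symm

end Pool.Agent.BP
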