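import Pool.Agent.Lib.BP.AbMod
import Pool.Agent.Lib.BP.Prom

/-!
MODULE BP.Low (1.2 h). Block triangular automorphisms.

`BlockTri n r α`: `α` maps each of the first `r` generators into the subgroup `low n r` generated by them, and `α (of i) = u * of i * v` with `u, v ∈ low n i` for `i ≥ r`. `BlockTriS`: the same with `(of i)⁻¹` also allowed.
* `map_low`: on generators. `mul`, `pow`, `conj_mul`: immediate from `map_low`. `sq`: `α (α (of i))` for `α (of i) = u (of i)⁻¹ v` is `α u * v⁻¹ * of i * u⁻¹ * α v` (prove `map_low` first for `BlockTriS`).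
* `bottomA`: `k` from `ab_order` with `m = 3`.
-/

set_option autoImplicit false

namespace Pool.Agent.BP

/-- block triangular automorphisms -/
def BlockTri (n r : ℕ) (α : MulAut (FreeGroup (Fin n))) : Prop :=
  (∀ i : Fin n, i.val < r → α (FreeGroup.of i) ∈ low n r) ∧
  (∀ i : Fin n, r ≤ i.val → ∃ u ∈ low n i.val, ∃ v ∈ low n i.val,
    α (FreeGroup.of i) = u * FreeGroup.of i * v)

/-- block triangular automorphisms, inverses allowed on the diagonal -/
def BlockTriS (n r : ℕ) (α : MulAut (FreeGroup (Fin n))) : Prop :=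
  (∀ i : Fin n, i.val < r → α (FreeGroup.of i) ∈ low n r) ∧
  (∀ i : Fin n, r ≤ i.val → ∃ u ∈ low n i.val, ∃ v ∈ low n i.val,
    α (FreeGroup.of i) = u * FreeGroup.of i * v ∨ α (FreeGroup.of i) = u * (FreeGroup.of i)⁻¹ * v)

theorem low_mono (n : ℕ) {r s : ℕ} (h : r ≤ s) : low n r ≤ low n s := by
  refine Subgroup.closure_mono ?_
  rintro x ⟨j, hj, rfl⟩
  exact ⟨j, lt_of_lt_of_le hj h, rfl⟩

namespace LowAux

theorem of_mem {n r : ℕ} (i : Fin n) (h : i.val < r) : FreeGroup.of i ∈ low n r :=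
  Subgroup.subset_closure ⟨i, h, rfl⟩

theorem toS {n r : ℕ} {α : MulAut (FreeGroup (Fin n))} (h : BlockTri n r α) : BlockTriS n r α := by
  refine ⟨h.1, fun i hi => ?_⟩
  obtain ⟨u, hu, v, hv, e⟩ := h.2 i hi
  exact ⟨u, hu, v, hv, Or.inl e⟩

theorem map_lowS {n r : ℕ} {α : MulAut (FreeGroup (Fin n))} (h : BlockTriS n r α) {i : ℕ}
    (hi : r ≤ i) {x : FreeGroup (Fin n)} (hx : x ∈ low n i) : α x ∈ low n i := by
  have hle : low n i ≤ (low n i).comap α.toMonoidHom := by
    refine (Subgroup.closure_le _).2 ?_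
    rintro x ⟨j, hj, rfl⟩
    change α (FreeGroup.of j) ∈ low n i
    by_cases hjr : j.val < r
    · exact low_mono n hi (h.1 j hjr)
    · obtain ⟨u, hu, v, hv, e⟩ := h.2 j (not_lt.1 hjr)
      have hu' := low_mono n hj.le hu
      have hv' := low_mono n hj.le hv
      have ho := of_mem j hj
      rcases e with e | e
      · rw [e]
        exact mul_mem (mul_mem hu' ho) hv'
      · rw [e]
        exact mul_mem (mul_mem hu' (inv_mem ho)) hv'
  exact hle hx

theorem one {n r : ℕ} : BlockTri n r (1 : MulAut (FreeGroup (Fin n))) := by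
  refine ⟨fun i hi => of_mem i hi, fun i _ => ⟨1, one_mem _, 1, one_mem _, ?_⟩⟩
  rw [one_mul, mul_one]
  rfl

end LowAux

open LowAux

theorem BlockTri.map_low {n r : ℕ} {α : MulAut (FreeGroup (Fin n))} (h : BlockTri n r α) {i : ℕ}
    (hi : r ≤ i) {x : FreeGroup (Fin n)} (hx : x ∈ low n i) : α x ∈ low n i := by
  exact map_lowS (toS h) hi hx

theorem BlockTri.mul {n r : ℕ} {α β : MulAut (FreeGroup (Fin n))} (h : BlockTri n r α)
    (h' : BlockTri n r β) : BlockTri n r (α * β) := by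
  refine ⟨fun i hi => h.map_low le_rfl (h'.1 i hi), fun i hi => ?_⟩
  obtain ⟨u, hu, v, hv, e⟩ := h'.2 i hi
  obtain ⟨u', hu', v', hv', e'⟩ := h.2 i hi
  refine ⟨α u * u', mul_mem (h.map_low hi hu) hu', v' * α v, mul_mem hv' (h.map_low hi hv), ?_⟩
  rw [MulAut.mul_apply, e, map_mul, map_mul, e']
  group

theorem BlockTri.pow {n r : ℕ} {α : MulAut (FreeGroup (Fin n))} (h : BlockTri n r α) (k : ℕ) :
    BlockTri n r (α ^ k) := by
  induction k with
  | zero =>
    rw [pow_zero]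
    exact LowAux.one
  | succ k ih =>
    rw [pow_succ]
    exact ih.mul h

theorem BlockTri.conj_mul {n r : ℕ} {α : MulAut (FreeGroup (Fin n))} (h : BlockTri n r α)
    {z : FreeGroup (Fin n)} (hz : z ∈ low n r) : BlockTri n r (MulAut.conj z * α) := by
  refine BlockTri.mul ⟨fun i hi => ?_, fun i hi => ?_⟩ h
  · rw [MulAut.conj_apply]
    exact mul_mem (mul_mem hz (of_mem i hi)) (inv_mem hz)
  · have hz' := low_mono n hi hz
    exact ⟨z, hz', z⁻¹, inv_mem hz', MulAut.conj_apply _ _⟩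

theorem BlockTriS.sq {n r : ℕ} {α : MulAut (FreeGroup (Fin n))} (h : BlockTriS n r α) :
    BlockTri n r (α ^ 2) := by
  rw [pow_two]
  refine ⟨fun i hi => map_lowS h le_rfl (h.1 i hi), fun i hi => ?_⟩
  obtain ⟨u, hu, v, hv, e⟩ := h.2 i hi
  rcases e with e | e
  · refine ⟨α u * u, mul_mem (map_lowS h hi hu) hu, v * α v, mul_mem hv (map_lowS h hi hv), ?_⟩
    rw [MulAut.mul_apply]
    conv_lhs => rw [e]
    rw [map_mul, map_mul, e]
    group
  · refine ⟨α u * v⁻¹, mul_mem (map_lowS h hi hu) (inv_mem hv), u⁻¹ * α v,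
      mul_mem (inv_mem hu) (map_lowS h hi hv), ?_⟩
    rw [MulAut.mul_apply]
    conv_lhs => rw [e]
    rw [map_mul, map_mul, map_inv, e]
    group

theorem bottomA (n r : ℕ) (α : MulAut (FreeGroup (Fin n))) (hα : BlockTri n r α) :
    ∃ k, 1 ≤ k ∧ ∀ i : Fin n, i.val < r →
      (α ^ k) (FreeGroup.of i) * (FreeGroup.of i)⁻¹ ∈ low n r ∧
      ab n 3 ((α ^ k) (FreeGroup.of i) * (FreeGroup.of i)⁻¹) = 1 := by
  obtain ⟨k, hk, h⟩ := ab_order n 3 (by norm_num) α
  refine ⟨k, hk, fun i hi => ⟨?_, h _⟩⟩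
  exact mul_mem ((hα.pow k).1 i hi) (inv_mem (of_mem i hi))

end Pool.Agent.BP
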