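import Pool.Agent.Lib.BP.AbMod
import Pool.Agent.Lib.BP.Prom

/-!
MODULE BP.LowB (0.8 h). The bottom block of rank two in rank three.

Let `ι : F_2 → F_3`, `of i ↦ of i` (`FreeGroup.map Fin.castSucc`; injective, range `low 3 2`). Since `α` maps `low 3 2` onto itself there is an automorphism `α₀` of `F_2` with `ι ∘ α₀ = α ∘ ι`.
Apply `prom` to `α₀`: `k`, `z₀`; take `z = ι z₀⁻¹` and use that `ι` maps `normalClosure {W1 2, W2 2}` into `normalClosure {W1 3, W2 3}` (which is normal).
-/

set_option autoImplicit false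

namespace Pool.Agent.BP

namespace LowBAux

/-- the inclusion of the free group of rank two -/
def io : FreeGroup (Fin 2) →* FreeGroup (Fin 3) := FreeGroup.map Fin.castSucc

theorem io_of (j : Fin 2) : io (FreeGroup.of j) = FreeGroup.of j.castSucc := FreeGroup.map.of

theorem io_range : io.range = low 3 2 := by
  apply le_antisymm
  · rintro _ ⟨x, rfl⟩
    induction x using FreeGroup.induction_on with
    | C1 => rw [map_one]; exact one_mem _
    | of j => rw [io_of]; exact Subgroup.subset_closure ⟨j.castSucc, j.2, rfl⟩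
    | inv_of j h => rw [map_inv]; exact inv_mem h
    | mul x y hx hy => rw [map_mul]; exact mul_mem hx hy
  · unfold low
    rw [Subgroup.closure_le]
    rintro _ ⟨j, hj, rfl⟩
    exact ⟨FreeGroup.of ⟨j.1, hj⟩, io_of _⟩

/-- a retraction -/
def re : FreeGroup (Fin 3) →* FreeGroup (Fin 2) :=
  FreeGroup.lift fun j : Fin 3 => if h : j.val < 2 then FreeGroup.of ⟨j.val, h⟩ else 1

theorem re_io (x : FreeGroup (Fin 2)) : re (io x) = x := by
  have h : re.comp io = MonoidHom.id _ := by
    ext j
    simp only [MonoidHom.comp_apply, io_of, re, FreeGroup.lift_apply_of, MonoidHom.id_apply]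
    rw [dif_pos (show (j.castSucc : Fin 3).val < 2 from j.2)]
    rfl
  exact DFunLike.congr_fun h x

theorem io_inj : Function.Injective io := fun x y h => by
  rw [← re_io x, h, re_io]

theorem io_W1 : io (W1 2) = W1 3 := by
  simp only [W1, map_mul, map_inv, io_of]
  rfl

theorem io_W2 : io (W2 2) = W2 3 := by
  simp only [W2, map_mul, map_inv, io_of]
  rfl

end LowBAux

open LowBAux in
theorem bottomB (α : MulAut (FreeGroup (Fin 3)))
    (hα : (low 3 2).map α.toMonoidHom = low 3 2) :
    ∃ (k : ℕ) (z : FreeGroup (Fin 3)), 1 ≤ k ∧ z ∈ low 3 2 ∧ ∀ x ∈ low 3 2,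
      (MulAut.conj z * α ^ k) x * x⁻¹ ∈ Subgroup.normalClosure {W1 3, W2 3} := by
  -- the induced map on the free group of rank two
  have hex : ∀ j : Fin 2, ∃ x, io x = α (io (FreeGroup.of j)) := by
    intro j
    have h1 : α (io (FreeGroup.of j)) ∈ (low 3 2).map α.toMonoidHom :=
      ⟨io (FreeGroup.of j), by rw [← io_range]; exact ⟨_, rfl⟩, rfl⟩
    rw [hα, ← io_range] at h1
    exact h1
  choose a ha using hex
  set A : FreeGroup (Fin 2) →* FreeGroup (Fin 2) := FreeGroup.lift a with hA
  have hAio : ∀ x, io (A x) = α (io x) := by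
    have h : io.comp A = α.toMonoidHom.comp io := by
      ext j
      simp only [MonoidHom.comp_apply, hA, FreeGroup.lift_apply_of, ha]
      rfl
    intro x
    exact DFunLike.congr_fun h x
  have hAinj : Function.Injective A := by
    intro x y h
    apply io_inj
    apply α.injective
    rw [← hAio, ← hAio, h]
  have hAsurj : Function.Surjective A := by
    intro w
    have h1 : io w ∈ (low 3 2).map α.toMonoidHom := by
      rw [hα, ← io_range]
      exact ⟨w, rfl⟩
    obtain ⟨x, hx, hxw⟩ := h1
    rw [← io_range] at hx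
    obtain ⟨x', rfl⟩ := hx
    exact ⟨x', io_inj ((hAio x').trans hxw)⟩
  set α₀ : MulAut (FreeGroup (Fin 2)) := MulEquiv.ofBijective A ⟨hAinj, hAsurj⟩ with hα₀
  have hα₀io : ∀ (k : ℕ) (x : FreeGroup (Fin 2)), io ((α₀ ^ k) x) = (α ^ k) (io x) := by
    intro k
    induction k with
    | zero => intro x; simp
    | succ k ih =>
      intro x
      rw [pow_succ', pow_succ', MulAut.mul_apply, MulAut.mul_apply, ← ih]
      exact hAio _
  obtain ⟨k, z₀, hk, hz⟩ := prom α₀
  have hN : Subgroup.normalClosure {W1 2, W2 2} ≤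
      (Subgroup.normalClosure {W1 3, W2 3}).comap io := by
    apply Subgroup.normalClosure_le_normal
    rintro _ (rfl | rfl)
    · change io (W1 2) ∈ Subgroup.normalClosure {W1 3, W2 3}
      rw [io_W1]
      exact Subgroup.subset_normalClosure (by simp)
    · change io (W2 2) ∈ Subgroup.normalClosure {W1 3, W2 3}
      rw [io_W2]
      exact Subgroup.subset_normalClosure (by simp)
  refine ⟨k, io z₀⁻¹, hk, ?_, fun y hy => ?_⟩
  · rw [← io_range]
    exact ⟨_, rfl⟩
  · rw [← io_range] at hy
    obtain ⟨x, rfl⟩ := hy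
    rw [MulAut.mul_apply, MulAut.conj_apply, ← hα₀io, ← map_inv, ← map_inv, ← map_mul,
      ← map_mul, ← map_mul]
    apply hN
    have h2 := (Subgroup.normalClosure_normal (s := {W1 2, W2 2})).conj_mem _ (hz x) z₀⁻¹
    convert h2 using 1
    group

end Pool.Agent.BP
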