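import Pool.Agent.Lib.BP.Built
import Pool.Agent.Lib.BP.BaseGen
import Pool.Agent.Lib.BP.LowB
import Pool.Agent.Lib.BP.BaseProm
import Pool.Agent.Lib.BP.Acting

/-!
Assembly: one element of the acting group which acts, up to an inner automorphism, by an automorphism built from an admissible family of blocks.
-/

set_option autoImplicit false

namespace Pool.Agent.BP

open Pool.Agent.Occ

/-- Admissible families of blocks: either nontrivial subgroups `B_1, ..., B_s` of `F_n`, `B_i` generated by `r_i` elements, with `2 ∑ (r_i - 1) + 2 ≤ n`, or, if `n = 3`, a single free factor of rank two. -/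
def Admissible (n : ℕ) (𝓑 : Set (Subgroup (FreeGroup (Fin n)))) : Prop :=
  (∃ (s : ℕ) (r : Fin s → ℕ) (b : (i : Fin s) → Fin (r i) → FreeGroup (Fin n)),
    (∀ i, Subgroup.closure (Set.range (b i)) ≠ ⊥) ∧ 2 * ∑ i, r i + 2 ≤ n + 2 * s ∧
    𝓑 = Set.range (fun i => Subgroup.closure (Set.range (b i)))) ∨
  ∃ σ : FreeGroup (Fin 3) ≃* FreeGroup (Fin n),
    𝓑 = {Subgroup.closure {σ (FreeGroup.of 0), σ (FreeGroup.of 1)}}

/-- the relators which make every automorphism preserving a block virtually inner on it, for two positions of the family at the same time -/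
theorem bottom (n : ℕ) (𝓑 : Set (Subgroup (FreeGroup (Fin n)))) (h𝓑 : Admissible n 𝓑)
    (c : MulAut (FreeGroup (Fin n))) :
    ∃ R : Subgroup (FreeGroup (Fin n)), R.Normal ∧ Large R ∧
      ∀ d : MulAut (FreeGroup (Fin n)), (d = 1 ∨ d = c) → ∀ B ∈ 𝓑,
        ∀ α : MulAut (FreeGroup (Fin n)), B.map α.toMonoidHom = B →
        ∃ (k : ℕ) (z : FreeGroup (Fin n)), 1 ≤ k ∧ z ∈ B ∧
          ∀ x ∈ B, d ((MulAut.conj z * α ^ k) x * x⁻¹) ∈ R := by
  rcases h𝓑 with ⟨s, r, b, hb, hcost, rfl⟩ | ⟨σ, rfl⟩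
  · obtain ⟨R, h1, h2, h3⟩ := baseGen n s r b hb hcost ![1, c]
    refine ⟨R, h1, h2, ?_⟩
    rintro d hd _ ⟨i, rfl⟩ α hα
    obtain ⟨j, hj⟩ : ∃ j : Fin 2, (![1, c] : Fin 2 → MulAut (FreeGroup (Fin n))) j = d := by
      rcases hd with rfl | rfl
      · exact ⟨0, rfl⟩
      · exact ⟨1, rfl⟩
    obtain ⟨k, hk, h⟩ := h3 j i α hα
    refine ⟨k, 1, hk, Subgroup.one_mem _, fun x hx => ?_⟩
    rw [map_one, one_mul, ← hj]
    exact h x hx
  · have hn : 3 = n := Pool.Agent.Pfc0641.rank_eq σ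
    subst hn
    obtain ⟨ρ, hρ⟩ : ∃ ρ : MulAut (FreeGroup (Fin 3)), ρ = σ := ⟨σ, rfl⟩
    subst hρ
    obtain ⟨R, h1, h2, h3⟩ := baseProm ![ρ, c * ρ]
    have hlow : (low 3 2).map ρ.toMonoidHom =
        Subgroup.closure {ρ (FreeGroup.of 0), ρ (FreeGroup.of 1)} := by
      rw [low, MonoidHom.map_closure]
      congr 1
      ext x
      constructor
      · rintro ⟨_, ⟨i, hi, rfl⟩, rfl⟩
        have : i = 0 ∨ i = 1 := by omega
        rcases this with rfl | rfl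
        · left; rfl
        · right; rfl
      · rintro (rfl | rfl)
        · exact ⟨_, ⟨0, by decide, rfl⟩, rfl⟩
        · exact ⟨_, ⟨1, by decide, rfl⟩, rfl⟩
    refine ⟨R, h1, h2, ?_⟩
    rintro d hd _ rfl α hα
    rw [← hlow] at hα ⊢
    have hα' : (low 3 2).map (ρ⁻¹ * α * ρ).toMonoidHom = low 3 2 := by
      ext x
      constructor
      · rintro ⟨y, hy, rfl⟩
        have h1 : α (ρ y) ∈ (low 3 2).map ρ.toMonoidHom := by
          rw [← hα]; exact Subgroup.mem_map_of_mem _ (Subgroup.mem_map_of_mem _ hy)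
        obtain ⟨w, hw, e⟩ := h1
        have e' : ρ w = α (ρ y) := e
        show ρ⁻¹ (α (ρ y)) ∈ low 3 2
        rw [← e', MulAut.inv_apply_self]
        exact hw
      · intro hx
        have h1 : ρ x ∈ (low 3 2).map ρ.toMonoidHom := Subgroup.mem_map_of_mem _ hx
        rw [← hα] at h1
        obtain ⟨w, ⟨y, hy, e1⟩, e2⟩ := h1
        refine ⟨y, hy, ?_⟩
        have e1' : ρ y = w := e1
        have e2' : α w = ρ x := e2
        show ρ⁻¹ (α (ρ y)) = x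
        rw [e1', e2', MulAut.inv_apply_self]
    obtain ⟨k, z, hk, hz, h⟩ := bottomB _ hα'
    obtain ⟨j, hj⟩ : ∃ j : Fin 2, (![ρ, c * ρ] : Fin 2 → MulAut (FreeGroup (Fin 3))) j = d * ρ := by
      rcases hd with rfl | rfl
      · exact ⟨0, by simp⟩
      · exact ⟨1, rfl⟩
    refine ⟨k, ρ z, hk, Subgroup.mem_map_of_mem _ hz, ?_⟩
    rintro x ⟨y, hy, rfl⟩
    have hle : Subgroup.normalClosure {W1 3, W2 3} ≤ R.comap (d * ρ).toMonoidHom := by
      have := h1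
      refine Subgroup.normalClosure_le_normal ?_
      rw [← hj]
      rintro y (rfl | rfl)
      · exact (h3 j).1
      · exact (h3 j).2
    have h4 : d (ρ ((MulAut.conj z * (ρ⁻¹ * α * ρ) ^ k) y * y⁻¹)) ∈ R := hle (h y hy)
    show d ((MulAut.conj (ρ z) * α ^ k) (ρ y) * (ρ y)⁻¹) ∈ R
    convert h4 using 1
    have e : (ρ⁻¹ * α * ρ) ^ k = ρ⁻¹ * α ^ k * ρ := by
      have := conj_pow (i := k) (a := ρ⁻¹) (b := α)
      rwa [inv_inv] at this
    rw [e]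
    simp [MulAut.mul_apply]

/-- elements acting, up to an inner automorphism, trivially modulo `R` -/
def inner (n : ℕ) (φ : FreeGroup (Fin n) →* MulAut (FreeGroup (Fin n)))
    (R : Subgroup (FreeGroup (Fin n))) [R.Normal] : Subgroup (FreeGroup (Fin n)) where
  carrier := {f | ∃ g, ∀ x, g * φ f x * g⁻¹ * x⁻¹ ∈ R}
  one_mem' := ⟨1, fun x => by simp⟩
  mul_mem' := by
    rintro f₁ f₂ ⟨g₁, h₁⟩ ⟨g₂, h₂⟩
    refine ⟨g₂ * g₁, fun x => ?_⟩
    have a := h₁ (φ f₂ x)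
    have b := h₂ x
    have a' := Subgroup.Normal.conj_mem inferInstance _ a g₂
    have := R.mul_mem a' b
    convert this using 1
    rw [map_mul, MulAut.mul_apply]
    group
  inv_mem' := by
    rintro f ⟨g, h⟩
    refine ⟨g⁻¹, fun x => ?_⟩
    have a := h (φ f⁻¹ x)
    have e : φ f (φ f⁻¹ x) = x := by
      rw [← MulAut.mul_apply, ← map_mul, mul_inv_cancel, map_one]; rfl
    rw [e] at a
    have b := Subgroup.Normal.conj_mem inferInstance _ (R.inv_mem a) g⁻¹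
    convert b using 1
    group

theorem finish (n : ℕ) (φ : FreeGroup (Fin n) →* MulAut (FreeGroup (Fin n)))
    (R : Subgroup (FreeGroup (Fin n))) [R.Normal] (hR : Large R)
    (hP : ∃ a ∈ inner n φ R, ∃ b ∈ inner n φ R, a * b ≠ b * a) :
    ¬ ComputablePred (Occur n φ) := by
  obtain ⟨N, θ, hN, hθ, h⟩ := hR
  have := hN
  have hfg : N.FG := (Group.fg_iff_subgroup_fg N).1 (Subgroup.fg_of_index_ne_zero N)
  refine criterion_general n φ (inner n φ R) hP N hfg θ hθ ?_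
  rintro f ⟨g, hg⟩
  have key : ∀ x, ∃ r ∈ R, g * φ (f ^ 1) x * g⁻¹ = r * x := fun x =>
    ⟨g * φ f x * g⁻¹ * x⁻¹, hg x, by rw [pow_one]; group⟩
  have hM : ∀ x, g * φ (f ^ 1) x * g⁻¹ ∈ N ↔ x ∈ N := by
    intro x
    obtain ⟨r, hr, e⟩ := key x
    rw [e]
    exact N.mul_mem_cancel_left (h r hr).1
  refine ⟨1, le_rfl, g, hM, fun x => ?_⟩
  obtain ⟨r, hr, e⟩ := key x
  obtain ⟨hrN, hθr⟩ := h r hr
  have e' : (⟨g * φ (f ^ 1) x * g⁻¹, (hM x).2 x.2⟩ : N) = ⟨r, hrN⟩ * x := Subtype.ext e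
  rw [e', map_mul, hθr, one_mul]

/-- transport of `Large` and normality along an automorphism -/
theorem comap_aut {F : Type*} [Group F] (σ : MulAut F) (R : Subgroup F) (hR : R.Normal)
    (hL : Large R) : (R.comap σ.toMonoidHom).Normal ∧ Large (R.comap σ.toMonoidHom) := by
  have := hR
  refine ⟨inferInstance, ?_⟩
  have h := Large.map_aut R hL σ⁻¹
  have e : R.map (σ⁻¹).toMonoidHom = R.comap σ.toMonoidHom := by
    ext x
    rw [Subgroup.mem_map, Subgroup.mem_comap]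
    constructor
    · rintro ⟨y, hy, rfl⟩
      show σ (σ⁻¹ y) ∈ R
      rwa [MulAut.apply_inv_self]
    · intro hx
      exact ⟨σ x, hx, MulAut.inv_apply_self F σ x⟩
  rwa [e] at h

theorem main (n : ℕ) (hn : 2 ≤ n) (φ : FreeGroup (Fin n) →* MulAut (FreeGroup (Fin n)))
    (τ : FreeGroup (Fin n)) (hτ : τ ≠ 1) (g : FreeGroup (Fin n))
    (𝓑 : Set (Subgroup (FreeGroup (Fin n)))) (h𝓑 : Admissible n 𝓑)
    (h : Built 𝓑 ⊤ (MulAut.conj g * φ τ)) :
    ¬ ComputablePred (Occur n φ) := by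
  obtain ⟨t, ht⟩ := exists_not_comm n hn τ hτ
  obtain ⟨R, hRN, hRL, hR⟩ := bottom n 𝓑 h𝓑 (φ t)
  set α := MulAut.conj g * φ τ with hαdef
  have key0 := hR 1 (Or.inl rfl)
  have key1 := hR (φ t) (Or.inr rfl)
  obtain ⟨k₁, R₁, hk₁, hN₁, hL₁, hle₁, h₁⟩ := Built.step 𝓑 R key0 ⊤ α h R hRN hRL le_rfl
  obtain ⟨a1, a2⟩ := comap_aut (φ t) R₁ hN₁ hL₁
  obtain ⟨k₂, R₂', hk₂, hN₂', hL₂', hle₂', h₂⟩ := Built.step 𝓑 (R.comap (φ t).toMonoidHom) key1 ⊤
    α h (R₁.comap (φ t).toMonoidHom) a1 a2 (Subgroup.comap_mono hle₁)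
  obtain ⟨hN₂, hL₂⟩ := comap_aut (φ t)⁻¹ R₂' hN₂' hL₂'
  set R₂ := R₂'.comap ((φ t)⁻¹).toMonoidHom with hR₂
  have hle₂ : R₁ ≤ R₂ := by
    intro x hx
    show (φ t)⁻¹ x ∈ R₂'
    refine hle₂' ?_
    show φ t ((φ t)⁻¹ x) ∈ R₁
    rwa [MulAut.apply_inv_self]
  have m₁ : τ ^ k₁ ∈ inner n φ R₂ := by
    obtain ⟨δ, hδ⟩ := GeneralAux.conj_mul_pow g (φ τ) k₁
    refine ⟨δ, fun x => ?_⟩
    have := hle₂ (h₁ x (Subgroup.mem_top x))
    rw [hαdef, hδ, ← map_pow] at this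
    exact this
  have m₂ : t * τ ^ k₂ * t⁻¹ ∈ inner n φ R₂ := by
    obtain ⟨δ, hδ⟩ := GeneralAux.conj_mul_pow g (φ τ) k₂
    refine ⟨φ t δ, fun x => ?_⟩
    have := h₂ ((φ t)⁻¹ x) (Subgroup.mem_top _)
    rw [hαdef, hδ, ← map_pow] at this
    show (φ t)⁻¹ (φ t δ * φ (t * τ ^ k₂ * t⁻¹) x * (φ t δ)⁻¹ * x⁻¹) ∈ R₂'
    convert this using 1
    rw [map_mul φ, map_mul φ, map_inv φ]
    simp [MulAut.mul_apply]
  refine finish n φ R₂ hL₂ ⟨τ ^ (k₁ * k₂), ?_, t * τ ^ (k₁ * k₂) * t⁻¹, ?_, ?_⟩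
  · rw [pow_mul]
    exact Subgroup.pow_mem _ m₁ _
  · have := Subgroup.pow_mem _ m₂ k₁
    rw [conj_pow, ← pow_mul] at this
    rwa [mul_comm k₂ k₁] at this
  · exact conj_pow_not_comm n τ t ht _ (Nat.mul_pos hk₁ hk₂)

end Pool.Agent.BP
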