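import Pool.Agent.Lib.BP.Resid

/-!
MODULE BP.PowR (1.2 h). Adding high powers to a normal subgroup with a large quotient.

Proof. `large_normal` gives `N` normal of finite index with `θ : N → F_2` onto, killing `R`. Let `m ≥ 1` be such that `x^m ∈ N` for all `x` (`N.index` works for a normal subgroup). Choose representatives `t` of the finitely many cosets of `N`;
apply `pow_two` to the finitely many elements `θ (t (g j)^m t⁻¹)` (index them by `Fin` via `Fintype.equivFin`): `k`, `R₂ ⊴ F_2` large with all `k`-th powers in `R₂`. Let `R₁ = (R₂.comap θ).map N.subtype`; it is normalised by `N`, contains `R`,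
and it is `Large` (`N₂`, `θ₂` for `R₂`: take `(N₂.comap θ).map N.subtype`, of finite index in `F`, and `θ₂ ∘ θ`; or do the composition of homomorphisms with the subgroup of the elements `x ∈ N` with `θ x ∈ N₂`).
`R' = R₁.normalCore` is normal, contains `R` (normal), is `Large` by `Large.mono`, and contains `(g j)^(m k)`: every conjugate of it by `f = y t` with `y ∈ N` is `y (t (g j)^(mk) t⁻¹) y⁻¹ ∈ R₁`.
-/

set_option autoImplicit false

namespace Pool.Agent.BP

/-- pulling back a subgroup with a large quotient along an epimorphism of a finite index subgroup -/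
private theorem large_pull {F : Type*} [Group F] (N : Subgroup F) (hN : N.FiniteIndex)
    (θ : N →* FreeGroup (Fin 2)) (hθ : Function.Surjective θ) (R₂ : Subgroup (FreeGroup (Fin 2)))
    (h : Large R₂) : Large ((R₂.comap θ).map N.subtype) := by
  obtain ⟨N₂, θ₂, hN₂, hθ₂, hR₂⟩ := h
  have hmem : ∀ x : ((N₂.comap θ).map N.subtype : Subgroup F), ∃ hx : (x : F) ∈ N,
      θ ⟨x, hx⟩ ∈ N₂ := by
    rintro ⟨x, hx⟩
    obtain ⟨y, hy, rfl⟩ := Subgroup.mem_map.1 hx
    exact ⟨y.2, hy⟩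
  refine ⟨(N₂.comap θ).map N.subtype, MonoidHom.mk' (fun x => θ₂ ⟨θ ⟨x, (hmem x).1⟩, (hmem x).2⟩)
    ?_, ?_, ?_, ?_⟩
  · intro a b
    rw [← map_mul]
    congr 1
    apply Subtype.ext
    change θ _ = θ _ * θ _
    rw [← map_mul]
    rfl
  · refine ⟨?_⟩
    rw [Subgroup.index_map_subtype, Subgroup.index_comap_of_surjective N₂ hθ]
    exact mul_ne_zero hN₂.index_ne_zero hN.index_ne_zero
  · intro y
    obtain ⟨⟨z, hz⟩, hzy⟩ := hθ₂ y
    obtain ⟨x, hx⟩ := hθ z
    have hxm : (x : F) ∈ (N₂.comap θ).map N.subtype :=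
      Subgroup.mem_map.2 ⟨x, by rwa [Subgroup.mem_comap, hx], rfl⟩
    refine ⟨⟨x, hxm⟩, ?_⟩
    rw [← hzy]
    change θ₂ _ = _
    congr 1
    exact Subtype.ext hx
  · intro r hr
    obtain ⟨y, hy, rfl⟩ := Subgroup.mem_map.1 hr
    obtain ⟨h1, h2⟩ := hR₂ _ hy
    exact ⟨Subgroup.mem_map.2 ⟨y, h1, rfl⟩, h2⟩

theorem large_pow {F : Type*} [Group F] (R : Subgroup F) [R.Normal] (hR : Large R) {q : ℕ}
    (g : Fin q → F) :
    ∃ (k : ℕ) (R' : Subgroup F), 1 ≤ k ∧ R'.Normal ∧ Large R' ∧ R ≤ R' ∧ ∀ j, (g j) ^ k ∈ R' := by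
  obtain ⟨N, θ, hNn, hNf, hθ, hRN⟩ := large_normal R hR
  set m := N.index with hm
  have hm0 : m ≠ 0 := hNf.index_ne_zero
  have hpm : ∀ x : F, x ^ m ∈ N := fun x => N.pow_index_mem x
  have hfin : Finite (F ⧸ N) := inferInstance
  obtain ⟨Q, ⟨e⟩⟩ := Finite.exists_equiv_fin (Fin q × (F ⧸ N))
  have hconj : ∀ (j : Fin q) (t : F), t * g j ^ m * t⁻¹ ∈ N := fun j t =>
    hNn.conj_mem _ (hpm (g j)) t
  obtain ⟨k, R₂, hk, hR₂n, hR₂L, hpow⟩ := pow_two (fun i : Fin Q =>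
    θ ⟨(e.symm i).2.out * g (e.symm i).1 ^ m * (e.symm i).2.out⁻¹, hconj _ _⟩)
  have hpow' : ∀ (j : Fin q) (c : F ⧸ N), (θ ⟨c.out * g j ^ m * c.out⁻¹, hconj _ _⟩) ^ k ∈ R₂ := by
    intro j c
    have := hpow (e (j, c))
    simpa using this
  refine ⟨m * k, ((R₂.comap θ).map N.subtype).normalCore, ?_, inferInstance,
    (large_pull N hNf θ hθ R₂ hR₂L).mono (Subgroup.normalCore_le _), ?_, ?_⟩
  · exact Nat.one_le_iff_ne_zero.2 (mul_ne_zero hm0 (by omega))
  · rw [Subgroup.normal_le_normalCore]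
    intro r hr
    obtain ⟨h1, h2⟩ := hRN r hr
    exact Subgroup.mem_map.2 ⟨⟨r, h1⟩, by
      rw [Subgroup.mem_comap, h2]
      exact R₂.one_mem, rfl⟩
  · intro j f
    have hout : (f : F ⧸ N).out⁻¹ * f ∈ N := by
      rw [← QuotientGroup.eq, QuotientGroup.out_eq']
    set t := (f : F ⧸ N).out with ht
    have hy : f * t⁻¹ ∈ N := by
      have := hNn.conj_mem _ hout t
      rwa [show t * (t⁻¹ * f) * t⁻¹ = f * t⁻¹ by group] at this
    refine Subgroup.mem_map.2 ⟨⟨f * t⁻¹, hy⟩ * ⟨t * g j ^ m * t⁻¹, hconj _ _⟩ ^ k *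
      ⟨f * t⁻¹, hy⟩⁻¹, ?_, ?_⟩
    · rw [Subgroup.mem_comap, map_mul, map_mul, map_inv, map_pow]
      exact hR₂n.conj_mem _ (hpow' j (f : F ⧸ N)) _
    · simp only [map_mul, map_pow, map_inv, Subgroup.subtype_apply]
      rw [conj_pow, pow_mul]
      group

end Pool.Agent.BP
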