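import Pool.Agent.Lib.BP.Full
import Pool.Agent.Lib.Pfc0641.Hopf

/-!
MODULE BP.Resid (0.9 h). Residual finiteness of the free group of rank two in the form needed, and powers in a normal subgroup with a large quotient.

* `resid`: for the finitely many nontrivial elements `(w j)^t`, `1 ≤ t < L` (the group is torsion free: `FreeGroup` in Mathlib, `IsMulTorsionFree` or similar), `Pool.Agent.Pfc0641.hopf_rf` (file `Pool.Agent.Lib.Pfc0641.Hopf`, import it)
  gives homomorphisms to finite groups not killing them; let `G` be the range of the product homomorphism (finite group), `V = G`, `p i` = left multiplication by the image of `of i`; `pi p w v = f w * v`; transitive; the orbit of `v`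
  under `zpowers (w j)` contains the distinct elements `f (w j)^t * v`, `0 ≤ t < L`.
* `pow_two`: replace the trivial `w j` by `of 0` (their powers are trivial); apply `resid` with `L = q + 1` and `bp` with `n = 2`, `r j = 1`, `b j = fun _ => w j` (`Subgroup.closure (range)` = `zpowers`; the cost is `q + 2 ≤ 2 + q`);
  `k = |V|!` (or the order of the finite group `Perm V`): `(w j)^k` acts trivially.
-/

set_option autoImplicit false

namespace Pool.Agent.BP

theorem resid {q : ℕ} (w : Fin q → FreeGroup (Fin 2)) (hw : ∀ j, w j ≠ 1) (L : ℕ) :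
    ∃ (V : Type) (_ : Finite V) (_ : Nonempty V) (p : Fin 2 → Equiv.Perm V),
      (∀ x y, ∃ u, pi p u x = y) ∧
      ∀ j x, L ≤ Nat.card {y : V // ∃ z ∈ Subgroup.zpowers (w j), pi p z x = y} := by
  classical
  have h0 : ∀ a : Fin q × Fin L, ∃ (k : ℕ) (ψ : FreeGroup (Fin 2) →* Equiv.Perm (Fin (k + 1))),
      ψ (w a.1 ^ (a.2.val + 1)) ≠ 1 := by
    intro a
    refine Pool.Agent.Pfc0641.hopf_rf _ fun h => hw a.1 ?_
    exact (pow_eq_one_iff_left (Nat.succ_ne_zero _)).1 h
  choose k ψ hψ using h0
  let f : FreeGroup (Fin 2) →* ((a : Fin q × Fin L) → Equiv.Perm (Fin (k a + 1))) :=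
    MonoidHom.pi ψ
  have hf : ∀ j t, 1 ≤ t → t < L → f (w j ^ t) ≠ 1 := by
    intro j t h1 h2 h3
    have h4 := congrFun h3 (j, ⟨t - 1, by omega⟩)
    have h5 := hψ (j, ⟨t - 1, by omega⟩)
    apply h5
    have h6 : (t - 1) + 1 = t := by omega
    change ψ _ (w j ^ ((t - 1) + 1)) = 1
    rw [h6]
    exact h4
  have hfr : Finite f.range := Subtype.finite
  let p : Fin 2 → Equiv.Perm f.range := fun i => Equiv.mulLeft (f.rangeRestrict (FreeGroup.of i))
  have hp : ∀ u x, pi p u x = f.rangeRestrict u * x := by
    intro u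
    induction u using FreeGroup.induction_on with
    | C1 => intro x; rw [pi_one, map_one, one_mul]
    | of i => intro x; rw [pi_of]; rfl
    | inv_of i ih =>
      intro x
      have h := ih (pi p (FreeGroup.of i)⁻¹ x)
      rw [pi_pi_inv] at h
      rw [map_inv f.rangeRestrict, eq_inv_mul_iff_mul_eq]
      exact h.symm
    | mul u v hu hv => intro x; rw [pi_mul, hv, hu, map_mul, mul_assoc]
  refine ⟨f.range, hfr, ⟨1⟩, p, ?_, ?_⟩
  · intro x y
    obtain ⟨u, hu⟩ := f.rangeRestrict_surjective (y * x⁻¹)
    exact ⟨u, by rw [hp, hu, inv_mul_cancel_right]⟩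
  · intro j x
    have hfin : Finite {y : f.range // ∃ z ∈ Subgroup.zpowers (w j), pi p z x = y} :=
      Subtype.finite
    have h1 : L = Nat.card (Fin L) := by simp
    conv_lhs => rw [h1]
    refine Nat.card_le_card_of_injective (fun t : Fin L =>
      (⟨pi p (w j ^ t.val) x, w j ^ t.val, Subgroup.npow_mem_zpowers (w j) t.val, rfl⟩ :
        {y : f.range // ∃ z ∈ Subgroup.zpowers (w j), pi p z x = y})) ?_
    have key : ∀ s t : Fin L, s.val < t.val → pi p (w j ^ s.val) x ≠ pi p (w j ^ t.val) x := by
      intro s t hst h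
      rw [hp, hp, mul_left_inj] at h
      have h2 := congrArg Subtype.val h
      have h3 : f (w j ^ s.val) = f (w j ^ t.val) := h2
      have h4 : f (w j ^ (t.val - s.val)) = 1 := by
        have h5 : w j ^ t.val = w j ^ (t.val - s.val) * w j ^ s.val := by
          rw [← pow_add]
          congr 1
          omega
        rw [h5, map_mul] at h3
        exact (mul_eq_right.1 h3.symm)
      exact hf j (t.val - s.val) (by omega) (by omega) h4
    intro s t hst
    have h := congrArg Subtype.val hst
    rcases lt_trichotomy s.val t.val with h1 | h1 | h1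
    · exact absurd h (key s t h1)
    · exact Fin.ext h1
    · exact absurd h.symm (key t s h1)

theorem pow_two {q : ℕ} (w : Fin q → FreeGroup (Fin 2)) :
    ∃ (k : ℕ) (R : Subgroup (FreeGroup (Fin 2))), 1 ≤ k ∧ R.Normal ∧ Large R ∧
      ∀ j, (w j) ^ k ∈ R := by
  classical
  set w' : Fin q → FreeGroup (Fin 2) := fun j => if w j = 1 then FreeGroup.of 0 else w j with hw'
  have hne : ∀ j, w' j ≠ 1 := by
    intro j
    rw [hw']
    simp only
    split_ifs with h
    · exact FreeGroup.of_ne_one 0
    · exact h
  obtain ⟨V, hV, hV', p, htr, horb⟩ := resid w' hne (q + 1)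
  have hcl : ∀ j, Subgroup.closure (Set.range (fun _ : Fin 1 => w' j)) =
      Subgroup.zpowers (w' j) := by
    intro j
    rw [Set.range_const, Subgroup.zpowers_eq_closure]
  obtain ⟨R, hR, hlarge, hmem⟩ := bp p htr (fun _ => 1) (fun j _ => w' j)
    (fun j x => by rw [hcl]; exact horb j x) (by simp; omega)
  have hfinP : Finite (Equiv.Perm V) := inferInstance
  refine ⟨Nat.card (Equiv.Perm V), R, Nat.card_pos, hR, hlarge, fun j => ?_⟩
  by_cases h : w j = 1
  · rw [h, one_pow]
    exact R.one_mem
  · have h1 : w' j = w j := by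
      rw [hw']
      simp only
      rw [if_neg h]
    rw [← h1]
    refine hmem j _ ?_ fun v => ?_
    · rw [hcl]
      exact Subgroup.npow_mem_zpowers (w' j) _
    · rw [map_pow, pow_card_eq_one']
      rfl

end Pool.Agent.BP
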