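import Pool.Agent.Lib.BP.Defs

/-!
MODULE BP.Surj (0.8 h). Homomorphisms to the free group of rank two with a nonabelian image, and easy facts on `Large`.

* `ne_comm`: commuting elements of `FreeGroup (Fin 2)` have collinear exponent vectors. Proof: map `FreeGroup (Fin 2)` to the integral Heisenberg group
  (for instance the group of the triples `(a, b, c)` of integers with `(a,b,c)(a',b',c') = (a+a', b+b', c+c'+a b')`, or unipotent upper triangular matrices in `SpecialLinearGroup (Fin 3) ℤ`,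
  or the permutations `(i, j) ↦ (i + 1, j)`, `(i, j) ↦ (i, j + i)` of `ℤ × ℤ`) by `of 0 ↦ (1,0,0)`, `of 1 ↦ (0,1,0)`:
  the image of `x` is `(ex 0 x, ex 1 x, *)`, and two such triples commute iff `a b' = a' b`.
* `exists_surj`: the range of `θ` is a free group (`subgroupIsFreeOfIsFree` for `θ.range`, `IsFreeGroup.toFreeGroup`); its set of generators has two distinct elements `x ≠ y`
  (otherwise it is commutative: `Pool.Agent.Occ.comm_of_subsingleton` in `Pool.Agent.Lib.Occ.General`, import it if you like); send `x ↦ of 0`, all others to `of 1`.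
* `large_of_ne`: immediate.
* `large_normal`: let `N0 = N.normalCore` (finite index, contains `R` because `R` is normal, `Subgroup.normal_le_normalCore`); restrict `θ` to `N0`: the powers `a^m, b^m` of preimages `a, b ∈ N` of `of 0`, `of 1`
  lie in `N0` for some `m ≥ 1` (finite index), their images `(of 0)^m, (of 1)^m` do not commute by `ne_comm`; use `exists_surj`.
* `Large.map_aut`: transport along an automorphism.
-/

set_option autoImplicit false

namespace Pool.Agent.BP

open Function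

/-- exponent sum of the generator `i` -/
def ex (i : Fin 2) : FreeGroup (Fin 2) →* Multiplicative ℤ :=
  FreeGroup.lift (fun j => Multiplicative.ofAdd (if j = i then 1 else 0))

/-- the integral Heisenberg group -/
@[ext] structure SurjHeis where
  /-- first coordinate -/
  a : ℤ
  /-- second coordinate -/
  b : ℤ
  /-- central coordinate -/
  c : ℤ

namespace SurjHeis

instance : Mul SurjHeis := ⟨fun x y => ⟨x.a + y.a, x.b + y.b, x.c + y.c + x.a * y.b⟩⟩
instance : One SurjHeis := ⟨⟨0, 0, 0⟩⟩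
instance : Inv SurjHeis := ⟨fun x => ⟨-x.a, -x.b, -x.c + x.a * x.b⟩⟩

theorem mul_def (x y : SurjHeis) :
    x * y = ⟨x.a + y.a, x.b + y.b, x.c + y.c + x.a * y.b⟩ := rfl
theorem one_def : (1 : SurjHeis) = ⟨0, 0, 0⟩ := rfl
theorem inv_def (x : SurjHeis) : x⁻¹ = ⟨-x.a, -x.b, -x.c + x.a * x.b⟩ := rfl

instance : Group SurjHeis :=
  Group.ofLeftAxioms
    (fun x y z => by
      simp only [mul_def, SurjHeis.mk.injEq]
      refine ⟨by ring, by ring, by ring⟩)
    (fun x => by
      simp only [mul_def, one_def]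
      ext <;> simp)
    (fun x => by
      simp only [mul_def, one_def, inv_def, SurjHeis.mk.injEq]
      refine ⟨by ring, by ring, by ring⟩)

/-- projection -/
def pa : SurjHeis →* Multiplicative ℤ where
  toFun x := Multiplicative.ofAdd x.a
  map_one' := rfl
  map_mul' _ _ := rfl

/-- projection -/
def pb : SurjHeis →* Multiplicative ℤ where
  toFun x := Multiplicative.ofAdd x.b
  map_one' := rfl
  map_mul' _ _ := rfl

/-- the standard map -/
def std : FreeGroup (Fin 2) →* SurjHeis :=
  FreeGroup.lift (fun j => ⟨if j = 0 then 1 else 0, if j = 1 then 1 else 0, 0⟩)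

theorem pa_std : pa.comp std = ex 0 := by
  refine FreeGroup.ext_hom _ _ fun j => ?_
  simp [std, ex, pa]

theorem pb_std : pb.comp std = ex 1 := by
  refine FreeGroup.ext_hom _ _ fun j => ?_
  simp [std, ex, pb]

end SurjHeis

theorem ne_comm (x y : FreeGroup (Fin 2))
    (h : Multiplicative.toAdd (ex 0 x) * Multiplicative.toAdd (ex 1 y) ≠
      Multiplicative.toAdd (ex 0 y) * Multiplicative.toAdd (ex 1 x)) : x * y ≠ y * x := by
  intro hc
  apply h
  have ha : ∀ z, Multiplicative.toAdd (ex 0 z) = (SurjHeis.std z).a := fun z => by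
    rw [← SurjHeis.pa_std]; rfl
  have hb : ∀ z, Multiplicative.toAdd (ex 1 z) = (SurjHeis.std z).b := fun z => by
    rw [← SurjHeis.pb_std]; rfl
  have h1 : SurjHeis.std x * SurjHeis.std y = SurjHeis.std y * SurjHeis.std x := by
    rw [← map_mul, hc, map_mul]
  have h2 := congrArg SurjHeis.c h1
  simp only [SurjHeis.mul_def] at h2
  rw [ha, ha, hb, hb]
  linarith

theorem surj_comm_of_subsingleton {X : Type*} [Subsingleton X] (u v : FreeGroup X) :
    Commute u v := by
  have key : ∀ (i : X) (v : FreeGroup X), Commute (FreeGroup.of i) v := by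
    intro i v
    induction v using FreeGroup.induction_on with
    | C1 => exact Commute.one_right _
    | of j => rw [Subsingleton.elim i j]
    | inv_of j ih => exact ih.inv_right
    | mul x y hx hy => exact hx.mul_right hy
  induction u using FreeGroup.induction_on with
  | C1 => exact Commute.one_left _
  | of i => exact key i v
  | inv_of i ih => exact ih.inv_left
  | mul x y hx hy => exact hx.mul_left hy

theorem exists_surj {N : Type*} [Group N] (θ : N →* FreeGroup (Fin 2)) (a b : N)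
    (hab : θ a * θ b ≠ θ b * θ a) :
    ∃ θ' : N →* FreeGroup (Fin 2), Surjective θ' ∧ ∀ x, θ x = 1 → θ' x = 1 := by
  classical
  have : IsFreeGroup θ.range := subgroupIsFreeOfIsFree _
  let e := IsFreeGroup.toFreeGroup θ.range
  have hns : ¬ Subsingleton (IsFreeGroup.Generators θ.range) := by
    intro hs
    apply hab
    have h1 := (surj_comm_of_subsingleton (e ⟨θ a, a, rfl⟩) (e ⟨θ b, b, rfl⟩)).eq
    rw [← map_mul, ← map_mul] at h1
    exact congrArg Subtype.val (e.injective h1)
  rw [not_subsingleton_iff_nontrivial] at hns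
  obtain ⟨x, y, hxy⟩ := hns.exists_pair_ne
  let g : FreeGroup (IsFreeGroup.Generators θ.range) →* FreeGroup (Fin 2) :=
    FreeGroup.lift (fun z => if z = x then FreeGroup.of 0 else FreeGroup.of 1)
  have hgx : g (FreeGroup.of x) = FreeGroup.of 0 := by simp [g]
  have hgy : g (FreeGroup.of y) = FreeGroup.of 1 := by
    simp only [g, FreeGroup.lift_apply_of]
    rw [if_neg (Ne.symm hxy)]
  have hg : Surjective g := by
    rw [← MonoidHom.range_eq_top, eq_top_iff, ← FreeGroup.closure_range_of (Fin 2),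
      Subgroup.closure_le]
    rintro _ ⟨i, rfl⟩
    fin_cases i
    · exact ⟨_, hgx⟩
    · exact ⟨_, hgy⟩
  refine ⟨(g.comp e.toMonoidHom).comp θ.rangeRestrict, ?_, ?_⟩
  · exact (hg.comp e.surjective).comp θ.rangeRestrict_surjective
  · intro z hz
    have h1 : θ.rangeRestrict z = 1 := Subtype.ext hz
    simp only [MonoidHom.comp_apply, h1, map_one]

theorem large_of_ne {F : Type*} [Group F] (R N : Subgroup F) (hN : N.FiniteIndex)
    (θ : N →* FreeGroup (Fin 2)) (hR : ∀ r ∈ R, ∃ hr : r ∈ N, θ ⟨r, hr⟩ = 1) (x y : N)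
    (h : θ x * θ y ≠ θ y * θ x) : Large R := by
  obtain ⟨θ', h1, h2⟩ := exists_surj θ x y h
  refine ⟨N, θ', hN, h1, fun r hr => ?_⟩
  obtain ⟨hrN, h3⟩ := hR r hr
  exact ⟨hrN, h2 _ h3⟩

theorem large_normal {F : Type*} [Group F] (R : Subgroup F) [R.Normal] (h : Large R) :
    ∃ (N : Subgroup F) (θ : N →* FreeGroup (Fin 2)), N.Normal ∧ N.FiniteIndex ∧ Surjective θ ∧
      ∀ r ∈ R, ∃ hr : r ∈ N, θ ⟨r, hr⟩ = 1 := by
  obtain ⟨N, θ, hN, hθ, hR⟩ := h
  have := hN
  have hle : N.normalCore ≤ N := Subgroup.normalCore_le N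
  have hfi : N.normalCore.FiniteIndex := inferInstance
  have hRN : R ≤ N.normalCore := by
    rw [Subgroup.normal_le_normalCore]
    exact fun r hr => (hR r hr).choose
  obtain ⟨a, ha⟩ := hθ (FreeGroup.of 0)
  obtain ⟨b, hb⟩ := hθ (FreeGroup.of 1)
  obtain ⟨m1, hm1, -, ha1⟩ := Subgroup.exists_pow_mem_of_index_ne_zero hfi.index_ne_zero (a : F)
  obtain ⟨m2, hm2, -, hb1⟩ := Subgroup.exists_pow_mem_of_index_ne_zero hfi.index_ne_zero (b : F)
  let θ0 : N.normalCore →* FreeGroup (Fin 2) := θ.comp (Subgroup.inclusion hle)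
  have ha2 : θ0 ⟨(a : F) ^ m1, ha1⟩ = (FreeGroup.of 0) ^ m1 := by
    rw [← ha, ← map_pow]; rfl
  have hb2 : θ0 ⟨(b : F) ^ m2, hb1⟩ = (FreeGroup.of 1) ^ m2 := by
    rw [← hb, ← map_pow]; rfl
  have hne : θ0 ⟨(a : F) ^ m1, ha1⟩ * θ0 ⟨(b : F) ^ m2, hb1⟩ ≠
      θ0 ⟨(b : F) ^ m2, hb1⟩ * θ0 ⟨(a : F) ^ m1, ha1⟩ := by
    rw [ha2, hb2]
    apply ne_comm
    simp only [map_pow, toAdd_pow]
    simp [ex]
    omega
  obtain ⟨θ', h1, h2⟩ := exists_surj θ0 _ _ hne
  refine ⟨N.normalCore, θ', inferInstance, hfi, h1, fun r hr => ⟨hRN hr, h2 _ ?_⟩⟩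
  obtain ⟨hrN, h3⟩ := hR r hr
  exact h3

theorem Large.map_aut {F : Type*} [Group F] (R : Subgroup F) (h : Large R) (σ : MulAut F) :
    Large (R.map σ.toMonoidHom) := by
  obtain ⟨N, θ, hN, hθ, hR⟩ := h
  let e := N.equivMapOfInjective σ.toMonoidHom σ.injective
  refine ⟨N.map σ.toMonoidHom, θ.comp e.symm.toMonoidHom, ?_, ?_, ?_⟩
  · constructor
    have h1 : (N.map σ.toMonoidHom).index = N.index := Subgroup.index_map_equiv N σ
    rw [h1]
    exact hN.index_ne_zero
  · exact hθ.comp e.symm.surjective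
  · rintro _ ⟨r, hr, rfl⟩
    obtain ⟨hrN, h3⟩ := hR r hr
    refine ⟨⟨r, hrN, rfl⟩, ?_⟩
    have h4 : e.symm ⟨σ.toMonoidHom r, ⟨r, hrN, rfl⟩⟩ = ⟨r, hrN⟩ := by
      rw [MulEquiv.symm_apply_eq]
      rfl
    show θ (e.symm ⟨σ.toMonoidHom r, ⟨r, hrN, rfl⟩⟩) = 1
    rw [h4]
    exact h3

end Pool.Agent.BP
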