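import Pool.Agent.Lib.BP.Defs

/-!
MODULE BP.Window (1.3 h). The labels `ell` on `V × ℤ`: `T^m s^ψ T^(-m)` with `T = of 1`, `s = of 0`, `m = a / K` (floor), `ψ = ψ i (v, a mod K)`.

`window`: all steps of the path of the word `w` from `(v, a)` stay at distance at most `D = C * w.norm` from `a` (each letter moves the second coordinate by at most `C`, also the base point of an
inverse letter is one of the two ends). Case 1: `(a - D) / K = (a + D) / K =: M`: every step has the same `m = M`, so the label is `T^M s^(sig) T^(-M)`. Case 2: otherwise some multiple of `K` lies in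
`(a - D, a + D]`, so every step is at a point whose second coordinate is at distance at most `2 D < W` from a multiple of `K`, so `ψ = 0` there by `hψ`; the label and the sum are trivial (any `M`).
Suggestion: prove by induction on a list `L` of letters (`FreeGroup.mk L`, cons on the left: `FreeGroup.mk (x :: L) = FreeGroup.mk [x] * FreeGroup.mk L`, the last letter acts first) the statement:
for `M : ℤ` and `a`, if for all `y : ℤ` with `|y - a| ≤ C * L.length` we have `y / K = M ∨ ∀ i v, ψ i (v, (y : ZMod K)) = 0`, then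
`lab (tr p c) (ell K ψ) (mk L) (v, a) = T^M * s^(sig ... (mk L) (v, a)) * T^(-M)` (use `lab_mul`, `sig_mul`, `pi_tr`; for the letter `(i, false)` use `lab_inv`, `sig_inv`),
together with the bound `|sig p c (mk L) v| ≤ C * L.length`. Then apply it to `L = w.toWord` (`FreeGroup.mk_toWord`, `FreeGroup.norm` is its length).
-/

set_option autoImplicit false

namespace Pool.Agent.BP

/-- labels on `V × ℤ` -/
def ell {n : ℕ} {V : Type*} (K : ℕ) (ψ : Fin n → V × ZMod K → ℤ) (i : Fin n) (x : V × ℤ) :
    FreeGroup (Fin 2) :=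
  (FreeGroup.of 1) ^ (x.2 / (K : ℤ)) * (FreeGroup.of 0) ^ (ψ i (x.1, (x.2 : ZMod K))) *
    (FreeGroup.of 1) ^ (-(x.2 / (K : ℤ)))

theorem ell_eq {n : ℕ} {V : Type*} (K : ℕ) (ψ : Fin n → V × ZMod K → ℤ) (M y : ℤ)
    (h : y / (K : ℤ) = M ∨ ∀ i v, ψ i (v, (y : ZMod K)) = 0) (i : Fin n) (v : V) :
    ell K ψ i (v, y) =
      (FreeGroup.of 1) ^ M * (FreeGroup.of 0) ^ (ψ i (v, (y : ZMod K))) *
        (FreeGroup.of 1) ^ (-M) := by
  rcases h with h | h
  · simp only [ell]
    rw [h]
  · simp only [ell]
    rw [h i v]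
    simp

theorem window_list {n : ℕ} {V : Type*} (K C : ℕ) (p : Fin n → Equiv.Perm V)
    (c : Fin n → V → ℤ) (hC : ∀ i v, |c i v| ≤ C) (ψ : Fin n → V × ZMod K → ℤ) (M : ℤ)
    (v : V) (a : ℤ) : ∀ L : List (Fin n × Bool),
    (∀ y : ℤ, |y - a| ≤ C * L.length → y / (K : ℤ) = M ∨ ∀ i v, ψ i (v, (y : ZMod K)) = 0) →
    |sig p c (FreeGroup.mk L) v| ≤ C * L.length ∧
    lab (tr p c) (ell K ψ) (FreeGroup.mk L) (v, a) =
      (FreeGroup.of 1) ^ M *
        (FreeGroup.of 0) ^ (sig (tr p (fun i v => (c i v : ZMod K))) ψ (FreeGroup.mk L)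
          (v, (a : ZMod K))) *
        (FreeGroup.of 1) ^ (-M)
  | [], _ => by
      rw [← FreeGroup.one_eq_mk]
      simp
  | (i, b) :: L, h => by
      have hlen : (((i, b) :: L : List (Fin n × Bool)).length : ℤ) = L.length + 1 := by
        simp
      have hC0 : (0 : ℤ) ≤ C := Int.natCast_nonneg C
      obtain ⟨ih1, ih2⟩ := window_list K C p c hC ψ M v a L (fun y hy => h y (by
        rw [hlen]
        nlinarith))
      set w := FreeGroup.mk L with hw
      have hmk : FreeGroup.mk ((i, b) :: L) = FreeGroup.mk [(i, b)] * w := by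
        rw [hw, FreeGroup.mul_mk]
        rfl
      rw [hmk, hlen]
      have hpi : pi (tr p c) w (v, a) = (pi p w v, a + sig p c w v) := pi_tr p c w v a
      have hsc : sig p (fun i v => (c i v : ZMod K)) w v = ((sig p c w v : ℤ) : ZMod K) :=
        sig_map (Int.castAddHom (ZMod K)) p c w v
      have hpi2 : pi (tr p (fun i v => (c i v : ZMod K))) w (v, (a : ZMod K)) =
          (pi p w v, ((a + sig p c w v : ℤ) : ZMod K)) := by
        rw [pi_tr, hsc]
        push_cast
        rfl
      rw [sig_mul, sig_mul, lab_mul, hpi, hpi2, ih2]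
      set v' := pi p w v with hv'
      set a' := a + sig p c w v with ha'
      cases b with
      | true =>
        have hof : FreeGroup.mk [(i, true)] = FreeGroup.of i := rfl
        rw [hof, sig_of, sig_of, lab_of]
        constructor
        · have h1 := hC i v'
          have h2 := abs_add_le (c i v') (sig p c w v)
          linarith
        · rw [ell_eq K ψ M a' (h a' (by
            rw [hlen, ha', add_sub_cancel_left]
            linarith)) i v', zpow_add]
          group
      | false =>
        have hof : FreeGroup.mk [(i, false)] = (FreeGroup.of i)⁻¹ := rfl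
        rw [hof, sig_inv, sig_inv, lab_inv, sig_of, sig_of, lab_of]
        set v'' := pi p (FreeGroup.of i)⁻¹ v' with hv''
        have e1 : pi (tr p c) (FreeGroup.of i)⁻¹ (v', a') = (v'', a' - c i v'') := by
          rw [pi_tr, sig_inv, sig_of]
          rfl
        have e2 : pi (tr p (fun i v => (c i v : ZMod K))) (FreeGroup.of i)⁻¹
            (v', (a' : ZMod K)) = (v'', ((a' - c i v'' : ℤ) : ZMod K)) := by
          rw [pi_tr, sig_inv, sig_of]
          push_cast
          rw [sub_eq_add_neg]
        rw [e1, e2]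
        have h1 := hC i v''
        constructor
        · have h2 := abs_add_le (-(c i v'')) (sig p c w v)
          rw [abs_neg] at h2
          linarith
        · rw [ell_eq K ψ M (a' - c i v'') (h (a' - c i v'') (by
            rw [hlen, ha', show a + sig p c w v - c i v'' - a = sig p c w v + -(c i v'') by ring]
            have h2 := abs_add_le (sig p c w v) (-(c i v''))
            rw [abs_neg] at h2
            linarith)) i v'', zpow_add]
          group

theorem window {n : ℕ} {V : Type*} (K W C : ℕ) (hK : 0 < K) (p : Fin n → Equiv.Perm V)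
    (c : Fin n → V → ℤ) (hC : ∀ i v, |c i v| ≤ C) (ψ : Fin n → V × ZMod K → ℤ)
    (hψ : ∀ i x, ψ i x ≠ 0 → W ≤ x.2.val ∧ x.2.val + W < K) (w : FreeGroup (Fin n))
    (hw : 2 * (C * w.norm) < W) (v : V) (a : ℤ) :
    ∃ M : ℤ, lab (tr p c) (ell K ψ) w (v, a) =
      (FreeGroup.of 1) ^ M *
        (FreeGroup.of 0) ^ (sig (tr p (fun i v => (c i v : ZMod K))) ψ w (v, (a : ZMod K))) *
        (FreeGroup.of 1) ^ (-M) := by
  have hK0 : (0 : ℤ) < K := by exact_mod_cast hK
  have : NeZero K := ⟨hK.ne'⟩
  set D : ℤ := C * w.norm with hD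
  have hlen : ((FreeGroup.toWord w).length : ℤ) = w.norm := rfl
  have hDW : 2 * D < W := by
    rw [hD]
    exact_mod_cast hw
  have main : ∃ M : ℤ, ∀ y : ℤ, |y - a| ≤ D → y / (K : ℤ) = M ∨
      ∀ i v, ψ i (v, (y : ZMod K)) = 0 := by
    by_cases hcase : (a - D) / (K : ℤ) = (a + D) / (K : ℤ)
    · refine ⟨(a + D) / (K : ℤ), fun y hy => Or.inl ?_⟩
      obtain ⟨h1, h2⟩ := abs_le.1 hy
      refine le_antisymm (Int.ediv_le_ediv hK0 (by linarith)) ?_
      rw [← hcase]
      exact Int.ediv_le_ediv hK0 (by linarith)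
    · refine ⟨0, fun y hy => Or.inr fun i v => ?_⟩
      obtain ⟨h1, h2⟩ := abs_le.1 hy
      have hle : (a - D) / (K : ℤ) ≤ (a + D) / (K : ℤ) := Int.ediv_le_ediv hK0 (by linarith)
      have hlt : (a - D) / (K : ℤ) < (a + D) / (K : ℤ) := lt_of_le_of_ne hle hcase
      set q := (a + D) / (K : ℤ) with hq
      have h3 : a - D < q * K := (Int.ediv_lt_iff_lt_mul hK0).1 hlt
      have h4 : q * K ≤ a + D := Int.ediv_mul_le _ hK0.ne'
      by_contra hne
      obtain ⟨h5, h6⟩ := hψ i (v, (y : ZMod K)) hne
      have h5' : (W : ℤ) ≤ ((y : ZMod K).val : ℤ) := by exact_mod_cast h5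
      have h6' : ((y : ZMod K).val : ℤ) + W < K := by exact_mod_cast h6
      rw [ZMod.val_intCast] at h5' h6'
      have h7 := Int.emod_add_mul_ediv y K
      have h8 : y - q * K < W := by linarith
      have h9 : -(W : ℤ) < y - q * K := by linarith
      have h10 : (K : ℤ) * (y / K) < q * K + K - W := by linarith
      have h11 : q * K - K < (K : ℤ) * (y / K) := by linarith
      set m := y / (K : ℤ) with hm
      have hmq : m = q := by
        have h12 : m < q + 1 := by
          by_contra hcon
          push Not at hcon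
          nlinarith
        have h13 : q - 1 < m := by
          by_contra hcon
          push Not at hcon
          nlinarith
        omega
      rw [hmq] at h7
      have h14 : y % (K : ℤ) = y - q * K := by linarith
      linarith
  obtain ⟨M, hM⟩ := main
  refine ⟨M, ?_⟩
  have h := (window_list K C p c hC ψ M v a (FreeGroup.toWord w) (fun y hy => hM y (by
    rw [hlen] at hy
    exact hy))).2
  rwa [FreeGroup.mk_toWord] at h

end Pool.Agent.BP
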