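import Pool.Agent.Lib.BP.Window
import Pool.Agent.Lib.BP.Surj

/-!
MODULE BP.WindowB (1.3 h). `N` = the stabiliser of `(v₀, 0) : V × ZMod K` (finite index since `V × ZMod K` is finite). For `w ∈ N`: `pi (tr p c) w (v₀, 0) = (v₀, j K)` with `j K = sig p c w v₀`
(`pi_tr`, and `sig_map` for the cast to `ZMod K`). Put `θ w = T^(-j) * lab (tr p c) (ell K ψ) w (v₀, 0)`, `T = of 1`, `j = sig p c w v₀ / K`.
It is a homomorphism: the labels satisfy `ell K ψ i (v, a + j K) = T^j * ell K ψ i (v, a) * T^(-j)`, hence `lab ... w (v, a + j K) = T^j * lab ... w (v, a) * T^(-j)` (`lab_unique` or induction), and `lab_mul`.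
If `w` is in the kernel of `act (tr p c) (ell K ψ)` then `w` fixes `(v₀, 0)` and the label is trivial (`act_eq_one_iff`), so `w ∈ N` and `θ w = 1`.
Exponents: `ex 0 (θ w) = sig xK ψ w (v₀, 0)` (apply `ex 0` to the labels: `ex 0 (ell K ψ i x) = ψ i (x.1, x.2 mod K)`; functoriality of `lab` under a homomorphism of the label group by `lab_unique`, then `sig_pull` for
`(v, a) ↦ (v, (a : ZMod K))`), and `ex 1 (θ w) = -j`. So `hne` and `ne_comm` give that `θ w₁`, `θ w₂` do not commute; conclude with `large_of_ne`.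
-/

set_option autoImplicit false

namespace Pool.Agent.BP

namespace WindowBAux

variable {n : ℕ} {V : Type*}

theorem ell_shift (K : ℕ) (hK : 0 < K) (ψ : Fin n → V × ZMod K → ℤ) (i : Fin n) (v : V) (a j : ℤ) :
    ell K ψ i (v, a + j * K) =
      (FreeGroup.of 1) ^ j * ell K ψ i (v, a) * (FreeGroup.of 1) ^ (-j) := by
  have hK0 : (K : ℤ) ≠ 0 := by exact_mod_cast hK.ne'
  have h1 : (a + j * K) / (K : ℤ) = a / K + j := Int.add_mul_ediv_right a j hK0
  have h2 : ((a + j * K : ℤ) : ZMod K) = (a : ZMod K) := by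
    push_cast
    rw [ZMod.natCast_self, mul_zero, add_zero]
  have h3 : -(a / (K : ℤ) + j) = -(a / (K : ℤ)) + -j := by ring
  have h4 : a / (K : ℤ) + j = j + a / (K : ℤ) := by ring
  simp only [ell]
  rw [h1, h2, h3, h4, zpow_add, zpow_add]
  simp only [mul_assoc]

theorem lab_shift (K : ℕ) (hK : 0 < K) (p : Fin n → Equiv.Perm V) (c : Fin n → V → ℤ)
    (ψ : Fin n → V × ZMod K → ℤ) (w : FreeGroup (Fin n)) (v : V) (a j : ℤ) :
    lab (tr p c) (ell K ψ) w (v, a + j * K) =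
      (FreeGroup.of 1) ^ j * lab (tr p c) (ell K ψ) w (v, a) * (FreeGroup.of 1) ^ (-j) := by
  have key : ∀ x : V × ℤ, (FreeGroup.of 1) ^ (-j) *
      lab (tr p c) (ell K ψ) w (x.1, x.2 + j * K) * (FreeGroup.of 1) ^ j =
      lab (tr p c) (ell K ψ) w x := by
    intro x
    refine lab_unique (tr p c) (ell K ψ) (fun w x => (FreeGroup.of 1) ^ (-j) *
      lab (tr p c) (ell K ψ) w (x.1, x.2 + j * K) * (FreeGroup.of 1) ^ j) ?_ ?_ w x
    · intro i x
      show (FreeGroup.of 1) ^ (-j) * lab (tr p c) (ell K ψ) (FreeGroup.of i) (x.1, x.2 + j * K) *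
        (FreeGroup.of 1) ^ j = _
      rw [lab_of, ell_shift K hK]
      simp only [zpow_neg]
      group
    · intro u w x
      show (FreeGroup.of 1) ^ (-j) * lab (tr p c) (ell K ψ) (u * w) (x.1, x.2 + j * K) *
        (FreeGroup.of 1) ^ j = ((FreeGroup.of 1) ^ (-j) *
          lab (tr p c) (ell K ψ) u ((pi (tr p c) w x).1, (pi (tr p c) w x).2 + j * K) *
          (FreeGroup.of 1) ^ j) * ((FreeGroup.of 1) ^ (-j) *
          lab (tr p c) (ell K ψ) w (x.1, x.2 + j * K) * (FreeGroup.of 1) ^ j)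
      have h1 : pi (tr p c) w (x.1, x.2 + j * K) =
          ((pi (tr p c) w x).1, (pi (tr p c) w x).2 + j * K) := by
        have h2 : pi (tr p c) w x = (pi p w x.1, x.2 + sig p c w x.1) := pi_tr p c w x.1 x.2
        rw [pi_tr, h2]
        ext
        · rfl
        · show x.2 + j * K + sig p c w x.1 = x.2 + sig p c w x.1 + j * K
          ring
      rw [lab_mul, h1]
      simp only [zpow_neg]
      group
  have h := key (v, a)
  rw [← h]
  simp only [zpow_neg]
  group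

theorem ex0_lab (K : ℕ) (p : Fin n → Equiv.Perm V) (c : Fin n → V → ℤ)
    (ψ : Fin n → V × ZMod K → ℤ) (w : FreeGroup (Fin n)) (x : V × ℤ) :
    Multiplicative.toAdd (ex 0 (lab (tr p c) (ell K ψ) w x)) =
      sig (tr p (fun i v => (c i v : ZMod K))) ψ w (x.1, (x.2 : ZMod K)) := by
  rw [← sig_pull (tr p c) (tr p (fun i v => (c i v : ZMod K)))
    (fun x : V × ℤ => (x.1, (x.2 : ZMod K))) (fun i x => by simp) ψ w x]
  refine sig_unique (tr p c) _
    (fun w x => Multiplicative.toAdd (ex 0 (lab (tr p c) (ell K ψ) w x))) ?_ ?_ w x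
  · intro i x
    simp [ell, ex]
  · intro u w x
    show Multiplicative.toAdd (ex 0 (lab (tr p c) (ell K ψ) (u * w) x)) = _
    rw [lab_mul, map_mul, toAdd_mul]

theorem ex1_lab (K : ℕ) (p : Fin n → Equiv.Perm V) (c : Fin n → V → ℤ)
    (ψ : Fin n → V × ZMod K → ℤ) (w : FreeGroup (Fin n)) (x : V × ℤ) :
    Multiplicative.toAdd (ex 1 (lab (tr p c) (ell K ψ) w x)) = 0 := by
  rw [← sig_zero (A := ℤ) (tr p c) w x]
  refine sig_unique (tr p c) _
    (fun w x => Multiplicative.toAdd (ex 1 (lab (tr p c) (ell K ψ) w x))) ?_ ?_ w x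
  · intro i x
    simp [ell, ex]
  · intro u w x
    show Multiplicative.toAdd (ex 1 (lab (tr p c) (ell K ψ) (u * w) x)) = _
    rw [lab_mul, map_mul, toAdd_mul]

/-- the values at a word fixing `(v₀, 0)` -/
theorem of_fix (K : ℕ) (p : Fin n → Equiv.Perm V) (c : Fin n → V → ℤ) (v₀ : V)
    (w : FreeGroup (Fin n))
    (h : pi (tr p (fun i v => (c i v : ZMod K))) w (v₀, 0) = (v₀, 0)) :
    pi p w v₀ = v₀ ∧ sig p c w v₀ / (K : ℤ) * K = sig p c w v₀ := by
  rw [pi_tr] at h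
  have h1 := (Prod.ext_iff.mp h).1
  have h2 := (Prod.ext_iff.mp h).2
  refine ⟨h1, ?_⟩
  have h3 : sig p (fun i v => (c i v : ZMod K)) w v₀ = ((sig p c w v₀ : ℤ) : ZMod K) :=
    sig_map (Int.castAddHom (ZMod K)) p c w v₀
  have h4 : ((sig p c w v₀ : ℤ) : ZMod K) = 0 := by
    rw [← h3]
    have h5 : (0 : ZMod K) + sig p (fun i v => (c i v : ZMod K)) w v₀ = 0 := h2
    rwa [zero_add] at h5
  rw [ZMod.intCast_zmod_eq_zero_iff_dvd] at h4
  exact Int.ediv_mul_cancel h4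

end WindowBAux

open WindowBAux in
theorem window_large {n : ℕ} {V : Type*} [Finite V] (K : ℕ) (hK : 0 < K)
    (p : Fin n → Equiv.Perm V) (c : Fin n → V → ℤ) (ψ : Fin n → V × ZMod K → ℤ) (v₀ : V)
    (w₁ w₂ : FreeGroup (Fin n))
    (h₁ : pi (tr p (fun i v => (c i v : ZMod K))) w₁ (v₀, 0) = (v₀, 0))
    (h₂ : pi (tr p (fun i v => (c i v : ZMod K))) w₂ (v₀, 0) = (v₀, 0))
    (hne : sig (tr p (fun i v => (c i v : ZMod K))) ψ w₁ (v₀, 0) * sig p c w₂ v₀ ≠
      sig (tr p (fun i v => (c i v : ZMod K))) ψ w₂ (v₀, 0) * sig p c w₁ v₀) :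
    Large (MonoidHom.ker (act (tr p c) (ell K ψ))) := by
  classical
  have : NeZero K := ⟨hK.ne'⟩
  have hfix : ∀ w : FreeGroup (Fin n),
      w ∈ (MulAction.stabilizer (Equiv.Perm (V × ZMod K)) ((v₀, 0) : V × ZMod K)).comap
        (pi (tr p (fun i v => (c i v : ZMod K)))) ↔
      pi (tr p (fun i v => (c i v : ZMod K))) w (v₀, 0) = (v₀, 0) := by
    intro w
    rw [Subgroup.mem_comap, MulAction.mem_stabilizer_iff]
    rfl
  set N : Subgroup (FreeGroup (Fin n)) :=
    (MulAction.stabilizer (Equiv.Perm (V × ZMod K)) ((v₀, 0) : V × ZMod K)).comap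
      (pi (tr p (fun i v => (c i v : ZMod K)))) with hN
  have hNfi : N.FiniteIndex := by
    have : Finite (Equiv.Perm (V × ZMod K)) := inferInstance
    have h1 : (pi (tr p (fun i v => (c i v : ZMod K)))).ker.FiniteIndex := inferInstance
    refine Subgroup.finiteIndex_of_le (H := (pi (tr p (fun i v => (c i v : ZMod K)))).ker) ?_
    intro w hw
    rw [hfix, MonoidHom.mem_ker.mp hw]
    rfl
  let θ : N →* FreeGroup (Fin 2) :=
    { toFun := fun w => (FreeGroup.of 1) ^ (-(sig p c (w : FreeGroup (Fin n)) v₀ / (K : ℤ))) *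
        lab (tr p c) (ell K ψ) (w : FreeGroup (Fin n)) (v₀, 0)
      map_one' := by simp
      map_mul' := by
        intro u w
        obtain ⟨hu1, hu2⟩ := of_fix K p c v₀ u ((hfix u).1 u.2)
        obtain ⟨hw1, hw2⟩ := of_fix K p c v₀ w ((hfix w).1 w.2)
        have hK0 : (K : ℤ) ≠ 0 := by exact_mod_cast hK.ne'
        have h1 : sig p c ((u * w : N) : FreeGroup (Fin n)) v₀ / (K : ℤ) =
            sig p c (u : FreeGroup (Fin n)) v₀ / K + sig p c (w : FreeGroup (Fin n)) v₀ / K := by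
          have h2 : sig p c ((u * w : N) : FreeGroup (Fin n)) v₀ =
              sig p c (u : FreeGroup (Fin n)) v₀ +
                sig p c (w : FreeGroup (Fin n)) v₀ / K * K := by
            rw [Subgroup.coe_mul, sig_mul, hw1, hw2]
          rw [h2, Int.add_mul_ediv_right _ _ hK0]
        have h3 : pi (tr p c) (w : FreeGroup (Fin n)) (v₀, 0) =
            (v₀, 0 + sig p c (w : FreeGroup (Fin n)) v₀ / K * K) := by
          rw [pi_tr, hw1, hw2]
        rw [h1, Subgroup.coe_mul, lab_mul, h3, lab_shift K hK]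
        rw [neg_add_rev, zpow_add, zpow_neg, zpow_neg]
        group }
  have hθ : ∀ w : N, θ w = (FreeGroup.of 1) ^ (-(sig p c (w : FreeGroup (Fin n)) v₀ / (K : ℤ))) *
        lab (tr p c) (ell K ψ) (w : FreeGroup (Fin n)) (v₀, 0) := fun w => rfl
  have hex0 : ∀ w : N, Multiplicative.toAdd (ex 0 (θ w)) =
      sig (tr p (fun i v => (c i v : ZMod K))) ψ (w : FreeGroup (Fin n)) (v₀, 0) := by
    intro w
    rw [hθ, map_mul, toAdd_mul, ex0_lab]
    have h1 : ex 0 ((FreeGroup.of (1 : Fin 2)) ^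
        (-(sig p c (w : FreeGroup (Fin n)) v₀ / (K : ℤ)))) = 1 := by
      rw [map_zpow]
      simp [ex]
    rw [h1, toAdd_one, zero_add, Int.cast_zero]
  have hex1 : ∀ w : N, Multiplicative.toAdd (ex 1 (θ w)) =
      -(sig p c (w : FreeGroup (Fin n)) v₀ / (K : ℤ)) := by
    intro w
    rw [hθ, map_mul, toAdd_mul, ex1_lab, add_zero, map_zpow, toAdd_zpow]
    simp [ex]
  have hm₁ : w₁ ∈ N := (hfix w₁).2 h₁
  have hm₂ : w₂ ∈ N := (hfix w₂).2 h₂
  refine large_of_ne _ N hNfi θ ?_ ⟨w₁, hm₁⟩ ⟨w₂, hm₂⟩ ?_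
  · intro r hr
    rw [MonoidHom.mem_ker, act_eq_one_iff] at hr
    obtain ⟨h3, h4⟩ := hr (v₀, 0)
    rw [pi_tr] at h3
    have h5 : pi p r v₀ = v₀ := (Prod.ext_iff.mp h3).1
    have h6 : sig p c r v₀ = 0 := by
      have h7 : (0 : ℤ) + sig p c r v₀ = 0 := (Prod.ext_iff.mp h3).2
      rwa [zero_add] at h7
    have hrN : r ∈ N := by
      rw [hfix, pi_tr, h5]
      have h8 : sig p (fun i v => (c i v : ZMod K)) r v₀ = ((sig p c r v₀ : ℤ) : ZMod K) :=
        sig_map (Int.castAddHom (ZMod K)) p c r v₀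
      rw [h8, h6, Int.cast_zero, add_zero]
    refine ⟨hrN, ?_⟩
    rw [hθ]
    show (FreeGroup.of 1) ^ (-(sig p c r v₀ / (K : ℤ))) * lab (tr p c) (ell K ψ) r (v₀, 0) = 1
    rw [h4, h6]
    simp
  · apply ne_comm
    rw [hex0, hex0, hex1, hex1]
    obtain ⟨-, e1⟩ := of_fix K p c v₀ w₁ h₁
    obtain ⟨-, e2⟩ := of_fix K p c v₀ w₂ h₂
    intro hc
    apply hne
    have hc' : sig (tr p (fun i v => (c i v : ZMod K))) ψ w₁ (v₀, 0) *
        (sig p c w₂ v₀ / (K : ℤ)) = sig (tr p (fun i v => (c i v : ZMod K))) ψ w₂ (v₀, 0) *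
        (sig p c w₁ v₀ / (K : ℤ)) := by
      have := hc
      simp only [mul_neg, neg_inj] at this
      exact this
    rw [← e1, ← e2, ← mul_assoc, ← mul_assoc, hc']

end Pool.Agent.BP
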